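import Pool.Agent.Lib.H85P.SD

/-!
# H85P, S1: Iwasawa exponents
-/

namespace Pool.Agent.Lib.H85P

open MeasureTheory Matrix NumberField IsDedekindDomain
open Pool.Agent.Lib.H89N Pool.Agent.Lib.H33W Pool.Agent.Lib.H33N

noncomputable section

variable {n N : ℕ}

theorem mq_mul (a b : HH n N) : mQ (a * b) = mQ a * mQ b := rfl

theorem mq_one : mQ (1 : HH n N) = 1 := rfl

theorem mq_det (h : HH n N) : 0 < (mQ h).det := h.2.1

/-- The diagonal entries of an upper triangular invertible matrix are nonzero. -/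
theorem up_ne {h : HH n N} (hu : UpH h) (i : Fin n) : mQ h i i ≠ 0 := by
  have h1 : (mQ h).det = ∏ i, mQ h i i := Matrix.det_of_isUpperTriangular fun i l hl => hu i l hl
  have h2 := mq_det h
  rw [h1] at h2
  exact Finset.prod_ne_zero_iff.1 h2.ne' i (Finset.mem_univ i)

/-- Products of upper triangular matrices. -/
theorem up_mul {a b : HH n N} (ha : UpH a) (hb : UpH b) : UpH (a * b) ∧ ∀ i, mQ (a * b) i i = mQ a i i * mQ b i i := by
  refine ⟨fun i l hl => ?_, fun i => ?_⟩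
  · rw [mq_mul, Matrix.mul_apply]
    refine Finset.sum_eq_zero fun j _ => ?_
    rcases lt_or_ge j i with h1 | h1
    · rw [ha i j h1, zero_mul]
    · rw [hb j l (lt_of_lt_of_le hl h1), mul_zero]
  · rw [mq_mul, Matrix.mul_apply]
    refine Finset.sum_eq_single i (fun j _ hj => ?_) (fun h => absurd (Finset.mem_univ i) h)
    rcases lt_or_gt_of_ne hj with h1 | h1
    · rw [ha i j h1, zero_mul]
    · rw [hb j i h1, mul_zero]

theorem mq_inv (a : HH n N) : mQ a⁻¹ = (mQ a)⁻¹ := by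
  have h1 : mQ a⁻¹ * mQ a = 1 := by
    rw [← mq_mul, inv_mul_cancel, mq_one]
  exact (Matrix.inv_eq_left_inv h1).symm

/-- The inverse of an upper triangular matrix is upper triangular. -/
theorem up_inv {a : HH n N} (ha : UpH a) : UpH a⁻¹ := by
  intro i l hl
  have hd : IsUnit (mQ a).det := (mq_det a).ne'.isUnit
  have : Invertible (mQ a) := Matrix.invertibleOfIsUnitDet _ hd
  have h1 : (mQ a).BlockTriangular id := fun i l hl => ha i l hl
  have h2 := Matrix.blockTriangular_inv_of_blockTriangular h1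
  rw [mq_inv]
  exact h2 hl

/-- A unipotent-up-to-sign statement: upper triangular elements of `GH` have the diagonal entries `± 1`. -/
theorem up_gh {a : HH n N} (ha : UpH a) (hg : a ∈ GH n N) (i : Fin n) : mQ a i i = 1 ∨ mQ a i i = -1 := by
  obtain ⟨γ, rfl⟩ := hg
  have e : ∀ i l, mQ (zh N γ) i l = ((γ.1 i l : ℤ) : ℚ) := fun i l => rfl
  have h1 : (γ.1).det = ∏ i, γ.1 i i := by
    refine Matrix.det_of_isUpperTriangular fun i l hl => ?_
    have h2 := ha i l hl
    rw [e] at h2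
    exact_mod_cast h2
  rw [γ.2] at h1
  have h3 : IsUnit (∏ i, γ.1 i i) := by
    rw [← h1]
    exact isUnit_one
  have h4 : IsUnit (γ.1 i i) := isUnit_of_dvd_unit (Finset.dvd_prod_of_mem (fun i => γ.1 i i) (Finset.mem_univ i)) h3
  rcases Int.isUnit_iff.1 h4 with h5 | h5
  · left
    rw [e, h5, Int.cast_one]
  · right
    rw [e, h5]
    norm_num

/-- The exponents exist. -/
theorem iwe_spec (hn : 0 < n) (q : ℕ) (h : HH n N) : IwR q h (iwe q h) := by
  have H : ∃ e, IwR q h e := by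
    obtain ⟨γ, hγ, hu⟩ := hh_upper hn h
    exact ⟨fun i => padicValRat q (mQ (γ * h) i i), γ, hγ, fun i l hl => hu i l hl, fun i => rfl⟩
  unfold iwe
  rw [dif_pos H]
  exact H.choose_spec

theorem iwr_uniq {q : ℕ} {h : HH n N} {e e' : Fin n → ℤ} (he : IwR q h e) (he' : IwR q h e') : e = e' := by
  obtain ⟨γ, hγ, hu, hv⟩ := he
  obtain ⟨γ', hγ', hu', hv'⟩ := he'
  have e1 : γ' * h = (γ' * γ⁻¹) * (γ * h) := by group
  have hw : UpH (γ' * γ⁻¹) := by
    have e2 : γ' * γ⁻¹ = (γ' * h) * (γ * h)⁻¹ := by group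
    rw [e2]
    exact (up_mul hu' (up_inv hu)).1
  have hg : γ' * γ⁻¹ ∈ GH n N := mul_mem hγ' (inv_mem hγ)
  funext i
  rw [← hv i, ← hv' i, e1, (up_mul hw hu).2 i]
  rcases up_gh hw hg i with h1 | h1
  · rw [h1, one_mul]
  · rw [h1, neg_one_mul, padicValRat.neg]

/-- The exponents are unique. -/
theorem iwe_uniq (hn : 0 < n) {q : ℕ} {h : HH n N} {e : Fin n → ℤ} (he : IwR q h e) : iwe q h = e :=
  iwr_uniq (iwe_spec hn q h) he

/-- Invariance under `GH`. -/
theorem iwe_left (hn : 0 < n) (q : ℕ) {γ : HH n N} (hγ : γ ∈ GH n N) (h : HH n N) : iwe q (γ * h) = iwe q h := by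
  obtain ⟨g, hg, hu, hv⟩ := iwe_spec hn q h
  refine iwe_uniq hn ⟨g * γ⁻¹, mul_mem hg (inv_mem hγ), ?_, ?_⟩
  · have e1 : g * γ⁻¹ * (γ * h) = g * h := by group
    rw [e1]
    exact hu
  · have e1 : g * γ⁻¹ * (γ * h) = g * h := by group
    rw [e1]
    exact hv

/-- Multiplication by upper triangular elements on the right. -/
theorem iwe_mul (hn : 0 < n) {q : ℕ} (hq : q.Prime) (h : HH n N) {b : HH n N} (hb : UpH b) (i : Fin n) :
    iwe q (h * b) i = iwe q h i + padicValRat q (mQ b i i) := by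
  have _ : Fact q.Prime := ⟨hq⟩
  obtain ⟨g, hg, hu, hv⟩ := iwe_spec hn q h
  have h1 : IwR q (h * b) (fun i => iwe q h i + padicValRat q (mQ b i i)) := by
    refine ⟨g, hg, ?_, fun i => ?_⟩
    · rw [← mul_assoc]
      exact (up_mul hu hb).1
    · rw [← mul_assoc, (up_mul hu hb).2 i, padicValRat.mul (up_ne hu i) (up_ne hb i), hv i]
  rw [iwe_uniq hn h1]

end

end Pool.Agent.Lib.H85P
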