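import Pool.Agent.Lib.H85P.S7
import Pool.Agent.Lib.H85P.S1

/-!
# H85P, B1: from `SatakeF` to the operators of the double cosets on the product
-/

namespace Pool.Agent.Lib.H85P

open MeasureTheory Matrix NumberField IsDedekindDomain
open Pool.Agent.Lib.H89N Pool.Agent.Lib.H33W Pool.Agent.Lib.H33N

noncomputable section

variable {n N : ℕ}

theorem b1_gh {γ : HH n N} (hγ : γ ∈ GH n N) : ∃ δ ∈ Gamma n (⊤ : Ideal (𝓞 ℚ)), mQ γ = δ.1 := by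
  obtain ⟨δ, rfl⟩ := hγ
  refine ⟨zq δ, ?_, rfl⟩
  rw [gam_top]
  exact ⟨δ, rfl⟩

theorem b1_left {g : SLK n ℚ} {γ h : HH n N} (hγ : γ ∈ GH n N) (hh : h ∈ SDg n N g) : γ * h ∈ SDg n N g := by
  obtain ⟨γ1, h1, γ2, h2, e⟩ := hh
  obtain ⟨δ, hδ, e'⟩ := b1_gh hγ
  refine ⟨δ * γ1, mul_mem hδ h1, γ2, h2, ?_⟩
  rw [mq_mul, e, e', mul_assoc δ γ1 g, mul_assoc δ (γ1 * g) γ2]
  rfl

theorem b1_right {g : SLK n ℚ} {γ h : HH n N} (hγ : γ ∈ GH n N) (hh : h ∈ SDg n N g) : h * γ ∈ SDg n N g := by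
  obtain ⟨γ1, h1, γ2, h2, e⟩ := hh
  obtain ⟨δ, hδ, e'⟩ := b1_gh hγ
  refine ⟨γ1, h1, γ2 * δ, mul_mem h2 hδ, ?_⟩
  rw [mq_mul, e, e', ← mul_assoc (γ1 * g) γ2 δ]
  rfl

theorem b1_int {γ : SLK n ℚ} (hγ : γ ∈ Gamma n (⊤ : Ideal (𝓞 ℚ))) : ∃ M : Matrix (Fin n) (Fin n) ℤ, γ.1 = M.map (Int.castRingHom ℚ) := by
  rw [gam_top] at hγ
  obtain ⟨δ, rfl⟩ := hγ
  exact ⟨δ.1, rfl⟩

/-- PROOF. Left and right invariance of `SDg` (`gam_top`). -/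
theorem sdg_inv (g : SLK n ℚ) : (∀ γ ∈ GH n N, ∀ h, (γ * h ∈ SDg n N g ↔ h ∈ SDg n N g)) ∧ ∀ γ ∈ GH n N, ∀ h, (h * γ ∈ SDg n N g ↔ h ∈ SDg n N g) := by
  refine ⟨fun γ hγ h => ⟨fun h1 => ?_, b1_left hγ⟩, fun γ hγ h => ⟨fun h1 => ?_, b1_right hγ⟩⟩
  · have h2 := b1_left (inv_mem hγ) h1
    rwa [inv_mul_cancel_left] at h2
  · have h2 := b1_right (inv_mem hγ) h1
    rwa [mul_inv_cancel_right] at h2

/-- PROOF. `hg_to`; the matrix is in the double coset by definition. -/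
theorem dc_to {v : HeightOneSpectrum (𝓞 ℚ)} (hv : ¬nI N ≤ v.asIdeal) {g s : SLK n ℚ} (hs : s ∈ DC (nI N) v g) :
    ∃ h ∈ SDg n N g, mQ h = s.1 ∧ (h.1.2.1 : Matrix (Fin n) (Fin n) (ZMod N)) = 1 := by
  obtain ⟨hs1, γ, hγ, γ', hγ', e⟩ := hs
  obtain ⟨h, e1, e2⟩ := hg_to hv hs1
  exact ⟨h, ⟨γ, hγ, γ', hγ', by rw [e1, e]⟩, e1, e2⟩

/-- PROOF. `g ∈ HG (nI N) v` has a `q`-power denominator, hence so has `h ∈ SDg g`; `hg_of`. -/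
theorem dc_of {v : HeightOneSpectrum (𝓞 ℚ)} (hv : ¬nI N ≤ v.asIdeal) {g : SLK n ℚ} (hg : g ∈ HG (nI N) v) {h : HH n N} (hh : h ∈ SDg n N g)
    (h1 : (h.1.2.1 : Matrix (Fin n) (Fin n) (ZMod N)) = 1) : ∃ s ∈ DC (nI N) v g, mQ h = s.1 := by
  obtain ⟨γ, hγ, γ', hγ', e⟩ := hh
  obtain ⟨j, hj⟩ := hg
  obtain ⟨q, hq, hnorm, -, hden⟩ := den_iff v
  have hZ : ∀ i l, ∃ z : ℤ, (q : ℚ) ^ j * (g.1 - 1) i l = N * z := fun i l => (hden N j _).1 (hj i l).1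
  choose Z hZ using hZ
  obtain ⟨A, hA⟩ := b1_int hγ
  obtain ⟨B, hB⟩ := b1_int hγ'
  have hG : ((q : ℚ) ^ j) • g.1 = (Matrix.of fun i l => ((q ^ j : ℕ) : ℤ) * (1 : Matrix (Fin n) (Fin n) ℤ) i l + N * Z i l).map (Int.castRingHom ℚ) := by
    refine Matrix.ext fun i l => ?_
    rw [Matrix.smul_apply, Matrix.map_apply, Matrix.of_apply, smul_eq_mul]
    show (q : ℚ) ^ j * g.1 i l = (((((q ^ j : ℕ) : ℤ) * (1 : Matrix (Fin n) (Fin n) ℤ) i l + N * Z i l) : ℤ) : ℚ)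
    have h1 := hZ i l
    rw [Matrix.sub_apply] at h1
    push_cast
    rw [← h1, Matrix.one_apply, Matrix.one_apply]
    split_ifs
    · push_cast
      ring
    · push_cast
      ring
  have hdet : (mQ h).det = 1 := by
    rw [e]
    exact (γ * g * γ').2
  have hM : ((Ideal.absNorm v.asIdeal : ℚ) ^ j) • mQ h =
      (A * (Matrix.of fun i l => ((q ^ j : ℕ) : ℤ) * (1 : Matrix (Fin n) (Fin n) ℤ) i l + N * Z i l) * B).map (Int.castRingHom ℚ) := by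
    rw [Matrix.map_mul, Matrix.map_mul, ← hG, ← hA, ← hB, e, hnorm]
    show _ • (γ.1 * g.1 * γ'.1) = _
    rw [Matrix.mul_smul, Matrix.smul_mul]
  obtain ⟨s, hs, es⟩ := hg_of hv h1 hdet hM
  refine ⟨s, ⟨hs, γ, hγ, γ', hγ', ?_⟩, es⟩
  apply Subtype.ext
  rw [← es, e]

/-- PROOF. If `γ s` is upper triangular with diagonal `q ^ (e i)` then `zh γ h` is, and `padicValRat q (q ^ e) = e`. -/
theorem iw_iwr {v : HeightOneSpectrum (𝓞 ℚ)} {q : ℕ} (hqv : Ideal.absNorm v.asIdeal = q) (hq : q.Prime) {s : SLK n ℚ} {e : Fin n → ℤ} (hs : Iw v s e)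
    {h : HH n N} (hh : mQ h = s.1) : IwR q h e := by
  obtain ⟨γ, hγ, hu, hd⟩ := hs
  rw [gam_top] at hγ
  obtain ⟨δ, rfl⟩ := hγ
  have e1 : mQ (zh N δ * h) = ((zq δ : SLK n ℚ) * s).1 := by
    rw [mq_mul, hh]
    rfl
  have : Fact q.Prime := ⟨hq⟩
  refine ⟨zh N δ, ⟨δ, rfl⟩, fun i l hl => ?_, fun i => ?_⟩
  · rw [e1]
    exact hu i l hl
  · rw [e1, hd i, hqv, padicValRat.zpow, padicValRat.self hq.one_lt, mul_one]

end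

end Pool.Agent.Lib.H85P
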