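import Pool.Agent.Lib.H85P.S1

/-!
# H85P, S2: the spherical function is an eigenfunction of all Hecke operators
-/

namespace Pool.Agent.Lib.H85P

open MeasureTheory Matrix NumberField IsDedekindDomain
open Pool.Agent.Lib.H89N Pool.Agent.Lib.H33W Pool.Agent.Lib.H33N

noncomputable section

variable {n N : ℕ}

theorem om_inv (hn : 0 < n) (q : ℕ) (α : Fin n → ℂ) : InvF (X := HH n N) (GH n N) (om q α) := by
  intro γ hγ x
  unfold om
  rw [smul_eq_mul, iwe_left hn q hγ]

theorem iwe_up (hn : 0 < n) (q : ℕ) {b : HH n N} (hb : UpH b) (i : Fin n) : iwe q b i = padicValRat q (mQ b i i) := by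
  have h1 : IwR q b (fun i => padicValRat q (mQ b i i)) := by
    refine ⟨1, one_mem _, ?_, fun i => ?_⟩
    · rw [one_mul]
      exact hb
    · rw [one_mul]
  rw [iwe_uniq hn h1]

theorem om_one (hn : 0 < n) (q : ℕ) (α : Fin n → ℂ) : om q α (1 : HH n N) = 1 := by
  have hu : UpH (1 : HH n N) := fun i l hl => by
    rw [mq_one, Matrix.one_apply_ne (ne_of_gt hl)]
  unfold om
  refine Finset.prod_eq_one fun i _ => ?_
  rw [iwe_up hn q hu, mq_one, Matrix.one_apply_eq, padicValRat.one, zpow_zero]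

/-- `ω (h b) = ω h ω b` for `b` upper triangular. -/
theorem om_mul (hn : 0 < n) {q : ℕ} (hq : q.Prime) {α : Fin n → ℂ} (hα : ∀ i, α i ≠ 0) (h : HH n N) {b : HH n N} (hb : UpH b) :
    om q α (h * b) = om q α h * om q α b := by
  unfold om
  rw [← Finset.prod_mul_distrib]
  refine Finset.prod_congr rfl fun i _ => ?_
  have hq0 : (q : ℂ) ≠ 0 := by exact_mod_cast hq.ne_zero
  have h1 : α i / (q : ℂ) ^ (i : ℕ) ≠ 0 := div_ne_zero (hα i) (pow_ne_zero _ hq0)
  rw [iwe_mul hn hq h hb, iwe_up hn q hb, zpow_add₀ h1]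

/-- **The spherical function is an eigenfunction.** -/
theorem ts_om (hn : 0 < n) {q : ℕ} (hq : q.Prime) {α : Fin n → ℂ} (hα : ∀ i, α i ≠ 0) {S : Set (HH n N)} (hS : BS (GH n N) S) (h : HH n N) :
    TS (GH n N) S (om q α) h = lamO q α S * om q α h := by
  obtain ⟨γ, hγ, hu⟩ := hh_upper hn h
  have h1 := ts_inv hS (om_inv (N := N) hn q α) γ hγ h
  have h2 := om_inv (N := N) hn q α γ hγ h
  rw [smul_eq_mul] at h1 h2
  rw [← h1, ← h2]
  unfold TS lamO
  rw [Finset.sum_mul]
  refine Finset.sum_congr rfl fun r _ => ?_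
  rw [smul_eq_mul]
  exact om_mul hn hq hα r hu

end

end Pool.Agent.Lib.H85P
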