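import Pool.Agent.Lib.H85P.B1
import Pool.Agent.Lib.H85P.S2

/-!
# H85P, B2: from `SatakeF` to the operators of the double cosets, continued
-/

namespace Pool.Agent.Lib.H85P

open MeasureTheory Matrix NumberField IsDedekindDomain
open Pool.Agent.Lib.H89N Pool.Agent.Lib.H33W Pool.Agent.Lib.H33N

noncomputable section

variable {n N : ℕ}

/-- PROOF. The proof of `hec_to` (`H33N.HF6`) with `SDg g`, `DC (nI N) v g` in the place of `SV`, `Delta` (`dc_to`, `dc_of`, `red_one`, `sdg_inv`, `bs_of`, `hf6_act`, `hf6_gam`). The eigenvalue `∑_{s ∈ S} ∏ (α_i / q^i) ^ (e s i)` is `lamO`: the elements of `SDg` corresponding to the `s ∈ S` are representatives of `GH \ SDg` (this is shown there) and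
`om` of such an element is the summand (`iw_iwr`, `iwe_uniq`); `ha1_sum`, `ha1_rep`, `om_inv`. -/
theorem sat_to (hn : 0 < n) (hN : 0 < N) {v : HeightOneSpectrum (𝓞 ℚ)} (hv : ¬nI N ≤ v.asIdeal) {q : ℕ} (hqv : Ideal.absNorm v.asIdeal = q) (hq : q.Prime)
    {F : XX n N → ℂ} (hF : FInv F) {κ : KG n N} {α : Fin n → ℂ} (h : SatakeF (nI N) v (slc κ F) α) :
    ∀ g ∈ HG (nI N) v, BS (GH n N) (SDg n N g) ∧ ∀ x, TS (GH n N) (SDg n N g) F x = lamO q α (SDg n N g) * F x := by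
  classical
  intro g hg
  obtain ⟨S, e, hS, hex, heq⟩ := h.ev g hg
  have hφ : ∀ s : SLK n ℚ, ∃ h : HH n N, s ∈ DC (nI N) v g → h ∈ SDg n N g ∧ (h.1.1.1 : Matrix (Fin n) (Fin n) ℚ) = s.1 ∧
      (h.1.2.1 : Matrix (Fin n) (Fin n) (ZMod N)) = 1 := by
    intro s
    by_cases hs : s ∈ DC (nI N) v g
    · obtain ⟨h, h1, h2, h3⟩ := dc_to hv hs
      exact ⟨h, fun _ => ⟨h1, h2, h3⟩⟩
    · exact ⟨1, fun h => absurd h hs⟩
  choose φ hφ using hφ
  have hinj : ∀ s ∈ S, ∀ s' ∈ S, φ s = φ s' → s = s' := by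
    intro s hs s' hs' e
    apply Subtype.ext
    rw [← (hφ s (hS s hs).1).2.1, ← (hφ s' (hS s' hs').1).2.1, e]
  have hR : RepL (GH n N) (SDg n N g) (S.image φ) := by
    refine ⟨?_, ?_, ?_⟩
    · intro r hr
      obtain ⟨s, hs, rfl⟩ := Finset.mem_image.1 hr
      exact (hφ s (hS s hs).1).1
    · intro h' hh'
      have hdet : (mQ h').det = 1 := by
        obtain ⟨γ1, -, γ2, -, e⟩ := hh'
        rw [e]
        exact (γ1 * g * γ2).2
      obtain ⟨γ, hγ, h2⟩ := red_one hN hdet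
      have h1 : γ * h' ∈ SDg n N g := ((sdg_inv g).1 γ hγ h').2 hh'
      obtain ⟨s, hs, h3⟩ := dc_of hv hg h1 h2
      obtain ⟨s₀, ⟨hs₀, h4⟩, _⟩ := hex s hs
      refine ⟨φ s₀, Finset.mem_image.2 ⟨s₀, hs₀, rfl⟩, ?_⟩
      obtain ⟨_, a2, a3⟩ := hφ s₀ (hS s₀ hs₀).1
      have h5 := (hf6_gam a2 a3 h3 h2).2 h4
      have h6 := mul_mem (inv_mem hγ) h5
      rwa [mul_assoc, inv_mul_cancel_left] at h6
    · intro r hr r' hr' he
      obtain ⟨s, hs, rfl⟩ := Finset.mem_image.1 hr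
      obtain ⟨s', hs', rfl⟩ := Finset.mem_image.1 hr'
      obtain ⟨_, a2, a3⟩ := hφ s (hS s hs).1
      obtain ⟨_, b2, b3⟩ := hφ s' (hS s' hs').1
      have h5 := (hf6_gam a2 a3 b2 b3).1 he
      obtain ⟨s₀, _, hu⟩ := hex s' (hS s' hs').1
      have h6 := hu s ⟨hs, h5⟩
      have h7 := hu s' ⟨hs', 1, one_mem _, (one_mul _).symm⟩
      rw [h6, h7]
  have hB : BS (GH n N) (SDg n N g) := bs_of (sdg_inv g).1 (sdg_inv g).2 ⟨_, hR.ex⟩
  have hFi := inv_gh.1 hF.inv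
  have hlam : ∑ s ∈ S, ∏ i, (α i / (Ideal.absNorm v.asIdeal : ℂ) ^ (i : ℕ)) ^ e s i = lamO q α (SDg n N g) := by
    unfold lamO
    have h1 : ∀ γ ∈ GH n N, ∀ h' : HH n N, om q α (γ * h') = om q α h' := fun γ hγ h' => om_inv hn q α γ hγ h'
    rw [ha1_sum (ha1_rep hR) hR h1, Finset.sum_image fun a ha b hb => hinj a ha b hb]
    refine Finset.sum_congr rfl fun s hs => ?_
    have h2 : IwR q (φ s) (e s) := iw_iwr hqv hq (hS s hs).2 (hφ s (hS s hs).1).2.1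
    unfold om
    rw [iwe_uniq hn h2, hqv]
  refine ⟨hB, ?_⟩
  have hkey : ∀ y : XX n N, y.1 = κ → TS (GH n N) (SDg n N g) F y = lamO q α (SDg n N g) * F y := by
    intro y hy
    rw [ts_rep hR hFi, Finset.sum_image fun a ha b hb => hinj a ha b hb]
    have e1 : slc κ F y.2 = F y := by
      show F (κ, y.2) = F y
      rw [← hy]
      rfl
    rw [← e1, ← hlam, ← heq y.2]
    refine Finset.sum_congr rfl fun s hs => ?_
    obtain ⟨_, a2, a3⟩ := hφ s (hS s hs).1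
    rw [hf6_act hN a2 a3]
    show F (y.1, emb s * y.2) = F (κ, emb s * y.2)
    rw [hy]
  intro x
  have h1 := inv_gh.2 (ts_inv hB hFi) (lift (κ * x.1⁻¹)) x
  have h2 := hF.inv (lift (κ * x.1⁻¹)) x
  rw [← h1, ← h2]
  refine hkey _ ?_
  show rd n N (lift (κ * x.1⁻¹)) * x.1 = κ
  rw [lift_spec hN, inv_mul_cancel_right]

end

end Pool.Agent.Lib.H85P
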