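import Pool.Agent.Lib.H85P.SD
import Pool.Agent.Lib.H33N.KT7B

/-!
# H85P, B3: the spaces spanned by forms with given eigenvalues
-/

namespace Pool.Agent.Lib.H85P

open MeasureTheory Matrix NumberField IsDedekindDomain
open Pool.Agent.Lib.H89N Pool.Agent.Lib.H85S Pool.Agent.Lib.H85N Pool.Agent.Lib.H33W Pool.Agent.Lib.H33N
open scoped ENNReal

noncomputable section

set_option linter.unusedSectionVars false

variable {n N : ℕ}

/-- The forms with a system of eigenvalues of the operators of the sets `S i` in `Θ`. -/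
def PKg (N : ℕ) [NeZero N] (μ : Measure (GG n ℚ)) [μ.IsHaarMeasure] (C : Submodule ℂ (KO n → ℂ)) {ι : Type} (S : ι → Set (HH n N)) (l : ℝ) (Θ : Set (ι → ℂ)) :
    Set (XX n N → ℂ) := {F | F ∈ MXk N μ C l ∧ ∃ θ ∈ Θ, ∀ i, TS (GH n N) (S i) F = θ i • F}

/-- Their span. -/
def PKs (N : ℕ) [NeZero N] (μ : Measure (GG n ℚ)) [μ.IsHaarMeasure] (C : Submodule ℂ (KO n → ℂ)) {ι : Type} (S : ι → Set (HH n N)) (l : ℝ) (Θ : Set (ι → ℂ)) :
    Submodule ℂ (XX n N → ℂ) := Submodule.span ℂ (PKg N μ C S l Θ)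

variable [NeZero N] {μ : Measure (GG n ℚ)} [μ.IsHaarMeasure] {C : Submodule ℂ (KO n → ℂ)} {ι : Type} {S : ι → Set (HH n N)} {l : ℝ} {Θ : Set (ι → ℂ)}

/-- PROOF. `gks_le` (`H33N.KT7B`). -/
theorem pks_le : PKs N μ C S l Θ ≤ MXk N μ C l := Submodule.span_le.2 fun _ hF => hF.1

/-- PROOF. `gks_ts` (`H33N.KT7B`), `SV n N v k` replaced by `S i`. -/
theorem pks_ts (hn : 0 < n) (hB : ∀ i, BS (GH n N) (S i)) {S' : Set (HH n N)} (hS : BS (GH n N) S') {F : XX n N → ℂ}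
    (hF : F ∈ PKs N μ C S l Θ) : TS (GH n N) S' F ∈ PKs N μ C S l Θ := by
  obtain ⟨τ, -, t2, t3, t4, t5⟩ := tau_ex n N
  refine Submodule.span_induction (p := fun F _ => TS (GH n N) S' F ∈ PKs N μ C S l Θ) ?_ ?_ ?_ ?_ hF
  · rintro G ⟨hG, θ, hθ, h1⟩
    refine Submodule.subset_span ⟨mxk_ts hn hS hG, θ, hθ, fun k => ?_⟩
    have h2 : TS (GH n N) (S k) (TS (GH n N) S' G) = TS (GH n N) S' (TS (GH n N) (S k) G) := by
      funext x
      exact ts_comm (hB k) hS t2 t3 t4 t5 (inv_gh.1 hG.1.inv) x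
    rw [h2, h1 k, ts_smul']
  · rw [ts_zero']
    exact Submodule.zero_mem _
  · intro F G _ _ hF hG
    rw [ts_add']
    exact Submodule.add_mem _ hF hG
  · intro c F _ hF
    rw [ts_smul']
    exact Submodule.smul_mem _ _ hF

/-- PROOF. `gks_sys` (`H33N.KT7B`). -/
theorem pks_sys (hn : 0 < n) (hB : ∀ i, BS (GH n N) (S i)) {F : XX n N → ℂ} (hF : F ∈ PKs N μ C S l Θ) (h0 : F ≠ 0) {c : ι → ℂ}
    (hc : ∀ i, TS (GH n N) (S i) F = fun x => c i * F x) : c ∈ Θ := by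
  classical
  have hV : ∀ S', BS (GH n N) S' → ∀ F ∈ PKs N μ C S l Θ, TS (GH n N) S' F ∈ PKs N μ C S l Θ := fun S' hS F hF => pks_ts hn hB hS hF
  have hch : ∀ G : XX n N → ℂ, ∃ θ : ι → ℂ, G ∈ PKg N μ C S l Θ → θ ∈ Θ ∧ ∀ k, TS (GH n N) (S k) G = θ k • G := by
    intro G
    by_cases hG : G ∈ PKg N μ C S l Θ
    · obtain ⟨_, θ, h1, h2⟩ := hG
      exact ⟨θ, fun _ => ⟨h1, h2⟩⟩
    · exact ⟨fun _ => 0, fun h => absurd h hG⟩
  choose θ hθ using hch
  obtain ⟨G, hG, -, h1⟩ := hl_sys (V := PKs N μ C S l Θ) (ι := ι) (fun k => ebT (PKs N μ C S l Θ) hV ⟨S k, hB k⟩)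
    (s := (Subtype.val : PKs N μ C S l Θ → XX n N → ℂ) ⁻¹' PKg N μ C S l Θ) (Submodule.span_span_coe_preimage)
    (fun G => θ G.1) (by
      intro G hG k
      apply Subtype.ext
      exact (hθ G.1 hG).2 k)
    (x := ⟨F, hF⟩) (fun h => h0 (congrArg Subtype.val h)) (d := c) (by
      intro k
      apply Subtype.ext
      exact hc k)
  have h2 : c = θ G.1 := funext h1
  rw [h2]
  exact (hθ G.1 hG).1

/-- PROOF. `gks_basis` (`H33N.KT7B`): `eb_sub` gives eigenvectors of all `BS` sets, `a j S` is the eigenvalue (`0` if `S` is not `BS`); `pks_sys` for `c i = a j (S i)`. -/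
theorem pks_basis [FiniteDimensional ℂ C] (hC : ∀ c ∈ C, Continuous c) (hn : 0 < n) (hB : ∀ i, BS (GH n N) (S i)) {D : Set (XX n N)} (hD : SF (⊤ : Subgroup (ZG n)) D) :
    ∃ (e : Fin (Module.finrank ℂ (PKs N μ C S l Θ)) → XX n N → ℂ) (a : Fin (Module.finrank ℂ (PKs N μ C S l Θ)) → Set (HH n N) → ℂ),
      (∀ j, e j ∈ PKs N μ C S l Θ) ∧ (∀ i j, ∫ x in D, star (e i x) * e j x ∂xm N μ = if i = j then 1 else 0) ∧
      (∀ j S', BS (GH n N) S' → TS (GH n N) S' (e j) = fun x => a j S' * e j x) ∧ ∀ j, (fun i => a j (S i)) ∈ Θ := by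
  classical
  haveI := mxk_fd (N := N) (by omega : 1 ≤ n) μ C hC l
  haveI : FiniteDimensional ℂ (PKs N μ C S l Θ) := Submodule.finiteDimensional_of_le (pks_le (μ := μ) (S := S) (l := l) (Θ := Θ))
  obtain ⟨e, e1, e2, -⟩ := eb_sub μ (PKs N μ C S l Θ) (fun F hF => (pks_le hF).1) (fun F hF => (pks_le hF).2.1)
    (fun S hS F hF => pks_ts hn hB hS hF) 1 (fun S hS F => rfl) hD
  have h0 : ∀ j, (e j).1 ≠ 0 := by
    intro j h
    have h1 := e1 j j
    rw [if_pos rfl, h] at h1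
    simp at h1
  have hex : ∀ (j : Fin (Module.finrank ℂ (PKs N μ C S l Θ))) (S' : Set (HH n N)), ∃ c : ℂ, BS (GH n N) S' →
      TS (GH n N) S' (e j).1 = fun x => c * (e j).1 x := by
    intro j S'
    by_cases h : BS (GH n N) S'
    · obtain ⟨c, hc⟩ := e2 S' h j
      exact ⟨c, fun _ => hc⟩
    · exact ⟨0, fun h' => absurd h' h⟩
  choose a ha using hex
  exact ⟨fun j => (e j).1, a, fun j => (e j).2, e1, ha, fun j => pks_sys hn hB (e j).2 (h0 j) fun i => ha j (S i) (hB i)⟩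

end

end Pool.Agent.Lib.H85P
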