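import Pool.Agent.Lib.H85P.B2
import Pool.Agent.Lib.H85P.B3

/-!
# H85P, B4: orthogonality of forms with different systems of eigenvalues
-/

namespace Pool.Agent.Lib.H85P

open MeasureTheory Matrix NumberField IsDedekindDomain
open Pool.Agent.Lib.H89N Pool.Agent.Lib.H85S Pool.Agent.Lib.H85N Pool.Agent.Lib.H33W Pool.Agent.Lib.H33N
open scoped ENNReal

noncomputable section

variable {n N : ℕ}

theorem b4_adj [NeZero N] {μ : Measure (GG n ℚ)} [μ.IsHaarMeasure] {F G : XX n N → ℂ} (hF : FCusp F) (hG : FCusp G) (h2F : FL2 μ F) (h2G : FL2 μ G)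
    {D : Set (XX n N)} (hD : SF (⊤ : Subgroup (ZG n)) D) {a a' : Set (HH n N) → ℂ}
    (ha : ∀ S, BS (GH n N) S → TS (GH n N) S F = fun x => a S * F x) (ha' : ∀ S, BS (GH n N) S → TS (GH n N) S G = fun x => a' S * G x)
    {S : Set (HH n N)} (hS : BS (GH n N) S) :
    star (a S) * ∫ x in D, star (F x) * G x ∂xm N μ = a' {h | h⁻¹ ∈ S} * ∫ x in D, star (F x) * G x ∂xm N μ := by
  have h1 := ts_adj (μ := xm N μ) hS (sf_gh.1 hD) (finv_meas hF.toFInv) (finv_meas hG.toFInv) (inv_gh.1 hF.inv) (inv_gh.1 hG.inv)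
    ((fl2_iff μ hF.toFInv hD).1 h2F) ((fl2_iff μ hG.toFInv hD).1 h2G)
  rw [ha S hS, ha' _ (bs_inv hS)] at h1
  have e1 : (fun x => star (a S * F x) * G x) = fun x => star (a S) * (star (F x) * G x) := by
    funext x
    rw [star_mul', mul_assoc]
  have e2 : (fun x => star (F x) * (a' {h | h⁻¹ ∈ S} * G x)) = fun x => a' {h | h⁻¹ ∈ S} * (star (F x) * G x) := by
    funext x
    ring
  have e3 : ∫ x in D, star (a S * F x) * G x ∂xm N μ = star (a S) * ∫ x in D, star (F x) * G x ∂xm N μ := by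
    rw [e1, integral_const_mul]
  have e4 : ∫ x in D, star (F x) * (a' {h | h⁻¹ ∈ S} * G x) ∂xm N μ = a' {h | h⁻¹ ∈ S} * ∫ x in D, star (F x) * G x ∂xm N μ := by
    rw [e2, integral_const_mul]
  rw [← e3, ← e4]
  exact h1

theorem b4_self [NeZero N] {μ : Measure (GG n ℚ)} [μ.IsHaarMeasure] {F : XX n N → ℂ} (hF : FCusp F) (h2F : FL2 μ F) (h0 : F ≠ 0)
    {D : Set (XX n N)} (hD : SF (⊤ : Subgroup (ZG n)) D) {a : Set (HH n N) → ℂ}
    (ha : ∀ S, BS (GH n N) S → TS (GH n N) S F = fun x => a S * F x)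
    {S : Set (HH n N)} (hS : BS (GH n N) S) : star (a S) = a {h | h⁻¹ ∈ S} := by
  have h1 := b4_adj hF hF h2F h2F hD ha ha hS
  have h2 := eb_pos μ hF.toFInv h2F hD h0
  refine mul_right_cancel₀ (fun h => ?_) h1
  rw [h, Complex.zero_re] at h2
  exact lt_irrefl _ h2

/-- PROOF. `ts_adj` (`H33N.HA3`; `sf_gh`, `finv_meas`, `inv_gh`, `fl2_iff` as in `eb_sub`, `H33N.BM4`) for `F`, `F`: `conj (a S) ∫ |F|² = a S⁻¹ ∫ |F|²`, `S⁻¹ = {h | h⁻¹ ∈ S}` (`bs_inv`), so `a S⁻¹ = conj (a S)` if `F ≠ 0` (`eb_pos`), the same for `G`, `a'`. For `F`, `G`: `conj (a S) ∫ conj F G = a' S⁻¹ ∫ conj F G = conj (a' S) ∫ conj F G`.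
If `F = 0` or `G = 0` the integral is `0`. -/
theorem sys_orth [NeZero N] {μ : Measure (GG n ℚ)} [μ.IsHaarMeasure] {F G : XX n N → ℂ} (hF : FCusp F) (hG : FCusp G) (h2F : FL2 μ F) (h2G : FL2 μ G)
    {D : Set (XX n N)} (hD : SF (⊤ : Subgroup (ZG n)) D) {a a' : Set (HH n N) → ℂ}
    (ha : ∀ S, BS (GH n N) S → TS (GH n N) S F = fun x => a S * F x) (ha' : ∀ S, BS (GH n N) S → TS (GH n N) S G = fun x => a' S * G x)
    {S : Set (HH n N)} (hS : BS (GH n N) S) (hne : a S ≠ a' S) : ∫ x in D, star (F x) * G x ∂xm N μ = 0 := by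
  by_cases hG0 : G = 0
  · subst hG0
    simp
  · have h1 := b4_adj hF hG h2F h2G hD ha ha' hS
    rw [← b4_self hG h2G hG0 hD ha' hS] at h1
    by_contra hI
    exact hne (star_injective (mul_right_cancel₀ hI h1))

end

end Pool.Agent.Lib.H85P
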