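import Pool.Agent.Lib.H85P.SD
import Pool.Agent.Lib.H33N.BM4
import Pool.Agent.Lib.H33N.S2

/-!
# H85P, B5: the trivial bound for the Hecke eigenvalues
-/

namespace Pool.Agent.Lib.H85P

open MeasureTheory Matrix NumberField IsDedekindDomain
open Pool.Agent.Lib.H89N Pool.Agent.Lib.H33W Pool.Agent.Lib.H33N
open scoped ENNReal

noncomputable section

variable {n N : ℕ}

theorem b5_cs (hn : 0 < n) {r : ℕ} (hr : 0 < r) {e : Fin n → ℕ} (he : e ∈ facs n r) : (Cs e).card ≤ r ^ (n - 1) := by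
  have hpos := fun i => (hs2_facs_pos hr he i).1
  rw [Cs, Fintype.card_piFinset]
  simp only [Finset.card_range]
  have h3 : ∏ p ∈ (Finset.univ : Finset (Fin n × Fin n)).filter (fun p => p.1 < p.2), e p.2 = ∏ p : UI n, e p.1.2 :=
    Finset.prod_subtype _ (fun x => by rw [Finset.mem_filter]; exact and_iff_right (Finset.mem_univ x))
      (fun p : Fin n × Fin n => e p.2)
  rw [← h3]
  have h4 : (Finset.univ : Finset (Fin n × Fin n)).filter (fun p => p.1 < p.2) ⊆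
      (Finset.univ.erase (⟨n - 1, by omega⟩ : Fin n)) ×ˢ (Finset.univ : Finset (Fin n)) := by
    intro p hp
    rw [Finset.mem_filter] at hp
    rw [Finset.mem_product, Finset.mem_erase]
    refine ⟨⟨fun h => ?_, Finset.mem_univ _⟩, Finset.mem_univ _⟩
    have h5 := hp.2
    rw [h, Fin.lt_def] at h5
    have h6 := p.2.isLt
    simp only at h5
    omega
  refine (Finset.prod_le_prod_of_subset_of_one_le' h4 fun p _ _ => hpos p.2).trans ?_
  rw [Finset.prod_product]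
  simp only [hs2_facs he]
  rw [Finset.prod_const, Finset.card_erase_of_mem (Finset.mem_univ _), Finset.card_univ, Fintype.card_fin]

theorem b5_facs (n : ℕ) {q : ℕ} (hq : q.Prime) (k : ℕ) : (facs n (q ^ k)).card ≤ (k + 1) ^ n := by
  rw [facs]
  refine (Finset.card_filter_le _ _).trans ?_
  rw [Fintype.card_piFinset, Finset.prod_const, Finset.card_univ, Fintype.card_fin, Nat.divisors_prime_pow hq, Finset.card_map,
    Finset.card_range]

theorem b5_card (hn : 0 < n) {q : ℕ} (hq : q.Prime) (k : ℕ) : (hb4_P n (q ^ k)).card ≤ (k + 1) ^ n * q ^ ((n - 1) * k) := by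
  have hr : 0 < q ^ k := pow_pos hq.pos k
  unfold hb4_P
  rw [Finset.card_sigma]
  refine (Finset.sum_le_sum fun e he => b5_cs hn hr he).trans ?_
  rw [Finset.sum_const, smul_eq_mul, ← pow_mul, mul_comm k (n - 1)]
  exact Nat.mul_le_mul_right _ (b5_facs n hq k)

/-- PROOF. `hb4_repL`, `hb4_P = (facs n r).sigma Cs`: `#(Cs e) = ∏_l e_l ^ l ≤ ∏_l e_l ^ (n-1) = r ^ (n-1)` (`l ≤ n - 1`, `e_l ≥ 1`), and `facs n (q^k)` has at most `(k+1)^n` elements (each `e_l` divides `q^k`, so it is one of `k + 1` powers of `q`: `Nat.divisors_prime_pow`). For the right cosets apply `τ` (`tau_ex`), as in `sr_bs`/`bs_of`: `R.image τ`. -/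
theorem sr_card (hn : 0 < n) (hN : 0 < N) {q : ℕ} (hq : q.Prime) (hqN : q.Coprime N) (k : ℕ) :
    (∃ R : Finset (HH n N), RepL (GH n N) (SR n N (q ^ k)) R ∧ R.card ≤ (k + 1) ^ n * q ^ ((n - 1) * k)) ∧
      ∃ R' : Finset (HH n N), RepR (GH n N) (SR n N (q ^ k)) R' ∧ R'.card ≤ (k + 1) ^ n * q ^ ((n - 1) * k) := by
  classical
  have hr : 0 < q ^ k := pow_pos hq.pos k
  have hrN : (q ^ k).Coprime N := Nat.Coprime.pow_left k hqN
  obtain ⟨φ, hφ⟩ := hb4_phi n N hr hrN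
  have hR := hb4_repL hN hr hrN hφ
  have hcard : ((hb4_P n (q ^ k)).image φ).card ≤ (k + 1) ^ n * q ^ ((n - 1) * k) := Finset.card_image_le.trans (b5_card hn hq k)
  refine ⟨⟨_, hR, hcard⟩, ?_⟩
  obtain ⟨τ, t1, t2, t3, t4, -⟩ := tau_ex n N
  have tt : ∀ h, τ (τ h) = h := by
    intro h
    refine hh_ext ?_
    rw [t1, t1, Matrix.transpose_transpose]
  have tS : ∀ h, h ∈ SR n N (q ^ k) → τ h ∈ SR n N (q ^ k) := by
    rintro h ⟨b, hb, hd⟩
    refine ⟨bᵀ, ?_, ?_⟩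
    · rw [t1, hb, Matrix.transpose_map]
    · rw [Matrix.det_transpose, hd]
  have tone : τ 1 = 1 := by
    have e := t2 1 1
    rw [one_mul] at e
    exact (mul_eq_left.1 e.symm)
  have tinv : ∀ r, τ r⁻¹ = (τ r)⁻¹ := by
    intro r
    refine eq_inv_of_mul_eq_one_left ?_
    rw [← t2, mul_inv_cancel, tone]
  refine ⟨((hb4_P n (q ^ k)).image φ).image τ, ⟨?_, ?_, ?_⟩, Finset.card_image_le.trans hcard⟩
  · intro g hg
    obtain ⟨a, ha, rfl⟩ := Finset.mem_image.1 hg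
    exact tS a (hR.mem a ha)
  · intro h hh
    obtain ⟨a, ha, h4⟩ := hR.ex (τ h) (tS h hh)
    refine ⟨τ a, Finset.mem_image.2 ⟨a, ha, rfl⟩, ?_⟩
    have h5 := t4 _ h4
    rw [t2, tt, tinv] at h5
    exact h5
  · intro g hg g' hg' h
    obtain ⟨a, ha, rfl⟩ := Finset.mem_image.1 hg
    obtain ⟨a', ha', rfl⟩ := Finset.mem_image.1 hg'
    have h5 := t4 _ h
    rw [t2, tt, tinv, tt] at h5
    rw [hR.uniq a ha a' ha' h5]

/-- PROOF. As in `eb_L` (`H33N.BM4`) with `sr_card` in the place of `sr_bs`: `ts_norm`. -/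
theorem sr_norm [NeZero N] (hn : 0 < n) (μ : Measure (GG n ℚ)) [μ.IsHaarMeasure] {F : XX n N → ℂ} (hF : FInv F) (h2 : FL2 μ F) (h0 : F ≠ 0)
    {q : ℕ} (hq : q.Prime) (hqN : q.Coprime N) {a : Set (HH n N) → ℂ} (ha : ∀ S, BS (GH n N) S → TS (GH n N) S F = fun x => a S * F x) (k : ℕ) :
    ‖a (SR n N (q ^ k))‖ ≤ ((k : ℝ) + 1) ^ n * (q : ℝ) ^ ((n - 1) * k) := by
  have hN : 0 < N := Nat.pos_of_ne_zero (NeZero.ne N)
  have hr : 0 < q ^ k := pow_pos hq.pos k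
  have hrN : (q ^ k).Coprime N := Nat.Coprime.pow_left k hqN
  obtain ⟨D, hD⟩ := sf_xx n N
  have hS := (sr_bs (n := n) hn hN hr hrN).1
  obtain ⟨⟨R, hR, cR⟩, R', hR', cR'⟩ := sr_card (n := n) hn hN hq hqN k
  have h3 := ts_norm (μ := xm N μ) hS hR hR' (sf_gh.1 hD) (finv_meas hF) (inv_gh.1 hF.inv)
  rw [ha _ hS] at h3
  obtain ⟨L, hL⟩ : ∃ L, L = a (SR n N (q ^ k)) := ⟨_, rfl⟩
  rw [← hL] at h3 ⊢
  obtain ⟨B, hB⟩ : ∃ B, B = (k + 1) ^ n * q ^ ((n - 1) * k) := ⟨_, rfl⟩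
  rw [← hB] at cR cR'
  obtain ⟨I, hI⟩ : ∃ I, I = ∫⁻ x in D, ‖F x‖ₑ ^ 2 ∂xm N μ := ⟨_, rfl⟩
  have hI0 : I ≠ 0 := fun h => h0 (eb_zero μ hF hD (hI ▸ h))
  have hI1 : I ≠ ⊤ := by
    rw [hI]
    exact (ha3_lt ((fl2_iff μ hF hD).1 h2)).ne
  have e1 : ∫⁻ x in D, ‖L * F x‖ₑ ^ 2 ∂xm N μ = ‖L‖ₑ ^ 2 * I := by
    simp only [enorm_mul, mul_pow]
    rw [lintegral_const_mul _ ((finv_meas hF).enorm.pow_const 2), hI]
  have h4 : ‖L‖ₑ ^ 2 * I ≤ (R.card : ℝ≥0∞) * R'.card * I := by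
    rw [← e1, hI]
    exact h3
  have h5 : ‖L‖ₑ ^ 2 ≤ (R.card : ℝ≥0∞) * R'.card := (ENNReal.mul_le_mul_iff_left hI0 hI1).1 h4
  have h6 : (R.card : ℝ≥0∞) * R'.card ≤ (B : ℝ≥0∞) ^ 2 := by
    rw [sq]
    exact mul_le_mul' (by exact_mod_cast cR) (by exact_mod_cast cR')
  have h7 : ‖L‖ₑ ^ 2 ≤ (B : ℝ≥0∞) ^ 2 := h5.trans h6
  have h8 : ‖L‖ₑ ≤ (B : ℝ≥0∞) := (ENNReal.pow_le_pow_left_iff two_ne_zero).1 h7
  have h9 : ENNReal.ofReal ‖L‖ ≤ ENNReal.ofReal (B : ℝ) := by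
    rw [ofReal_norm_eq_enorm, ENNReal.ofReal_natCast]
    exact h8
  have h10 := (ENNReal.ofReal_le_ofReal_iff (by positivity)).1 h9
  rw [hB] at h10
  push_cast at h10
  exact h10

end

end Pool.Agent.Lib.H85P
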