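import Pool.Agent.Lib.H85P.B4

/-!
# H85P, B6: the orthonormal family
-/

namespace Pool.Agent.Lib.H85P

open MeasureTheory Matrix NumberField IsDedekindDomain
open Pool.Agent.Lib.H89N Pool.Agent.Lib.H85S Pool.Agent.Lib.H85N Pool.Agent.Lib.H33W Pool.Agent.Lib.H33N
open scoped ENNReal

noncomputable section

variable {n N : ℕ}

/-- PROOF. Compare `bk_family` (`H33N.KT7B`). `sat_to` for `F = lf N (f i)`, `κ = 1` (`lf_slc`, `mxk_lf`): `BS (SDg g)` for all `g ∈ HG` and the eigenvalues `θ i g = lamO q (α i) (SDg n N g)`, `g` in the type `{g // g ∈ HG (nI N) v}`, `S g = SDg n N g`. (If `m = 0` everything is trivial.)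
For the key `(l, θ)` let `W = PKs N μ C S l {θ}` (finite-dimensional: `pks_le`, `mxk_fd`); the `lf N (f i)`, `i` with `(lam i, θ i) = (l, θ)`, are linearly independent elements of `W` (`lf_li`, as in `bk_family`), so their number is at most `finrank W` and the fiber embeds into `Fin (finrank W)`: `e i` is the corresponding vector of `pks_basis`.
Orthonormality: for equal keys the indices are different iff `i ≠ j` (injectivity); for different `l` `mxk_orth`; for the same `l` and different `θ` `sys_orth`. -/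
theorem p_family [NeZero N] {μ : Measure (GG n ℚ)} [μ.IsHaarMeasure] {C : Submodule ℂ (KO n → ℂ)} [FiniteDimensional ℂ C] (hC : ∀ c ∈ C, Continuous c)
    (hn : 1 ≤ n) {v : HeightOneSpectrum (𝓞 ℚ)} (hv : ¬nI N ≤ v.asIdeal) {q : ℕ} (hqv : Ideal.absNorm v.asIdeal = q) (hq : q.Prime)
    {D : Set (XX n N)} (hD : SF (⊤ : Subgroup (ZG n)) D) {m : ℕ}
    {f : Fin m → GG n ℚ → ℂ} (hLI : LinearIndependent ℂ f) {lam : Fin m → ℝ} (hM : ∀ i, MaassK C (nI N) μ (lam i) (f i)) {α : Fin m → Fin n → ℂ}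
    (hα : ∀ i, SatakeF (nI N) v (f i) (α i)) :
    ∃ (e : Fin m → XX n N → ℂ) (a : Fin m → Set (HH n N) → ℂ),
      (∀ j, e j ∈ MXk N μ C (lam j)) ∧ (∀ i j, ∫ x in D, star (e i x) * e j x ∂xm N μ = if i = j then 1 else 0) ∧
      (∀ j S, BS (GH n N) S → TS (GH n N) S (e j) = fun x => a j S * e j x) ∧
      ∀ j, ∀ g ∈ HG (nI N) v, BS (GH n N) (SDg n N g) ∧ a j (SDg n N g) = lamO q (α j) (SDg n N g) := by
  classical
  have hN : 0 < N := Nat.pos_of_ne_zero (NeZero.ne N)
  rcases Nat.eq_zero_or_pos m with hm | hm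
  · subst hm
    exact ⟨Fin.elim0, Fin.elim0, fun j => j.elim0, fun j => j.elim0, fun j => j.elim0, fun j => j.elim0⟩
  have hinv : ∀ i, ∀ γ ∈ Gamma n (nI N), ∀ x, f i (emb γ * x) = f i x := fun i => (hM i).cusp.inv
  have hFinv : ∀ i, FInv (lf N (f i)) := fun i => (mxk_lf (hM i)).1.toFInv
  have hH : ∀ i, ∀ g ∈ HG (nI N) v, BS (GH n N) (SDg n N g) ∧ ∀ x, TS (GH n N) (SDg n N g) (lf N (f i)) x = lamO q (α i) (SDg n N g) * lf N (f i) x := by
    intro i
    have h1 : SatakeF (nI N) v (slc (1 : KG n N) (lf N (f i))) (α i) := by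
      rw [lf_slc hN (hinv i)]
      exact hα i
    exact sat_to (by omega) hN hv hqv hq (hFinv i) h1
  obtain ⟨S, hS⟩ : ∃ S : {g : SLK n ℚ // g ∈ HG (nI N) v} → Set (HH n N), S = fun g => SDg n N g.1 := ⟨_, rfl⟩
  have hB : ∀ g, BS (GH n N) (S g) := by
    intro g
    rw [hS]
    exact (hH ⟨0, hm⟩ g.1 g.2).1
  obtain ⟨θ, hθ⟩ : ∃ θ : Fin m → {g : SLK n ℚ // g ∈ HG (nI N) v} → ℂ, θ = fun i g => lamO q (α i) (SDg n N g.1) := ⟨_, rfl⟩
  obtain ⟨key, hkey⟩ : ∃ key : Fin m → ℝ × ({g : SLK n ℚ // g ∈ HG (nI N) v} → ℂ), key = fun i => (lam i, θ i) := ⟨_, rfl⟩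
  have hmem : ∀ i, ∀ k, key i = k → lf N (f i) ∈ PKs N μ C S k.1 {k.2} := by
    rintro i _ rfl
    refine Submodule.subset_span ⟨?_, (key i).2, rfl, fun g => ?_⟩
    · rw [hkey]
      exact mxk_lf (hM i)
    · funext x
      rw [hS, hkey, hθ]
      exact (hH i g.1 g.2).2 x
  have hbas := fun k : ℝ × ({g : SLK n ℚ // g ∈ HG (nI N) v} → ℂ) =>
    pks_basis (N := N) (μ := μ) (C := C) (S := S) (l := k.1) (Θ := {k.2}) hC (by omega : 0 < n) hB hD
  choose e a he1 he2 he3 he4 using hbas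
  have hφ : ∀ k, ∃ φ : {i // key i = k} → Fin (Module.finrank ℂ (PKs N μ C S k.1 {k.2})), Function.Injective φ := by
    intro k
    haveI := mxk_fd (N := N) hn μ C hC k.1
    haveI : FiniteDimensional ℂ (PKs (n := n) N μ C S k.1 {k.2}) :=
      Submodule.finiteDimensional_of_le (pks_le (μ := μ) (S := S) (l := k.1) (Θ := {k.2}))
    have h4 : LinearIndependent ℂ fun i : {i // key i = k} =>
        (⟨lf N (f i.1), hmem i.1 k i.2⟩ : PKs (n := n) N μ C S k.1 {k.2}) := by
      have h5 : LinearIndependent ℂ fun i : {i // key i = k} => lf N (f i.1) := by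
        refine lf_li hN (f := fun i : {i // key i = k} => f i.1) (fun i => hinv i.1) ?_
        exact hLI.comp _ Subtype.val_injective
      exact LinearIndependent.of_comp (PKs (n := n) N μ C S k.1 {k.2}).subtype h5
    have h6 := h4.fintype_card_le_finrank
    obtain ⟨ψ⟩ := Function.Embedding.nonempty_of_card_le (α := {i // key i = k})
      (β := Fin (Module.finrank ℂ (PKs (n := n) N μ C S k.1 {k.2}))) (by rw [Fintype.card_fin]; exact h6)
    exact ⟨ψ, ψ.injective⟩
  choose φ hφ using hφ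
  have htr : ∀ i k (h : key i = k), e (key i) (φ (key i) ⟨i, rfl⟩) = e k (φ k ⟨i, h⟩) := by
    rintro i _ rfl
    rfl
  have hval : ∀ i, ∀ g ∈ HG (nI N) v, a (key i) (φ (key i) ⟨i, rfl⟩) (SDg n N g) = lamO q (α i) (SDg n N g) := by
    intro i g hg
    have h1 := he4 (key i) (φ (key i) ⟨i, rfl⟩)
    rw [Set.mem_singleton_iff] at h1
    have h2 := congrFun h1 ⟨g, hg⟩
    have h3 : (key i).2 ⟨g, hg⟩ = lamO q (α i) (SDg n N g) := by
      rw [hkey, hθ]
    rw [← h3, ← h2, hS]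
  have hmx : ∀ i, e (key i) (φ (key i) ⟨i, rfl⟩) ∈ MXk N μ C (lam i) := by
    intro i
    have h1 := pks_le (he1 (key i) (φ (key i) ⟨i, rfl⟩))
    have h2 : (key i).1 = lam i := by rw [hkey]
    rw [← h2]
    exact h1
  refine ⟨fun i => e (key i) (φ (key i) ⟨i, rfl⟩), fun i => a (key i) (φ (key i) ⟨i, rfl⟩), hmx, fun i j => ?_,
    fun i S' hS' => he3 (key i) _ S' hS', fun i g hg => ⟨(hH i g hg).1, hval i g hg⟩⟩
  by_cases hk : key j = key i
  · have h1 := htr j (key i) hk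
    show ∫ x in D, star (e (key i) (φ (key i) ⟨i, rfl⟩) x) * e (key j) (φ (key j) ⟨j, rfl⟩) x ∂xm N μ = _
    rw [h1, he2 (key i)]
    by_cases hij : i = j
    · subst hij
      rw [if_pos rfl, if_pos rfl]
    · rw [if_neg hij, if_neg]
      intro h2
      exact hij (congrArg Subtype.val (hφ _ h2))
  · have hij : i ≠ j := fun h => hk (by rw [h])
    rw [if_neg hij]
    by_cases hl : lam i = lam j
    · have hθne : ∃ g : {g : SLK n ℚ // g ∈ HG (nI N) v}, θ i g ≠ θ j g := by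
        by_contra hcon
        push Not at hcon
        refine hk ?_
        have h3 : θ i = θ j := funext hcon
        rw [hkey]
        show (lam j, θ j) = (lam i, θ i)
        rw [h3, hl]
      obtain ⟨g, hg⟩ := hθne
      refine sys_orth (hmx i).1 (hmx j).1 (hmx i).2.1 (hmx j).2.1 hD (fun S' hS' => he3 (key i) _ S' hS') (fun S' hS' => he3 (key j) _ S' hS')
        (hH i g.1 g.2).1 ?_
      rw [hval i g.1 g.2, hval j g.1 g.2]
      rw [hθ] at hg
      exact hg
    · exact mxk_orth hn hl (hmx i) (hmx j) hD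

end

end Pool.Agent.Lib.H85P
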