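import Pool.Agent.Lib.H85P.ED
import Pool.Agent.Lib.H33N.E6

/-!
# H85P, E1: the bound of `MXl`
-/

namespace Pool.Agent.Lib.H85P

open Pool.Agent.Lib.H33N

noncomputable section

/-- PROOF. As `e6_M` (`H33N.E6`): with `x_j = max 1 (T / 2^(t j)) ≥ 1`, `P i = ∏_(j<i) x_j` (`e6_P`), `uu t i ≤ T^(-i) P i` (`e6_uu`). For `i < k`: `l_i uu t i / N ≤ l_i T^(-i) P i / N ≤ P i` (`Bnd`), so `max 1 (..) ≤ P i`; and the last term is at most `l_k l_(k-1) T^(-(2k-1)) N^(-2) P k P (k-1) ≤ P k P (k-1)`. So the bracket is at most `2 P k P (k-1)`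
(for `k = 1`: `P 0 = 1`, `uu t 0 = 1`) and the product is at most `2 ∏_(1 ≤ i ≤ k-2) P i * P (k-1) * P k ≤ 2 PM T t` by the count of the exponents in `e6_M` (`e6_comm`, `e6_card`). -/
theorem mxl_le {k : ℕ} (hk : 1 ≤ k) {N : ℕ} (hN : 1 ≤ N) {T : ℝ} (hT : 1 ≤ T) (t : Fin k → ℤ) {l : Fin (k + 1) → ℕ} (hl : Bnd k N T l) :
    MXl N t l ≤ 2 * PM T t := by
  have hN1 : (1 : ℝ) ≤ N := by exact_mod_cast hN
  have hN0 : (0 : ℝ) < N := by linarith
  have hT0 : 0 < T := by linarith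
  have hm : ∀ j : Fin (k + 1), (j : ℕ) < k → max 1 (l j * uu t j / N) ≤ e6_P T t j := by
    intro j hj
    refine max_le (e6_P1 T t j) ?_
    rw [div_le_iff₀ hN0]
    calc (l j : ℝ) * uu t j ≤ (N * T ^ (j : ℕ)) * ((T⁻¹) ^ (j : ℕ) * e6_P T t j) :=
          mul_le_mul (hl.1 j hj) (e6_uu hT t j) (e6_upos t j).le (by positivity)
      _ = e6_P T t j * N := by
          rw [inv_pow]
          field_simp
  have hk1 : k - 1 < k + 1 := by omega
  have h1 : ∏ i ∈ Finset.univ.filter (fun i : Fin (k + 1) => 1 ≤ (i : ℕ) ∧ (i : ℕ) + 1 < k), max 1 (l i * uu t i / N) ≤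
      ∏ i ∈ Finset.univ.filter (fun i : Fin (k + 1) => 1 ≤ (i : ℕ) ∧ (i : ℕ) + 1 < k), e6_P T t i := by
    refine Finset.prod_le_prod (fun j _ => by positivity) (fun j hj => hm j ?_)
    have := (Finset.mem_filter.1 hj).2
    omega
  have ha := e6_P1 T t (Fin.last k)
  have hb := e6_P1 T t ⟨k - 1, hk1⟩
  have hua := e6_uu hT t (Fin.last k)
  have hub := e6_uu hT t ⟨k - 1, hk1⟩
  have hpa := e6_upos t (Fin.last k)
  have hpb := e6_upos t ⟨k - 1, hk1⟩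
  have h2 : max 1 (l ⟨k - 1, hk1⟩ * uu t ⟨k - 1, hk1⟩ / N) +
      (l (Fin.last k) * uu t (Fin.last k)) * (l ⟨k - 1, hk1⟩ * uu t ⟨k - 1, hk1⟩) / (N : ℝ) ^ 2 ≤
      2 * (e6_P T t (Fin.last k) * e6_P T t ⟨k - 1, hk1⟩) := by
    have h3 : max 1 (l ⟨k - 1, hk1⟩ * uu t ⟨k - 1, hk1⟩ / N) ≤ e6_P T t (Fin.last k) * e6_P T t ⟨k - 1, hk1⟩ := by
      refine (hm _ (by simp only; omega)).trans ?_
      nlinarith
    have h4 : uu t (Fin.last k) * uu t ⟨k - 1, hk1⟩ ≤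
        ((T⁻¹) ^ k * e6_P T t (Fin.last k)) * ((T⁻¹) ^ (k - 1) * e6_P T t ⟨k - 1, hk1⟩) :=
      mul_le_mul hua hub hpb.le (by positivity)
    have h5 : (T⁻¹) ^ k * (T⁻¹) ^ (k - 1) = (T ^ (2 * k - 1))⁻¹ := by
      rw [← pow_add, inv_pow]
      congr 2
      omega
    have h6 : (l (Fin.last k) * uu t (Fin.last k)) * (l ⟨k - 1, hk1⟩ * uu t ⟨k - 1, hk1⟩) / (N : ℝ) ^ 2 ≤
        e6_P T t (Fin.last k) * e6_P T t ⟨k - 1, hk1⟩ := by
      calc (l (Fin.last k) * uu t (Fin.last k)) * (l ⟨k - 1, hk1⟩ * uu t ⟨k - 1, hk1⟩) / (N : ℝ) ^ 2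
          = ((l (Fin.last k) : ℝ) * l ⟨k - 1, hk1⟩) * (uu t (Fin.last k) * uu t ⟨k - 1, hk1⟩) / (N : ℝ) ^ 2 := by ring
        _ ≤ ((N : ℝ) ^ 2 * T ^ (2 * k - 1)) * (((T⁻¹) ^ k * e6_P T t (Fin.last k)) * ((T⁻¹) ^ (k - 1) * e6_P T t ⟨k - 1, hk1⟩)) / (N : ℝ) ^ 2 := by
            refine div_le_div_of_nonneg_right ?_ (by positivity)
            exact mul_le_mul hl.2 h4 (by positivity) (by positivity)
        _ = (T ^ (2 * k - 1) * ((T⁻¹) ^ k * (T⁻¹) ^ (k - 1))) * (e6_P T t (Fin.last k) * e6_P T t ⟨k - 1, hk1⟩) := by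
            field_simp
        _ = _ := by
            rw [h5, mul_inv_cancel₀ (by positivity), one_mul]
    linarith
  have h7 : (∏ i ∈ Finset.univ.filter (fun i : Fin (k + 1) => 1 ≤ (i : ℕ) ∧ (i : ℕ) + 1 < k), e6_P T t i) *
      (e6_P T t (Fin.last k) * e6_P T t ⟨k - 1, hk1⟩) ≤ PM T t := by
    unfold e6_P PM
    rw [e6_comm, Finset.prod_filter, Finset.prod_filter, ← Finset.prod_mul_distrib, ← Finset.prod_mul_distrib]
    refine Finset.prod_le_prod (fun l _ => ?_) (fun l _ => ?_)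
    · split_ifs <;> positivity
    · have hx : 1 ≤ max 1 (T / (2 : ℝ) ^ t l) := le_max_left _ _
      have hcc := e6_card ((Finset.univ.filter (fun i : Fin (k + 1) => 1 ≤ (i : ℕ) ∧ (i : ℕ) + 1 < k)).filter
        (fun j : Fin (k + 1) => (l : ℕ) < (j : ℕ))) (Finset.Ioo l (k - 1)) (fun j hj => by
          rw [Finset.mem_filter, Finset.mem_filter] at hj
          rw [Finset.mem_Ioo]
          omega)
      rw [Nat.card_Ioo] at hcc
      have hl := l.2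
      have hl1 : (l : ℕ) < (Fin.last k : ℕ) := hl
      rw [if_pos hl1]
      by_cases hlk : (l : ℕ) < ((⟨k - 1, hk1⟩ : Fin (k + 1)) : ℕ)
      · rw [if_pos hlk]
        have hlk' : (l : ℕ) < k - 1 := hlk
        rw [← pow_two, ← pow_add]
        exact pow_le_pow_right₀ hx (by omega)
      · rw [if_neg hlk]
        have hlk' : ¬ (l : ℕ) < k - 1 := hlk
        rw [mul_one, ← pow_succ]
        exact pow_le_pow_right₀ hx (by omega)
  calc MXl N t l = (∏ i ∈ Finset.univ.filter (fun i : Fin (k + 1) => 1 ≤ (i : ℕ) ∧ (i : ℕ) + 1 < k), max 1 (l i * uu t i / N)) *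
        (max 1 (l ⟨k - 1, hk1⟩ * uu t ⟨k - 1, hk1⟩ / N) +
          (l (Fin.last k) * uu t (Fin.last k)) * (l ⟨k - 1, hk1⟩ * uu t ⟨k - 1, hk1⟩) / (N : ℝ) ^ 2) := rfl
    _ ≤ (∏ i ∈ Finset.univ.filter (fun i : Fin (k + 1) => 1 ≤ (i : ℕ) ∧ (i : ℕ) + 1 < k), e6_P T t i) *
        (2 * (e6_P T t (Fin.last k) * e6_P T t ⟨k - 1, hk1⟩)) := by
        refine mul_le_mul h1 h2 (by positivity) ?_
        exact Finset.prod_nonneg fun j _ => by
          have := e6_P1 T t j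
          linarith
    _ = 2 * ((∏ i ∈ Finset.univ.filter (fun i : Fin (k + 1) => 1 ≤ (i : ℕ) ∧ (i : ℕ) + 1 < k), e6_P T t i) *
          (e6_P T t (Fin.last k) * e6_P T t ⟨k - 1, hk1⟩)) := by ring
    _ ≤ _ := by linarith

end

end Pool.Agent.Lib.H85P
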