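import Pool.Agent.Lib.H85P.ED
import Pool.Agent.Lib.H33N.E9

/-!
# H85P, E2: the polynomial bound for the Dirichlet series
-/

namespace Pool.Agent.Lib.H85P

open Pool.Agent.Lib.H33N

noncomputable section

open scoped ENNReal Classical

variable {k N : ℕ} {δ : ℝ} {c : ℕ} {B C1 C2 C3 : ℝ} {m : ℕ} {L : Fin m → ℕ → ℂ} {A : Fin m → (Fin (k + 1) → ℕ) → ℂ}
  {E : Fin m → ENNReal} {mass : Fin m → (Fin k → ℤ) → (Fin k → ℤ) → ENNReal}

/-- PROOF. `Fam` (`H33N.ED`) with `q = 2`, `ν = 0`, `H i j = 1`: `h0`, `hn` are clear, `far`: `(2^0)^(j+s) = 1 ≤ 2^k`. `m3` for `j`: the chain `l = 1` (`Ch1`), `wA (A i) 0 1 = 1` (`A 1 = 1`), and `MXl N t 1 = MX N t 1 ≤ MX N t (2^j)` (all `uu t i ≥ 0`). -/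
theorem fam_of (hδ : 0 < δ) (hC3 : 0 ≤ C3) (hF : FamP k N δ c B C1 C2 C3 m L A E mass) :
    Fam k N δ 2 0 c B C1 C2 C3 m L A (fun _ _ => 1) E mass := by
  refine ⟨hF.sys, hF.triv, hF.lo, hF.fin, fun _ => rfl, fun _ _ => zero_le_one, fun i j => ⟨0, Nat.succ_pos k, ?_⟩, hF.m1, hF.m2, ?_⟩
  · rw [Real.rpow_zero, one_pow, Real.sqrt_one, mul_one]
    exact one_le_pow₀ one_le_two
  · intro j d t hd
    have hch : Ch1 k N (1 : Fin (k + 1) → ℕ) :=
      ⟨⟨fun _ => Nat.one_pos, fun _ => Nat.coprime_one_left N, fun _ _ _ => dvd_rfl⟩, fun _ _ => rfl⟩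
    have h1 := hF.m3 1 d t hch hd
    refine le_trans (le_of_eq (Finset.sum_congr rfl fun i _ => ?_)) (h1.trans (ENNReal.ofReal_le_ofReal ?_))
    · congr 1
      unfold wA
      rw [(hF.sys i).one]
      simp
    · have h2 : MXl N t 1 ≤ MX N t (((2 : ℕ) : ℝ) ^ j) := by
        unfold MXl MX
        have hu : ∀ j : Fin (k + 1), 0 ≤ uu t j := fun j => Finset.prod_nonneg fun l _ => by positivity
        have ha := hu (Fin.last k)
        have hb := hu ⟨k - 1, by omega⟩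
        have hj : (1 : ℝ) ≤ ((2 : ℕ) : ℝ) ^ j := one_le_pow₀ (by norm_num)
        simp only [Pi.one_apply, Nat.cast_one, one_mul]
        refine mul_le_mul_of_nonneg_left (add_le_add le_rfl ?_) (Finset.prod_nonneg fun i _ => le_max_of_le_left zero_le_one)
        refine div_le_div_of_nonneg_right ?_ (by positivity)
        have h3 : 0 ≤ uu t (Fin.last k) * uu t ⟨k - 1, by omega⟩ := mul_nonneg ha hb
        nlinarith
      have h3 : 0 ≤ PX ((N : ℝ) / δ) d t := Finset.prod_nonneg fun l _ => le_min zero_le_one (by positivity)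
      exact mul_le_mul_of_nonneg_left h2 (by positivity)

end

end Pool.Agent.Lib.H85P
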