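import Pool.Agent.Lib.H85P.E1
import Pool.Agent.Lib.H85P.E2
import Pool.Agent.Lib.H33N.E10

/-!
# H85P, E3: the sum of the squares of the coefficients of a chain
-/

namespace Pool.Agent.Lib.H85P

open Pool.Agent.Lib.H33N

noncomputable section

open scoped ENNReal Classical

/-- PROOF. As `e10_top` (`H33N.E10`): `e9_top` for `fam_of` gives `DD (1 + e) ≤ C T^a`, `s_top` the bound `DD (1 + 5 e) ≤ C' T^(ε/3)`; `e7_top` with `H i = (wA (A i) 0 l).toReal` (`wA ≠ ⊤`, `ofReal (toReal) = wA`) and, in the place of `e9_m3`, `m3` for `l` with `mxl_le` (`T = N/δ ≥ 1`); `lo` and `e10_num`. -/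
theorem e10_P {k : ℕ} (hk : 1 ≤ k) {s0 C0 ε : ℝ} (hs : 3 ≤ s0) (hC0 : 1 ≤ C0) {c : ℕ} (hc : (k : ℝ) * s0 + 1 ≤ c) (hε : 0 < ε) (B C1 C2 C3 : ℝ)
    (hC1 : 1 ≤ C1) (hC2 : 1 ≤ C2) (hC3 : 1 ≤ C3) :
    ∃ C : ℝ, 1 ≤ C ∧ ∀ (N : ℕ) (δ : ℝ) (m : ℕ) (L : Fin m → ℕ → ℂ) (A : Fin m → (Fin (k + 1) → ℕ) → ℂ)
      (E : Fin m → ENNReal) (mass : Fin m → (Fin k → ℤ) → (Fin k → ℤ) → ENNReal), 1 ≤ N → 0 < δ → δ ≤ 1 →
      FamP k N δ c B C1 C2 C3 m L A E mass → (∀ i, DD (k + 1) N (A i) s0 ≤ ENNReal.ofReal C0) →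
      ∀ l : Fin (k + 1) → ℕ, Ch1 k N l → Bnd k N ((N : ℝ) / δ) l →
      ∑ i, wA (k + 1) (A i) 0 l ≤ ENNReal.ofReal (C * ((N : ℝ) ^ (k * (k + 2)) * δ⁻¹ ^ (k * (k + 3) / 2) * ((N : ℝ) / δ) ^ ε)) := by
  obtain ⟨e, he0, he1, he2⟩ := e10_eps hk hε
  have hs1 : 1 < s0 := by linarith
  obtain ⟨C, a, hC, ha, h9⟩ := e9_top hk hs1 hC0 hc he0 B C1 C2 C3 hC1 hC2 hC3
  have hη : 0 < ε / (3 * (a + 1)) := by positivity
  obtain ⟨C', hC', hst⟩ := s_top (n := k + 1) (by omega) he0 hη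
  have hc' : (k : ℝ) * (1 + 5 * e) + 1 ≤ c := by
    have hk0 : (0 : ℝ) ≤ k := by positivity
    nlinarith
  obtain ⟨C'', hC'', h7⟩ := e7_top (s := 1 + 5 * e) (by linarith) hc' (by positivity : 0 < ε / 3)
  have hC0' : 0 < C := by linarith
  have hZ1 : 1 ≤ C1 ^ (1 + 5 * e) := Real.one_le_rpow hC1 (by linarith)
  have hZ2 : 1 ≤ C ^ (ε / (3 * (a + 1))) := Real.one_le_rpow hC hη.le
  obtain ⟨Z, hZ⟩ : ∃ Z : ℝ, Z = C1 ^ (1 + 5 * e) * (C' * C ^ (ε / (3 * (a + 1)))) := ⟨_, rfl⟩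
  have hZ3 : 1 ≤ Z := by
    rw [hZ]
    exact one_le_mul_of_one_le_of_one_le hZ1 (one_le_mul_of_one_le_of_one_le hC' hZ2)
  refine ⟨4 * (Z * (2 * C3) * C''), ?_, ?_⟩
  · have h1 : 1 ≤ Z * (2 * C3) * C'' :=
      one_le_mul_of_one_le_of_one_le (one_le_mul_of_one_le_of_one_le hZ3 (by linarith)) hC''
    linarith
  · intro N δ m L A E mass hN hδ hδ1 hF hDD l hl hb
    have hN1 : (1 : ℝ) ≤ N := by exact_mod_cast hN
    have hT : 1 ≤ (N : ℝ) / δ := by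
      rw [le_div_iff₀ hδ]
      linarith
    have hT0 : 0 < (N : ℝ) / δ := by linarith
    -- the Dirichlet series at `1 + 5 e`
    have hD5 : ∀ i, DD (k + 1) N (A i) (1 + 5 * e) ≤
        ENNReal.ofReal (C' * C ^ (ε / (3 * (a + 1))) * ((N : ℝ) / δ) ^ (ε / 3)) := by
      intro i
      have h1 := hst N (L i) (A i) (hF.sys i) (C * ((N : ℝ) / δ) ^ a)
        (one_le_mul_of_one_le_of_one_le hC (Real.one_le_rpow hT ha))
        (h9 N δ 2 0 m L A (fun _ _ => 1) E mass hN hδ hδ1 (fam_of hδ (by linarith) hF) hDD i)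
      refine h1.trans (ENNReal.ofReal_le_ofReal ?_)
      rw [mul_assoc, Real.mul_rpow hC0'.le (by positivity), ← Real.rpow_mul hT0.le]
      refine mul_le_mul_of_nonneg_left (mul_le_mul_of_nonneg_left ?_ (by positivity)) (by linarith)
      refine Real.rpow_le_rpow_of_exponent_le hT ?_
      rw [mul_div_assoc', div_le_div_iff₀ (by positivity) (by norm_num)]
      nlinarith
    obtain ⟨H, hH⟩ : ∃ H : Fin m → ℝ, ∀ i, H i = (wA (k + 1) (A i) 0 l).toReal := ⟨_, fun _ => rfl⟩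
    have hH0 : ∀ i, 0 ≤ H i := fun i => by
      rw [hH]
      exact ENNReal.toReal_nonneg
    have hHw : ∀ i, ENNReal.ofReal (H i) = wA (k + 1) (A i) 0 l := fun i => by
      rw [hH]
      exact ENNReal.ofReal_toReal ENNReal.ofReal_ne_top
    have h10 := h7 N hN ((N : ℝ) / δ) hT m H E mass
      (ENNReal.ofReal (Z * ((N : ℝ) / δ) ^ (ε / 3)))
      (ENNReal.ofReal (2 * C3 * (N : ℝ) ^ (k * (k + 3) / 2) * δ⁻¹ ^ k)) (fun i => by
        refine (hF.m1 i (1 + 5 * e) (by linarith)).trans ?_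
        refine mul_le_mul' ?_ le_rfl
        refine (mul_le_mul' le_rfl (hD5 i)).trans ?_
        rw [← ENNReal.ofReal_mul (by positivity), hZ]
        refine ENNReal.ofReal_le_ofReal (le_of_eq ?_)
        ring) (fun d t hd => by
        have h1 := hF.m3 l d t hl hd
        simp only [hHw]
        refine h1.trans ?_
        rw [← ENNReal.ofReal_mul (by positivity)]
        refine ENNReal.ofReal_le_ofReal ?_
        have h2 := mxl_le hk hN hT t hb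
        have h3 := (e6_pos hT0 1 d t).2.1
        calc C3 * (N : ℝ) ^ (k * (k + 3) / 2) * δ⁻¹ ^ k * PX ((N : ℝ) / δ) d t ^ (2 * c) * MXl N t l
            ≤ C3 * (N : ℝ) ^ (k * (k + 3) / 2) * δ⁻¹ ^ k * PX ((N : ℝ) / δ) d t ^ (2 * c) * (2 * PM ((N : ℝ) / δ) t) :=
              mul_le_mul_of_nonneg_left h2 (by positivity)
          _ = _ := by ring)
    have h11 : ENNReal.ofReal ((1 / 4) * ∑ i, H i) ≤ ENNReal.ofReal (Z * (2 * C3) * C'' *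
        ((N : ℝ) ^ (k * (k + 2)) * δ⁻¹ ^ (k * (k + 3) / 2) * ((N : ℝ) / δ) ^ ε)) := by
      calc ENNReal.ofReal ((1 / 4) * ∑ i, H i) = ∑ i, ENNReal.ofReal (H i) * ENNReal.ofReal (1 / 4) := by
            rw [ENNReal.ofReal_mul (by norm_num), ENNReal.ofReal_sum_of_nonneg (fun i _ => hH0 i), Finset.mul_sum]
            exact Finset.sum_congr rfl fun i _ => mul_comm _ _
        _ ≤ ∑ i, ENNReal.ofReal (H i) * E i := Finset.sum_le_sum fun i _ => mul_le_mul' le_rfl (hF.lo i)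
        _ ≤ _ := h10
        _ = ENNReal.ofReal ((Z * ((N : ℝ) / δ) ^ (ε / 3)) * (2 * C3 * (N : ℝ) ^ (k * (k + 3) / 2) * δ⁻¹ ^ k) *
            (C'' * ((N : ℝ) / δ) ^ ((1 + 5 * e) * ((k : ℝ) * (k + 1) / 2)) * (N : ℝ) ^ (ε / 3))) := by
            rw [← ENNReal.ofReal_mul (by positivity), ← ENNReal.ofReal_mul (by positivity)]
        _ ≤ _ := ENNReal.ofReal_le_ofReal (e10_num hN hδ hδ1 hε he2 (by linarith) (by linarith) (by linarith))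
    rw [ENNReal.ofReal_le_ofReal_iff (by positivity)] at h11
    have h12 : ∑ i, wA (k + 1) (A i) 0 l = ENNReal.ofReal (∑ i, H i) := by
      rw [ENNReal.ofReal_sum_of_nonneg (fun i _ => hH0 i)]
      exact Finset.sum_congr rfl fun i _ => (hHw i).symm
    rw [h12]
    refine ENNReal.ofReal_le_ofReal ?_
    linarith

/-- PROOF. As `e_top` (`H33N.E11`): `s0`, `C0` from `s_triv`, `c` a natural number `≥ k s0 + 1`, `e10_P`. -/
theorem e_topP {k : ℕ} (hk : 1 ≤ k) (B : ℝ) (hB : 0 ≤ B) : ∃ c : ℕ, ∀ ε : ℝ, 0 < ε → ∀ C1 C2 C3 : ℝ, 1 ≤ C1 → 1 ≤ C2 → 1 ≤ C3 → ∃ C : ℝ, 1 ≤ C ∧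
    ∀ (N : ℕ) (δ : ℝ) (m : ℕ) (L : Fin m → ℕ → ℂ) (A : Fin m → (Fin (k + 1) → ℕ) → ℂ)
      (E : Fin m → ENNReal) (mass : Fin m → (Fin k → ℤ) → (Fin k → ℤ) → ENNReal), 1 ≤ N → 0 < δ → δ ≤ 1 →
      FamP k N δ c B C1 C2 C3 m L A E mass → ∀ l : Fin (k + 1) → ℕ, Ch1 k N l → Bnd k N ((N : ℝ) / δ) l →
      ∑ i, wA (k + 1) (A i) 0 l ≤ ENNReal.ofReal (C * ((N : ℝ) ^ (k * (k + 2)) * δ⁻¹ ^ (k * (k + 3) / 2) * ((N : ℝ) / δ) ^ ε)) := by
  obtain ⟨s0, C0, hs0, hC0, htriv⟩ := s_triv (n := k + 1) (by omega) B hB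
  refine ⟨⌈(k : ℝ) * s0 + 1⌉₊, ?_⟩
  intro ε hε C1 C2 C3 hC1 hC2 hC3
  obtain ⟨C, hC, h10⟩ := e10_P hk hs0 hC0 (Nat.le_ceil _) hε B C1 C2 C3 hC1 hC2 hC3
  refine ⟨C, hC, ?_⟩
  intro N δ m L A E mass hN hδ hδ1 hF l hl hb
  exact h10 N δ m L A E mass hN hδ hδ1 hF (fun i => htriv N (L i) (A i) (hF.sys i) (hF.triv i)) l hl hb

end

end Pool.Agent.Lib.H85P
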