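import Pool.Agent.Lib.H33N.ED
import Pool.Agent.Lib.H33N.WD2

/-!
# H85P, modules M and E: definitions
-/

namespace Pool.Agent.Lib.H85P

open Pool.Agent.Lib.H33N

noncomputable section

open scoped Classical

/-- `M(a, 1)` for the cell of the chain `l`: `MX` with `l_i u_i` in the place of `u_i`. -/
def MXl {k : ℕ} (N : ℕ) (t : Fin k → ℤ) (l : Fin (k + 1) → ℕ) : ℝ :=
  (∏ i ∈ Finset.univ.filter (fun i : Fin (k + 1) => 1 ≤ (i : ℕ) ∧ (i : ℕ) + 1 < k), max 1 (l i * uu t i / N)) *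
    (max 1 (l ⟨k - 1, by omega⟩ * uu t ⟨k - 1, by omega⟩ / N) +
      (l (Fin.last k) * uu t (Fin.last k)) * (l ⟨k - 1, by omega⟩ * uu t ⟨k - 1, by omega⟩) / (N : ℝ) ^ 2)

/-- The range of the chains. -/
def Bnd (k N : ℕ) (T : ℝ) (l : Fin (k + 1) → ℕ) : Prop :=
  (∀ i : Fin (k + 1), (i : ℕ) < k → (l i : ℝ) ≤ N * T ^ (i : ℕ)) ∧
    (l (Fin.last k) : ℝ) * l ⟨k - 1, by omega⟩ ≤ (N : ℝ) ^ 2 * T ^ (2 * k - 1)

/-- **The data at the end of the proof** (compare `H33N.Fam`): `m` forms with Hecke eigenvalues `L i r`, coefficients `A i`, `E i = ‖g_i‖²`, and the masses `mass i d t` of the Whittaker coefficient `W^d(g_i)` in the cell `t`. -/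
structure FamP (k N : ℕ) (δ : ℝ) (c : ℕ) (B C1 C2 C3 : ℝ) (m : ℕ) (L : Fin m → ℕ → ℂ) (A : Fin m → (Fin (k + 1) → ℕ) → ℂ)
    (E : Fin m → ENNReal) (mass : Fin m → (Fin k → ℤ) → (Fin k → ℤ) → ENNReal) : Prop where
  sys : ∀ i, Sys (k + 1) N (L i) (A i)
  triv : ∀ i r, 0 < r → r.Coprime N → ‖L i r‖ ≤ (r : ℝ) ^ B
  lo : ∀ i, ENNReal.ofReal (1 / 4) ≤ E i
  fin : ∀ i, E i ≠ ⊤
  m1 : ∀ i (s : ℝ), 1 < s → E i ≤ ENNReal.ofReal (C1 ^ s) * DD (k + 1) N (A i) s *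
    ∑' d : Fin k → ℤ, ∑' t : Fin k → ℤ, if (∀ j, IsD N (d j)) then ENNReal.ofReal (a0s s t) * mass i d t else 0
  m2 : ∀ i d t, (∀ j, IsD N (d j)) → ∀ b : Fin (k + 1) → ℕ,
    (∑' l : Fin (k + 1) → ℕ, if (IsCh (k + 1) N l ∧ ∀ i : Fin (k + 1), (i : ℕ) = 0 → l i = 1) ∧ InBox b l then wA (k + 1) (A i) 0 l else 0) *
      mass i d t ≤ ENNReal.ofReal (C2 * ∏ j ∈ Finset.univ.filter (fun j : Fin (k + 1) => (j : ℕ) ≠ 0), (1 + 2 ^ b j * uu t j)) * E i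
  m3 : ∀ (l : Fin (k + 1) → ℕ) (d t : Fin k → ℤ), Ch1 k N l → (∀ j, IsD N (d j)) → ∑ i, wA (k + 1) (A i) 0 l * mass i d t ≤
    ENNReal.ofReal (C3 * (N : ℝ) ^ (k * (k + 3) / 2) * δ⁻¹ ^ k * PX ((N : ℝ) / δ) d t ^ (2 * c) * MXl N t l)

end

end Pool.Agent.Lib.H85P
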