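import Pool.Agent.Lib.H85P.ED
import Pool.Agent.Lib.H85A.LD
import Pool.Agent.Lib.H33N.E6

/-!
# H85P, M4: the cells of a chain
-/

namespace Pool.Agent.Lib.H85P

open Pool.Agent.Lib.H33N Pool.Agent.Lib.H85A

noncomputable section

variable {k N : ℕ}

/-- PROOF. `md d l i = d_i (l_(i+1) / l_i)`, both factors are nonzero (`IsD`: `d_i ≠ 0`; `l_i ∣ l_(i+1)`, positive). -/
theorem md_nz {d : Fin k → ℤ} (hd : ∀ j, IsD N (d j)) {l : Fin (k + 1) → ℕ} (hl : Ch1 k N l) : Nz (md d l) := by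
  intro i
  have hi : ((i.castSucc : Fin (k + 1)) : ℕ) < k := i.2
  unfold md
  rw [dif_pos hi]
  refine mul_ne_zero (hd _).1 ?_
  have h1 : 0 < l i.castSucc := hl.1.1 _
  have h2 : 0 < l ⟨(i.castSucc : ℕ) + 1, by omega⟩ := hl.1.1 _
  have h3 : l i.castSucc ∣ l ⟨(i.castSucc : ℕ) + 1, by omega⟩ := by
    refine hl.1.2.2 _ _ ?_
    rw [Fin.le_def]
    show (i.castSucc : ℕ) ≤ (i.castSucc : ℕ) + 1
    omega
  have h4 : 0 < l ⟨(i.castSucc : ℕ) + 1, by omega⟩ / l i.castSucc := Nat.div_pos (Nat.le_of_dvd h2 h3) h1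
  exact_mod_cast h4.ne'

theorem uu_shift {b : Fin (k + 1) → ℕ} (hb0 : b 0 = 0) (t : Fin k → ℤ) (j : Fin (k + 1)) :
    uu (fun i : Fin k => t i + b i.castSucc - b i.succ) j = (2 : ℝ) ^ b j * uu t j := by
  obtain ⟨j, hj⟩ := j
  induction j with
  | zero =>
    have h1 : ∀ s : Fin k → ℤ, uu s ⟨0, hj⟩ = 1 := by
      intro s
      unfold uu
      rw [Finset.filter_false_of_mem (by intro i _; simp)]
      exact Finset.prod_empty
    rw [h1, h1]
    have : b ⟨0, hj⟩ = 0 := hb0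
    rw [this]
    simp
  | succ j ih =>
    have hj' : j < k := by omega
    have h1 : ∀ s : Fin k → ℤ, uu s ⟨j + 1, hj⟩ = ((2 : ℝ) ^ s ⟨j, hj'⟩)⁻¹ * uu s ⟨j, by omega⟩ := by
      intro s
      unfold uu
      have h2 : Finset.univ.filter (fun l : Fin k => (l : ℕ) < ((⟨j + 1, hj⟩ : Fin (k + 1)) : ℕ)) =
          insert ⟨j, hj'⟩ (Finset.univ.filter (fun l : Fin k => (l : ℕ) < ((⟨j, by omega⟩ : Fin (k + 1)) : ℕ))) := by
        ext l
        simp only [Finset.mem_filter, Finset.mem_univ, true_and, Finset.mem_insert, Fin.ext_iff]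
        omega
      rw [h2, Finset.prod_insert]
      simp
    rw [h1, h1, ih (by omega)]
    have h3 : b (⟨j, hj'⟩ : Fin k).castSucc = b ⟨j, by omega⟩ := rfl
    have h4 : b (⟨j, hj'⟩ : Fin k).succ = b ⟨j + 1, hj⟩ := rfl
    rw [h3, h4, zpow_sub₀ (by norm_num), zpow_add₀ (by norm_num), zpow_natCast, zpow_natCast]
    have h5 : (2 : ℝ) ^ b ⟨j, by omega⟩ ≠ 0 := by positivity
    have h6 : (2 : ℝ) ^ b ⟨j + 1, hj⟩ ≠ 0 := by positivity
    have h7 : (2 : ℝ) ^ t ⟨j, hj'⟩ ≠ 0 := by positivity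
    field_simp

theorem uu_nn (t : Fin k → ℤ) (j : Fin (k + 1)) : 0 ≤ uu t j := by
  unfold uu
  refine Finset.prod_nonneg fun i _ => ?_
  positivity

theorem box_zero {b l : Fin (k + 1) → ℕ} (hl : Ch1 k N l) (hb : InBox b l) : b 0 = 0 := by
  have h1 := (hb 0).1
  rw [hl.2 0 rfl] at h1
  by_contra h
  have h2 : 2 ^ 1 ≤ 2 ^ b 0 := Nat.pow_le_pow_right (by norm_num) (by omega)
  omega

theorem uu_le {b l : Fin (k + 1) → ℕ} (hl : Ch1 k N l) (hb : InBox b l) (t : Fin k → ℤ) (j : Fin (k + 1)) :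
    uu (fun i : Fin k => t i + b i.castSucc - b i.succ) j ≤ l j * uu t j := by
  rw [uu_shift (box_zero hl hb)]
  refine mul_le_mul_of_nonneg_right ?_ (uu_nn t j)
  exact_mod_cast (hb j).1

/-- PROOF. `uu t' j = ∏_(i < j) 2^(-t_i - b_i + b_(i+1)) = 2^(b_j - b_0) uu t j` (induction on `j`), `b_0 = 0` (`2^(b_0) ≤ l_0 = 1`), and `2^(b_j) ≤ l_j`. The expressions are monotone in the `u_j ≥ 0`. -/
theorem mxl_ge (hN : 0 < N) {b l : Fin (k + 1) → ℕ} (hl : Ch1 k N l) (hb : InBox b l) (t : Fin k → ℤ) :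
    MX N (fun i : Fin k => t i + b i.castSucc - b i.succ) 1 ≤ MXl N t l := by
  have hN' : (0 : ℝ) < N := by exact_mod_cast hN
  unfold MX MXl
  have h0 := fun j => uu_le hl hb t j
  have h1 := fun j : Fin (k + 1) => uu_nn (fun i : Fin k => t i + b i.castSucc - b i.succ) j
  have h2 : ∀ i : Fin (k + 1), max 1 (uu (fun i : Fin k => t i + b i.castSucc - b i.succ) i / N) ≤ max 1 (l i * uu t i / N) :=
    fun i => max_le_max (le_refl _) (div_le_div_of_nonneg_right (h0 i) hN'.le)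
  refine mul_le_mul ?_ ?_ ?_ ?_
  · refine Finset.prod_le_prod (fun i _ => ?_) fun i _ => h2 i
    exact zero_le_one.trans (le_max_left _ _)
  · refine add_le_add (h2 _) ?_
    rw [one_mul]
    refine div_le_div_of_nonneg_right ?_ (by positivity)
    exact mul_le_mul (h0 _) (h0 _) (h1 _) ((h1 _).trans (h0 _))
  · refine add_nonneg (zero_le_one.trans (le_max_left _ _)) ?_
    rw [one_mul]
    exact div_nonneg (mul_nonneg (h1 _) (h1 _)) (by positivity)
  · refine Finset.prod_nonneg fun i _ => ?_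
    exact zero_le_one.trans (le_max_left _ _)

/-- PROOF. Factor by factor: `|md d l i| = |d_i| l_(i+1) / l_i ≥ |d_i| 2^(b_(i+1)) / 2^(b_i + 1)`, so `2^(t'_i) |md d l i| ≥ 2^(t_i) |d_i| / 2`, and `min 1 (2 y) ≤ 2 min 1 y` for `y ≥ 0`. -/
theorem px_le {T : ℝ} (hT : 0 < T) {b l : Fin (k + 1) → ℕ} (hl : Ch1 k N l) (hb : InBox b l) {d : Fin k → ℤ} (hd : ∀ j, IsD N (d j)) (t : Fin k → ℤ) :
    PX T (fun i : Fin k => md d l i.castSucc) (fun i : Fin k => t i + b i.castSucc - b i.succ) ≤ 2 ^ k * PX T d t := by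
  unfold PX
  have h0 : (2 : ℝ) ^ k = ∏ _i : Fin k, (2 : ℝ) := by
    rw [Finset.prod_const, Finset.card_univ, Fintype.card_fin]
  rw [h0, ← Finset.prod_mul_distrib]
  refine Finset.prod_le_prod (fun i _ => ?_) fun i _ => ?_
  · refine le_min zero_le_one ?_
    refine div_nonneg hT.le (mul_nonneg ?_ (abs_nonneg _))
    positivity
  · have hi : ((i.castSucc : Fin (k + 1)) : ℕ) < k := i.2
    have hd0 : (0 : ℝ) < |(d i : ℝ)| := abs_pos.2 (by exact_mod_cast (hd i).1)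
    have hl1 : 0 < l i.castSucc := hl.1.1 _
    have hl2 : 0 < l i.succ := hl.1.1 _
    have hdv : l i.castSucc ∣ l i.succ := by
      refine hl.1.2.2 _ _ ?_
      rw [Fin.le_def]
      simp
    have hmd : |((md d l i.castSucc : ℤ) : ℝ)| = |(d i : ℝ)| * ((l i.succ : ℝ) / l i.castSucc) := by
      unfold md
      rw [dif_pos hi]
      have h5 : l ⟨(i.castSucc : ℕ) + 1, by omega⟩ = l i.succ := rfl
      have h6 : d ⟨(i.castSucc : ℕ), hi⟩ = d i := rfl
      have h16 : (((l i.succ / l i.castSucc : ℕ) : ℤ) : ℝ) = (l i.succ : ℝ) / l i.castSucc := by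
        rw [Int.cast_natCast, Nat.cast_div hdv (by exact_mod_cast hl1.ne')]
      rw [h5, h6, Int.cast_mul, h16, abs_mul]
      congr 1
      exact abs_of_nonneg (by positivity)
    rw [hmd]
    have hb1 : (l i.castSucc : ℝ) ≤ 2 * 2 ^ b i.castSucc := by
      have := (hb i.castSucc).2
      rw [pow_succ] at this
      have h7 : l i.castSucc ≤ 2 ^ b i.castSucc * 2 := this.le
      have h8 : (l i.castSucc : ℝ) ≤ 2 ^ b i.castSucc * 2 := by exact_mod_cast h7
      linarith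
    have hb2 : (2 : ℝ) ^ b i.succ ≤ l i.succ := by exact_mod_cast (hb i.succ).1
    have hl1' : (0 : ℝ) < l i.castSucc := by exact_mod_cast hl1
    have hl2' : (0 : ℝ) < l i.succ := by exact_mod_cast hl2
    have ht : (0 : ℝ) < 2 ^ t i := by positivity
    have hA : (0 : ℝ) < 2 ^ b i.castSucc := by positivity
    have hB : (0 : ℝ) < 2 ^ b i.succ := by positivity
    have key : (2 : ℝ) ^ t i * |(d i : ℝ)| / 2 ≤
        (2 : ℝ) ^ (t i + b i.castSucc - b i.succ) * (|(d i : ℝ)| * ((l i.succ : ℝ) / l i.castSucc)) := by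
      rw [zpow_sub₀ (by norm_num), zpow_add₀ (by norm_num), zpow_natCast, zpow_natCast]
      have h9 : (2 : ℝ) ^ t i * 2 ^ b i.castSucc / 2 ^ b i.succ * (|(d i : ℝ)| * ((l i.succ : ℝ) / l i.castSucc)) =
          (2 : ℝ) ^ t i * |(d i : ℝ)| * ((2 ^ b i.castSucc * l i.succ) / (2 ^ b i.succ * l i.castSucc)) := by
        field_simp
      rw [h9]
      have h10 : (1 : ℝ) / 2 ≤ (2 ^ b i.castSucc * l i.succ) / (2 ^ b i.succ * l i.castSucc) := by
        rw [le_div_iff₀ (by positivity)]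
        have h11 : (2 : ℝ) ^ b i.succ * l i.castSucc ≤ l i.succ * (2 * 2 ^ b i.castSucc) :=
          mul_le_mul hb2 hb1 hl1'.le hl2'.le
        linarith
      have h12 : (2 : ℝ) ^ t i * |(d i : ℝ)| / 2 = (2 : ℝ) ^ t i * |(d i : ℝ)| * (1 / 2) := by ring
      rw [h12]
      exact mul_le_mul_of_nonneg_left h10 (by positivity)
    have h13 : T / ((2 : ℝ) ^ (t i + b i.castSucc - b i.succ) * (|(d i : ℝ)| * ((l i.succ : ℝ) / l i.castSucc))) ≤
        2 * (T / ((2 : ℝ) ^ t i * |(d i : ℝ)|)) := by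
      have h14 : 2 * (T / ((2 : ℝ) ^ t i * |(d i : ℝ)|)) = T / ((2 : ℝ) ^ t i * |(d i : ℝ)| / 2) := by
        field_simp
      rw [h14]
      exact div_le_div_of_nonneg_left hT.le (by positivity) key
    have h15 : 0 ≤ T / ((2 : ℝ) ^ t i * |(d i : ℝ)|) := by positivity
    refine (min_le_min (le_refl 1) h13).trans ?_
    rcases le_total 1 (T / ((2 : ℝ) ^ t i * |(d i : ℝ)|)) with h | h
    · rw [min_eq_left h]
      exact (min_le_left _ _).trans (by norm_num)
    · rw [min_eq_right h]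
      exact min_le_right _ _

end

end Pool.Agent.Lib.H85P
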