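import Pool.Agent.Lib.H85P.M3
import Pool.Agent.Lib.H85P.M4
import Pool.Agent.Lib.H33N.FM

/-!
# H85P, M5: the bound of the masses, weighted by the coefficients of a chain
-/

namespace Pool.Agent.Lib.H85P

open MeasureTheory Matrix NumberField IsDedekindDomain
open Pool.Agent.Lib.H89N Pool.Agent.Lib.H85S Pool.Agent.Lib.H85N Pool.Agent.Lib.H33W Pool.Agent.Lib.H33N Pool.Agent.Lib.H85A
open scoped ENNReal

noncomputable section

theorem m5_mx {k N : ℕ} (t : Fin k → ℤ) : 0 ≤ MX N t 1 := by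
  unfold MX
  have h0 := w11b_uu t
  have h1 := h0 (Fin.last k)
  have h2 := h0 ⟨k - 1, by omega⟩
  refine mul_nonneg (Finset.prod_nonneg fun i _ => le_max_of_le_left zero_le_one) ?_
  have h3 : (0 : ℝ) ≤ max 1 (uu t ⟨k - 1, by omega⟩ / N) := le_max_of_le_left zero_le_one
  positivity

/-- PROOF. `Ω'` from `w11_box` (`H33N.W11A`) for `Ω`, `C` from `m3_all` for `Ω'`, times `2^(2 k c)`. If `Sg d` fails, `mW = 0`. Otherwise choose `b i = Nat.log 2 (l i)` (`InBox b l`, `Nat.pow_log_le_self`, `Nat.lt_pow_succ_log_self`). `w11b_term` (`H33N.W11B`) with `a = at' t`, `a' = abx b (at' t)` (`at_pos`, `abx_pos`):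
`wA 0 l * massW μ D' Ω (at' t) (md d 1) G_i ≤ massW μ D' Ω' (abx b (at' t)) (md d l) G_i`, `G_i = gfm μ ρ φ (k c) (f i)` (`FInv` by `lb_finv`, `rc_finv`). Sum over `i` and `m3_all` for the character `md d l` (`md_nz`), the torus element `abx b (at' t)` (`abx_prod`, `at_prod`, `abx_ratio`, `at_ratio`: ratios `2^(t_i + b_i - b_(i+1))`),
`Δ = UZ (k+1)` as in `fm_top` (`H33N.FM`). Then `mxl_ge` and `px_le`. -/
theorem m3_ch {k : ℕ} (hk : 1 ≤ k) (μ : Measure (GG (k + 1) ℚ)) [μ.IsHaarMeasure] {Ω Q : Set (GG (k + 1) ℚ)} (hΩ : IsCompact Ω)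
    (hQ : IsCompact Q) {C0 : ℝ} (hC0 : 0 ≤ C0) (Cm C1 : ℝ) (hC1 : 1 ≤ C1) (c : ℕ) : ∃ C : ℝ, 1 ≤ C ∧
    ∀ (N : ℕ) [NeZero N] (δ : ℝ), 0 < δ → δ ≤ 1 →
    ∀ (φ : GG (k + 1) ℚ → ℂ), Continuous φ → HasCompactSupport φ → (∀ z, φ z ≠ 0 → z ∈ Om (k + 1) (C0 * δ)) →
    (∫ z, ‖φ z‖ ^ 2 ∂μ) ≤ C1 * δ⁻¹ ^ (k * (k + 3) / 2) →
    ∀ (ρ : GG (k + 1) ℚ → ℝ), Mol μ Cm Q δ ρ → HasCompactSupport ρ →
    ∀ (D' : Set (GG (k + 1) ℚ)), SF (UZ (k + 1)) D' →
    ∀ (F : Set (GG (k + 1) ℚ)), IsFundamentalDomain (Gamma (k + 1) (nI N)) F μ →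
    ∀ (s : ℕ) (f : Fin s → XX (k + 1) N → ℂ) (A : Fin s → (Fin (k + 1) → ℕ) → ℂ), (∀ i, FInv (f i)) →
    (∀ i κ, MemLp (fun g => f i (κ, g)) 2 (μ.restrict F)) →
    (∀ κ i j, ∫ x in F, star (f i (κ, x)) * f j (κ, x) ∂μ = if i = j then 1 else 0) →
    (∀ i, ∀ d : Fin k → ℤ, (∀ j, IsD N (d j)) → ∀ x, ∀ l, IsCh (k + 1) N l →
      VV (gfm μ ρ φ (k * c) (f i)) d x l = A i l * WX (md d 1) (gfm μ ρ φ (k * c) (f i)) x) →
    ∀ (l : Fin (k + 1) → ℕ) (d t : Fin k → ℤ), Ch1 k N l → (∀ j, IsD N (d j)) →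
    ∑ i, wA (k + 1) (A i) 0 l * mW μ D' Ω (gfm μ ρ φ (k * c) (f i)) d t ≤
      ENNReal.ofReal (C * (N : ℝ) ^ (k * (k + 3) / 2) * δ⁻¹ ^ k * PX ((N : ℝ) / δ) d t ^ (2 * c) * MXl N t l) := by
  obtain ⟨Ω', hΩ', hbox⟩ := w11_box (Nat.succ_pos k) hΩ
  obtain ⟨C, hC, hM⟩ := m3_all hk μ hΩ' hQ hC0 Cm C1 hC1 c
  have h2k : (1 : ℝ) ≤ (2 ^ k) ^ (2 * c) := one_le_pow₀ (one_le_pow₀ one_le_two)
  refine ⟨C * (2 ^ k) ^ (2 * c), by nlinarith, ?_⟩
  intro N _ δ hδ0 hδ1 φ hφ hφc hsupp hφ2 ρ hρ hρc D' hD' F hF s f A hf hl2 hon hA l d t hl hd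
  have hN0 : 0 < N := Nat.pos_of_ne_zero (NeZero.ne N)
  by_cases hs : Sg d
  · have hlp : ∀ i, 0 < l i := hl.1.1
    set b : Fin (k + 1) → ℕ := fun i => Nat.log 2 (l i) with hb
    have hbl : InBox b l := fun i => ⟨Nat.pow_log_le_self 2 (hlp i).ne', Nat.lt_pow_succ_log_self one_lt_two (l i)⟩
    have h1 := hM N δ hδ0 hδ1 φ hφ hφc hsupp hφ2 ρ hρ (UZ (k + 1)) (fun γ hγ => ((w9_uz γ).1 hγ).1) ?_ D' hD' F hF s f hf hl2 hon
      (md d l) (md_nz hd hl) (abx b (at' t)) (abx_pos b (at_pos t)) (abx_prod (Nat.succ_pos k) b (at_prod t))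
      (fun i : Fin k => t i + b i.castSucc - b i.succ) ?_
    · have hG : ∀ i, FInv (gfm μ ρ φ (k * c) (f i)) := fun i => lb_finv μ hρ.cont hρc (rc_finv μ hφ hφc (hf i)) _
      refine (Finset.sum_le_sum fun i _ => ?_).trans (h1.trans ?_)
      · have e1 : mW μ D' Ω (gfm μ ρ φ (k * c) (f i)) d t = massW μ D' Ω (at' t) (md d 1) (gfm μ ρ φ (k * c) (f i)) := if_pos hs
        rw [e1]
        exact w11b_term μ (hG i) hD' hl.1 (fun x => hA i d hd x l hl.1) hΩ' (abx_pos b (at_pos t))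
          fun z hz => hbox b l hbl (at' t) z (at_pos t) hz
      · refine ENNReal.ofReal_le_ofReal ?_
        have hT : (0 : ℝ) < (N : ℝ) / δ := div_pos (by exact_mod_cast hN0) hδ0
        have hp := px_le hT hl hbl hd t
        have hm := mxl_ge hN0 hl hbl t
        have hp0 : 0 ≤ PX ((N : ℝ) / δ) (fun i : Fin k => md d l i.castSucc) (fun i : Fin k => t i + b i.castSucc - b i.succ) := by
          unfold PX
          positivity
        have hm0 : 0 ≤ MX N (fun i : Fin k => t i + b i.castSucc - b i.succ) 1 := m5_mx _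
        have hp1 : 0 ≤ PX ((N : ℝ) / δ) d t := by
          unfold PX
          positivity
        calc _ ≤ C * (N : ℝ) ^ (k * (k + 3) / 2) * δ⁻¹ ^ k * (2 ^ k * PX ((N : ℝ) / δ) d t) ^ (2 * c) * MXl N t l := by
              refine mul_le_mul (mul_le_mul_of_nonneg_left (pow_le_pow_left₀ hp0 hp _) (by positivity)) hm hm0 (by positivity)
          _ = _ := by rw [mul_pow]; ring
    · intro γ hγ
      refine (w9_uz γ).2 ⟨hγ.uu, fun a l => ?_⟩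
      rcases lt_trichotomy a l with h2 | h2 | h2
      · obtain ⟨y, -, hy⟩ := (hγ a l).2 h2
        obtain ⟨m, rfl⟩ := oq y
        exact ⟨m, by rw [hy, oq_coe]⟩
      · subst h2
        exact ⟨1, by rw [hγ.uu.diag]; norm_num⟩
      · exact ⟨0, by rw [hγ.uu.gt h2]; norm_num⟩
    · intro i
      rw [abx_ratio b (at_pos t), at_ratio, zpow_sub₀ two_ne_zero, zpow_add₀ two_ne_zero, zpow_natCast, zpow_natCast]
      ring
  · refine le_trans (le_of_eq (Finset.sum_eq_zero fun i _ => ?_)) bot_le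
    unfold mW
    rw [if_neg hs, mul_zero]

end

end Pool.Agent.Lib.H85P
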