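import Pool.Agent.Lib.H33N.W11B

/-!
# H85P, M6: the export of the module W with the coefficients
-/

namespace Pool.Agent.Lib.H85P

open MeasureTheory Matrix NumberField IsDedekindDomain
open Pool.Agent.Lib.H89N Pool.Agent.Lib.H33W Pool.Agent.Lib.H33N
open scoped ENNReal Classical

noncomputable section

/-- PROOF. The proof of `w_fam` (`H33N.W11B`), where the relation `hA` of `w8_top` is exported too. -/
theorem w_famP {k : ℕ} (hk : 1 ≤ k) : ∃ Ω : Set (GG (k + 1) ℚ), IsCompact Ω ∧ ∃ C : ℝ, 1 ≤ C ∧ ∀ (N : ℕ) [NeZero N] (μ : Measure (GG (k + 1) ℚ)) [μ.IsHaarMeasure]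
    (F : XX (k + 1) N → ℂ) (L : ℕ → ℂ), FCusp F → IsEig L F → (∃ x, F x ≠ 0) → ∀ (D : Set (XX (k + 1) N)) (D' : Set (GG (k + 1) ℚ)),
    SF (⊤ : Subgroup (ZG (k + 1))) D → SF (UZ (k + 1)) D' → ∃ A : (Fin (k + 1) → ℕ) → ℂ, Sys (k + 1) N L A ∧
      (∀ s : ℝ, 1 < s → nm2 μ D F ≤ ENNReal.ofReal (C ^ s) * DD (k + 1) N A s *
        ∑' d : Fin k → ℤ, ∑' t : Fin k → ℤ, if (∀ j, IsD N (d j)) then ENNReal.ofReal (a0s s t) * mW μ D' Ω F d t else 0) ∧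
      (∀ d t : Fin k → ℤ, (∀ j, IsD N (d j)) → ∀ b : Fin (k + 1) → ℕ,
        (∑' l : Fin (k + 1) → ℕ, if (IsCh (k + 1) N l ∧ ∀ i : Fin (k + 1), (i : ℕ) = 0 → l i = 1) ∧ InBox b l then wA (k + 1) A 0 l else 0) *
          mW μ D' Ω F d t ≤ ENNReal.ofReal (C * ∏ j ∈ Finset.univ.filter (fun j : Fin (k + 1) => (j : ℕ) ≠ 0), (1 + 2 ^ b j * uu t j)) * nm2 μ D F) ∧
      ∀ d : Fin k → ℤ, (∀ i, IsD N (d i)) → ∀ x, ∀ l, IsCh (k + 1) N l → VV F d x l = A l * WX (md d 1) F x := by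
  obtain ⟨Ω, hΩ, hcov⟩ := w10_cell k
  obtain ⟨C1, hC1, hnv⟩ := w10_nvS hΩ
  obtain ⟨C2, hC2, hm2⟩ := w_m2 hk hΩ
  refine ⟨Ω, hΩ, max (2 * C1) C2, hC2.trans (le_max_right _ _), fun N _ μ _ F L hF hL hne D D' hD hD' => ?_⟩
  obtain ⟨A, hsys, hA⟩ := w8_top hk μ hF hL hne
  refine ⟨A, hsys, fun s hs => ?_, fun d t hd b => ?_, hA⟩
  · refine (w_m1 hk μ hF hD hD' hΩ hcov hC1 hs (fun t z hz => hnv t z hz s (by linarith)) hA).trans ?_
    refine (le_of_eq ?_).trans (mul_le_mul_left (mul_le_mul_left (ENNReal.ofReal_le_ofReal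
      (Real.rpow_le_rpow (by positivity) (le_max_left (2 * C1) C2) (by linarith : (0:ℝ) ≤ s))) _) _)
    congr! 9
  · refine le_trans (le_of_eq ?_) ((hm2 N μ F hF D D' hD hD' A hA d t hd b).trans ?_)
    · congr! 4
    · refine mul_le_mul_left (ENNReal.ofReal_le_ofReal ?_) _
      refine mul_le_mul_of_nonneg_right (le_max_right _ _) (Finset.prod_nonneg fun j _ => ?_)
      have := w11b_uu t j
      positivity

end

end Pool.Agent.Lib.H85P
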