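import Pool.Agent.Lib.H85P.E3
import Pool.Agent.Lib.H85P.M5
import Pool.Agent.Lib.H85P.M6
import Pool.Agent.Lib.H33N.FM

/-!
# H85P, F1: a family of forms
-/

namespace Pool.Agent.Lib.H85P

open MeasureTheory Matrix NumberField IsDedekindDomain
open Pool.Agent.Lib.H89N Pool.Agent.Lib.H33W Pool.Agent.Lib.H85S Pool.Agent.Lib.H85N Pool.Agent.Lib.H33N
open scoped nonZeroDivisors ENNReal

noncomputable section

/-- PROOF. As `fm_top` (`H33N.FM`): `c` from `e_topP`, `Ω`, `Cw` from `w_famP`, `C3` from `m3_ch`, the structure `FamP` for `g_i = gfm μ ρ φ (k c) (f i)`, `E i = nm2 μ D g_i`, `mass i d t = mW μ D' Ω g_i d t`. -/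
theorem fmP_top {k : ℕ} (hk : 1 ≤ k) (B : ℝ) (hB : 0 ≤ B) : ∃ c : ℕ, ∀ (μ : Measure (GG (k + 1) ℚ)) [μ.IsHaarMeasure] {Q : Set (GG (k + 1) ℚ)},
    IsCompact Q → ∀ {C0 : ℝ}, 0 ≤ C0 → ∀ (Cm C1 : ℝ), 1 ≤ C1 → ∀ ε : ℝ, 0 < ε → ∃ C : ℝ, 1 ≤ C ∧
    ∀ (N : ℕ) [NeZero N] (δ : ℝ), 0 < δ → δ ≤ 1 →
    ∀ (φ : GG (k + 1) ℚ → ℂ), Continuous φ → HasCompactSupport φ → (∀ z, φ z ≠ 0 → z ∈ Om (k + 1) (C0 * δ)) →
    (∫ z, ‖φ z‖ ^ 2 ∂μ) ≤ C1 * δ⁻¹ ^ (k * (k + 3) / 2) →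
    ∀ (ρ : GG (k + 1) ℚ → ℝ), Mol μ Cm Q δ ρ → HasCompactSupport ρ →
    ∀ (F1 : Set (GG (k + 1) ℚ)), IsFundamentalDomain (Gamma (k + 1) (nI N)) F1 μ →
    ∀ (D : Set (XX (k + 1) N)), SF (⊤ : Subgroup (ZG (k + 1))) D →
    ∀ (s : ℕ) (f : Fin s → XX (k + 1) N → ℂ) (L : Fin s → ℕ → ℂ), (∀ i, FCusp (f i)) → (∀ i, FL2 μ (f i)) →
    (∀ κ i j, ∫ x in F1, star (f i (κ, x)) * f j (κ, x) ∂μ = if i = j then 1 else 0) → (∀ i, IsEig (L i) (f i)) →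
    (∀ i r, 0 < r → r.Coprime N → ‖L i r‖ ≤ (r : ℝ) ^ B) →
    (∀ i, ENNReal.ofReal (1 / 4) ≤ nm2 μ D (gfm μ ρ φ (k * c) (f i))) →
    ∃ A : Fin s → (Fin (k + 1) → ℕ) → ℂ, (∀ i, Sys (k + 1) N (L i) (A i)) ∧
      ∀ l : Fin (k + 1) → ℕ, Ch1 k N l → Bnd k N ((N : ℝ) / δ) l →
      ∑ i, wA (k + 1) (A i) 0 l ≤ ENNReal.ofReal (C * ((N : ℝ) ^ (k * (k + 2)) * δ⁻¹ ^ (k * (k + 3) / 2) * ((N : ℝ) / δ) ^ ε)) := by
  obtain ⟨c, hc⟩ := e_topP hk B hB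
  refine ⟨c, ?_⟩
  intro μ _ Q hQ C0 hC0 Cm C1 hC1 ε hε
  obtain ⟨Ω, hΩ, Cw, hCw, hw⟩ := w_famP hk
  obtain ⟨C3, hC3, hm3⟩ := m3_ch hk μ hΩ hQ hC0 Cm C1 hC1 c
  obtain ⟨C, hC, he⟩ := hc ε hε Cw Cw C3 hCw hCw hC3
  refine ⟨C, hC, ?_⟩
  intro N _ δ hδ0 hδ1 φ hφ hφc hsupp hφ2 ρ hρ hρc F1 hF1 D hD s f L hf hfL hon hE hLb hlo
  obtain ⟨D', hD'⟩ := t3_ex (Gs (k + 1) (k + 1))
  have hN0 : 0 < N := Nat.pos_of_ne_zero (NeZero.ne N)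
  have hne : ∀ i, ∃ x, gfm μ ρ φ (k * c) (f i) x ≠ 0 := by
    intro i
    by_contra h
    push Not at h
    have h1 := hlo i
    have h2 : nm2 μ D (gfm μ ρ φ (k * c) (f i)) = 0 := by
      unfold nm2
      simp [h]
    rw [h2, nonpos_iff_eq_zero, ENNReal.ofReal_eq_zero] at h1
    norm_num at h1
  have hgc : ∀ i, FCusp (gfm μ ρ φ (k * c) (f i)) := fun i => gfm_fcusp μ hρ.cont hρc hφ hφc _ (hf i)
  have hge : ∀ i, IsEig (L i) (gfm μ ρ φ (k * c) (f i)) := fun i =>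
    gfm_eig (Nat.succ_pos k) hN0 μ hρ.cont hρc hφ hφc _ (hf i).toFInv (hE i)
  choose A hA using fun i => hw N μ (gfm μ ρ φ (k * c) (f i)) (L i) (hgc i) (hge i) (hne i) D D' hD hD'
  have hl2 : ∀ i κ, MemLp (fun g => f i (κ, g)) 2 (μ.restrict F1) := by
    intro i κ
    have h1 := hon κ i i
    rw [if_pos rfl] at h1
    have h2 : Integrable (fun x => star (f i (κ, x)) * f i (κ, x)) (μ.restrict F1) := by
      by_contra h3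
      rw [integral_undef h3] at h1
      exact zero_ne_one h1
    have h3 : AEStronglyMeasurable (fun g => f i (κ, g)) (μ.restrict F1) := ((hf i).cont κ).aestronglyMeasurable
    rw [memLp_two_iff_integrable_sq_norm h3]
    refine h2.norm.congr (Filter.Eventually.of_forall fun x => ?_)
    show ‖star (f i (κ, x)) * f i (κ, x)‖ = ‖f i (κ, x)‖ ^ 2
    rw [norm_mul, norm_star, sq]
  refine ⟨A, fun i => (hA i).1, fun l hl hb => ?_⟩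
  refine he N δ s L A (fun i => nm2 μ D (gfm μ ρ φ (k * c) (f i))) (fun i d t => mW μ D' Ω (gfm μ ρ φ (k * c) (f i)) d t)
    hN0 hδ0 hδ1 ?_ l hl hb
  refine ⟨fun i => (hA i).1, hLb, hlo, fun i => gfm_fin μ hρ.cont hρc hφ hφc _ (hf i).toFInv hD (hfL i D hD).ne,
    fun i => (hA i).2.1, fun i => (hA i).2.2.1, ?_⟩
  intro l d t hl hd
  exact hm3 N δ hδ0 hδ1 φ hφ hφc hsupp hφ2 ρ hρ hρc D' hD' F1 hF1 s f A (fun i => (hf i).toFInv) hl2 hon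
    (fun i => (hA i).2.2.2) l d t hl hd

end

end Pool.Agent.Lib.H85P
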