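import Pool.Agent.Lib.H85P.F1
import Pool.Agent.Lib.H85P.B5
import Pool.Agent.Lib.H33N.KT7C

/-!
# H85P, F2: the coefficients of an orthonormal family of forms
-/

namespace Pool.Agent.Lib.H85P

open MeasureTheory Matrix NumberField IsDedekindDomain
open Pool.Agent.Lib.H89N Pool.Agent.Lib.H33W Pool.Agent.Lib.H85S Pool.Agent.Lib.H85N Pool.Agent.Lib.H33N
open scoped nonZeroDivisors ENNReal

noncomputable section

theorem f2_bnd {k N : ℕ} {T T' : ℝ} (hT : 0 ≤ T) (h : T ≤ T') {l : Fin (k + 1) → ℕ} (hb : Bnd k N T l) : Bnd k N T' l := by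
  have hN : (0 : ℝ) ≤ N := Nat.cast_nonneg _
  refine ⟨fun i hi => (hb.1 i hi).trans ?_, hb.2.trans ?_⟩
  · exact mul_le_mul_of_nonneg_left (pow_le_pow_left₀ hT h _) hN
  · exact mul_le_mul_of_nonneg_left (pow_le_pow_left₀ hT h _) (by positivity)

theorem f2_L {n N : ℕ} [NeZero N] (hn : 0 < n) (μ : Measure (GG n ℚ)) [μ.IsHaarMeasure] {F : XX n N → ℂ} (hF : FInv F) (h2 : FL2 μ F) (h0 : F ≠ 0)
    {a : Set (HH n N) → ℂ} (ha : ∀ S, BS (GH n N) S → TS (GH n N) S F = fun x => a S * F x) :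
    IsEig (fun r => a (SR n N r)) F ∧ ∀ r, 0 < r → r.Coprime N → ‖a (SR n N r)‖ ≤ (r : ℝ) ^ (2 * n) := by
  have hN : 0 < N := Nat.pos_of_ne_zero (NeZero.ne N)
  have hE : IsEig (fun r => a (SR n N r)) F := by
    intro r hr hrN x
    rw [← ts_tr hn hN hr hrN (inv_gh.1 hF.inv) x, ha _ (sr_bs hn hN hr hrN).1]
  refine ⟨hE, fun r hr hrN => ?_⟩
  obtain ⟨L', hL', hb⟩ := eb_L hn μ hF h2 h0 fun S hS => ⟨a S, ha S hS⟩
  obtain ⟨x, hx⟩ : ∃ x, F x ≠ 0 := by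
    by_contra h
    push Not at h
    exact h0 (funext h)
  have h1 := hE r hr hrN x
  rw [hL' r hr hrN x] at h1
  have h3 : L' r = a (SR n N r) := mul_right_cancel₀ hx h1
  rw [← h3]
  exact hb r hr hrN

/-- PROOF. As `ktypes_k` (`H33N.KT7C`): `c` from `fmP_top` (`B = 2 (k+1)`), `kt_mol` for `k c + 1`, `δ = c₀ / T`, `φ = ρ`; `bk_lo`, `on_nn`; `L j r = a j (SR r)`: `IsEig` and the bound `r ^ (2 n)` as in `eb_L` (`H33N.BM4`; `ts_tr`, `sr_bs`, `ts_norm`; or apply `eb_L` and compare the eigenvalues: `e j ≠ 0`; for `r` not prime to `N` nothing is required).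
`Bnd` for `N/δ = N T / c₀ ≥ N T` from the hypothesis (`c₀ ≤ 1`); `δ⁻¹ ^ (k(k+3)/2) (N/δ)^ε ≤ C T^(k(k+3)/2) (N T)^ε`. -/
theorem f2_top {k : ℕ} (hk : 1 ≤ k) (μ : Measure (GG (k + 1) ℚ)) [μ.IsHaarMeasure] (C : Submodule ℂ (KO (k + 1) → ℂ)) [FiniteDimensional ℂ C]
    (hC : ∀ c ∈ C, Continuous c) (ε : ℝ) (hε : 0 < ε) :
    ∃ K : ℝ, 0 ≤ K ∧ ∀ (N : ℕ) [NeZero N] (T : ℝ), 1 ≤ T → ∀ (D : Set (XX (k + 1) N)), SF (⊤ : Subgroup (ZG (k + 1))) D →
    ∀ (s : ℕ) (e : Fin s → XX (k + 1) N → ℂ) (ll : Fin s → ℝ) (a : Fin s → Set (HH (k + 1) N) → ℂ),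
    (∀ j, e j ∈ MXk N μ C (ll j)) → (∀ j, ll j ≤ T ^ 2) →
    (∀ i j, ∫ x in D, star (e i x) * e j x ∂xm N μ = if i = j then 1 else 0) →
    (∀ j S, BS (GH (k + 1) N) S → TS (GH (k + 1) N) S (e j) = fun x => a j S * e j x) →
    ∃ A : Fin s → (Fin (k + 1) → ℕ) → ℂ, (∀ j, Sys (k + 1) N (fun r => a j (SR (k + 1) N r)) (A j)) ∧
      ∀ l : Fin (k + 1) → ℕ, Ch1 k N l → Bnd k N ((N : ℝ) * T) l →
      ∑ j, wA (k + 1) (A j) 0 l ≤ ENNReal.ofReal (K * ((N : ℝ) ^ (k * (k + 2)) * T ^ (k * (k + 3) / 2) * ((N : ℝ) * T) ^ ε)) := by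
  obtain ⟨c, hc⟩ := fmP_top hk (((2 * (k + 1) : ℕ) : ℝ)) (by positivity)
  obtain ⟨c₀, Cm, Q, hc0, hc1, hCm, hQ, hmol⟩ := kt_mol (n := k + 1) (by omega) μ C hC (k * c + 1)
  obtain ⟨A, hA, hmain⟩ := hc μ hQ (C0 := 1) zero_le_one Cm Cm hCm ε hε
  refine ⟨A * (c₀⁻¹ ^ (k * (k + 3) / 2) * c₀⁻¹ ^ ε), by positivity, ?_⟩
  intro N _ T hT D hD s e ll a he hll hon ha
  have hN0 : 0 < N := Nat.pos_of_ne_zero (NeZero.ne N)
  obtain ⟨F1, hF1⟩ := exists_fd μ (nI N)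
  have hT0 : 0 < T := by linarith
  have hδ0 : 0 < c₀ / T := by positivity
  have hδ1 : c₀ / T ≤ 1 := by
    rw [div_le_one hT0]
    linarith
  obtain ⟨ρ, hρ, hρd, hρb, hlow⟩ := hmol T hT
  have hρc : HasCompactSupport ρ := HasCompactSupport.intro hQ fun z hz => by
    by_contra h
    exact hz (hρ.supp z h)
  have hρC : Continuous fun z : GG (k + 1) ℚ => (ρ z : ℂ) := Complex.continuous_ofReal.comp hρ.cont
  have hρs : HasCompactSupport fun z : GG (k + 1) ℚ => (ρ z : ℂ) :=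
    hρc.comp_left (g := fun r : ℝ => (r : ℂ)) Complex.ofReal_zero
  have hne : ∀ j, e j ≠ 0 := by
    intro j h0
    have h1 := hon j j
    rw [if_pos rfl, h0] at h1
    simp at h1
  have hL := fun i => f2_L (Nat.succ_pos k) μ (he i).1.toFInv (he i).2.1 (hne i) (ha i)
  obtain ⟨AA, hAA, key⟩ := hmain N (c₀ / T) hδ0 hδ1 (fun z => (ρ z : ℂ)) hρC hρs
    (by
      intro z hz
      refine dev_om hδ0.le (hρd z ?_)
      intro h
      rw [h] at hz
      exact hz Complex.ofReal_zero)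
    (by
      have h1 := mol_sq hQ hρ hρb
      rw [bm_dd hδ0] at h1
      exact h1)
    ρ hρ hρc F1 hF1 D hD s e (fun i r => a i (SR (k + 1) N r)) (fun i => (he i).1) (fun i => (he i).2.1)
    (by
      intro κ i j
      have h1 := lf_pairF hN0 μ hF1 (he i).1.toFInv (he j).1.toFInv hD (Θ := fun p => star p.1 * p.2)
        ((continuous_star.comp continuous_fst).mul continuous_snd) κ
      rw [← hon i j]
      exact h1.symm)
    (fun i => (hL i).1)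
    (by
      intro i r hr hrN
      have h1 := (hL i).2 r hr hrN
      rw [Real.rpow_natCast]
      exact h1)
    (by
      intro i
      have h1 := on_nn (he i).1.toFInv (he i).2.1 hD (by rw [hon i i, if_pos rfl])
      exact bk_lo (by omega : 1 ≤ k + 1) (he i) hD h1 hρ.cont hρc (k * c) fun F hF f hf =>
        hlow (nI N) F hF (ll i) f hf (hll i) (k * c + 1) le_rfl)
  refine ⟨AA, hAA, fun l hl hb => ?_⟩
  have hNr : (0 : ℝ) < N := by exact_mod_cast hN0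
  have e1 : (N : ℝ) / (c₀ / T) = N * T * c₀⁻¹ := by
    field_simp
  have e2 : (c₀ / T)⁻¹ = T * c₀⁻¹ := by
    rw [inv_div, div_eq_mul_inv]
  have hb' : Bnd k N ((N : ℝ) / (c₀ / T)) l := by
    refine f2_bnd (by positivity) ?_ hb
    rw [e1]
    have h3 : 1 ≤ c₀⁻¹ := (one_le_inv₀ hc0).2 hc1
    have h4 : 0 ≤ (N : ℝ) * T := by positivity
    nlinarith
  refine (key l hl hb').trans (le_of_eq ?_)
  congr 1
  rw [e1, e2, mul_pow, Real.mul_rpow (by positivity) (by positivity)]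
  ring

end

end Pool.Agent.Lib.H85P
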