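import Pool.Agent.Lib.H85P.GD

/-!
# H85P, G5: an identity in commutative rings
-/

namespace Pool.Agent.Lib.H85P

noncomputable section

theorem g5_prod {n : ℕ} {A : Type} [CommRing A] (X x : Fin (n + 1) → A) :
    ∏ p ∈ prs (n + 1), (X p.1 - x p.2) =
      (∏ p ∈ prs n, (X p.1.castSucc - x p.2.castSucc)) *
        ∏ l : Fin n, (X (Fin.last n) - x l.castSucc) := by
  unfold prs
  rw [Finset.prod_filter, Finset.prod_filter, Fintype.prod_prod_type, Fintype.prod_prod_type,
    Fin.prod_univ_castSucc]
  congr 1
  · refine Finset.prod_congr rfl fun j _ => ?_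
    rw [Fin.prod_univ_castSucc]
    have h1 : ¬ (Fin.last n < j.castSucc) := not_lt.mpr (Fin.le_last _)
    simp only [h1, if_false, mul_one]
    refine Finset.prod_congr rfl fun l _ => ?_
    simp only [Fin.castSucc_lt_castSucc_iff]
  · rw [Fin.prod_univ_castSucc]
    simp only [lt_irrefl, if_false, mul_one]
    refine Finset.prod_congr rfl fun l _ => ?_
    rw [if_pos (Fin.castSucc_lt_last l)]

/-- PROOF. Induction on `n` (for all rings `A`). Let `n + 1`, `j` the last index, `p = ∏ (t - x_i) = ∏ (t - X_i)`, `g = ∏_(l < j) (X_j - x_l)`. `(X_j - x_j) g = p (X_j) = 0` since `X_j` is a root of `∏ (t - X_i)`. The product over `prs (n+1)` is the product over `prs n` (embedded by `Fin.castSucc`) times `g`. This proves the case `i = j`.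
For `i < j`: let `A' = A / I`, `I = {a : a g = 0}` (the annihilator of `g`, an ideal). In `A'` `X_j = x_j`, so `∏_(i < j) (t - X_i) (t - X_j) = ∏_(i < j) (t - x_i) (t - X_j)` in `A'[t]`, and `t - X_j` is monic, hence not a zero divisor (`Polynomial.Monic.isRegular` or `Polynomial.Monic.mul_right_cancel`): the hypothesis holds for the first `n` elements in `A'`.
By induction `(X_i - x_i) ∏_(prs n) (X_p.1 - x_p.2) = 0` in `A'`, i.e. this element times `g` is zero in `A`. -/
theorem ring_lem {n : ℕ} {A : Type} [CommRing A] (X x : Fin n → A)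
    (h : ∏ i, (Polynomial.X - Polynomial.C (X i)) = ∏ i, (Polynomial.X - Polynomial.C (x i))) (i : Fin n) :
    (X i - x i) * ∏ p ∈ prs n, (X p.1 - x p.2) = 0 := by
  induction n generalizing A with
  | zero => exact i.elim0
  | succ n ih =>
    rw [g5_prod]
    set g : A := ∏ l : Fin n, (X (Fin.last n) - x l.castSucc) with hg
    have hroot : (X (Fin.last n) - x (Fin.last n)) * g = 0 := by
      have h1 := congrArg (Polynomial.eval (X (Fin.last n))) h
      rw [Polynomial.eval_prod, Polynomial.eval_prod] at h1
      simp only [Polynomial.eval_sub, Polynomial.eval_X, Polynomial.eval_C] at h1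
      rw [Finset.prod_eq_zero (Finset.mem_univ (Fin.last n)) (sub_self _),
        Fin.prod_univ_castSucc] at h1
      rw [mul_comm]
      exact h1.symm
    induction i using Fin.lastCases with
    | last =>
      rw [mul_comm (∏ p ∈ prs n, _) g, ← mul_assoc, hroot, zero_mul]
    | cast i =>
      let I : Ideal A := LinearMap.ker (LinearMap.toSpanSingleton A A g)
      have hI : ∀ a : A, a ∈ I ↔ a * g = 0 := fun a => by
        change (LinearMap.toSpanSingleton A A g) a = 0 ↔ _
        rw [LinearMap.toSpanSingleton_apply, smul_eq_mul]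
      let f : A →+* A ⧸ I := Ideal.Quotient.mk I
      have hlast : f (X (Fin.last n)) = f (x (Fin.last n)) := by
        rw [← sub_eq_zero, ← map_sub]
        exact Ideal.Quotient.eq_zero_iff_mem.mpr ((hI _).mpr hroot)
      have h2 := congrArg (Polynomial.map f) h
      rw [Polynomial.map_prod, Polynomial.map_prod] at h2
      simp only [Polynomial.map_sub, Polynomial.map_X, Polynomial.map_C] at h2
      rw [Fin.prod_univ_castSucc, Fin.prod_univ_castSucc, hlast] at h2
      have h3 := (Polynomial.monic_X_sub_C (f (x (Fin.last n)))).isRegular.right h2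
      have h4 := ih (fun i => f (X i.castSucc)) (fun i => f (x i.castSucc)) h3 i
      have h5 : f ((X i.castSucc - x i.castSucc) *
          ∏ p ∈ prs n, (X p.1.castSucc - x p.2.castSucc)) = 0 := by
        rw [map_mul, map_sub, map_prod]
        simp only [map_sub]
        exact h4
      have h6 := (hI _).mp (Ideal.Quotient.eq_zero_iff_mem.mp h5)
      rw [← mul_assoc]
      exact h6

/-- PROOF. `(X_i - x_i) F = 0` gives `X_i F = x_i F`; induction on the exponents (`Finset.prod_pow`-type induction over the indices, or `Finset.induction_on`). -/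
theorem ring_pow {n : ℕ} {A : Type} [CommRing A] (X x : Fin n → A)
    (h : ∏ i, (Polynomial.X - Polynomial.C (X i)) = ∏ i, (Polynomial.X - Polynomial.C (x i))) (b : Fin n → ℕ) :
    (∏ i, X i ^ b i) * ∏ p ∈ prs n, (X p.1 - x p.2) = (∏ i, x i ^ b i) * ∏ p ∈ prs n, (X p.1 - x p.2) := by
  set F := ∏ p ∈ prs n, (X p.1 - x p.2) with hF
  have h1 : ∀ i, X i * F = x i * F := by
    intro i
    have := ring_lem X x h i
    rw [sub_mul, sub_eq_zero] at this
    exact this
  have h2 : ∀ i k, X i ^ k * F = x i ^ k * F := by
    intro i k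
    induction k with
    | zero => rw [pow_zero, pow_zero]
    | succ k ih =>
      rw [pow_succ, pow_succ, mul_assoc, h1, mul_left_comm, ih]
      ring
  have h3 : ∀ s : Finset (Fin n), (∏ i ∈ s, X i ^ b i) * F = (∏ i ∈ s, x i ^ b i) * F := by
    intro s
    induction s using Finset.induction_on with
    | empty => simp
    | insert a s ha ih =>
      rw [Finset.prod_insert ha, Finset.prod_insert ha, mul_assoc, ih, mul_left_comm, h2]
      ring
  exact h3 Finset.univ

end

end Pool.Agent.Lib.H85P
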