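import Pool.Agent.Lib.H85P.G3
import Pool.Agent.Lib.H85P.G5

/-!
# H85P, G6: the action of polynomials on functions
-/

namespace Pool.Agent.Lib.H85P

open Pool.Agent.Lib.H89N Pool.Agent.Lib.H33N

noncomputable section

/-- The action of the polynomial `P` in the shift operators: `(act P B) b = ∑_s coeff_s(P) B (b + s)`. -/
def act {n : ℕ} (P : MvPolynomial (Fin n) ℂ) (B : (Fin n → ℕ) → ℂ) (b : Fin n → ℕ) : ℂ :=
  ∑ s ∈ P.support, P.coeff s * B (b + ⇑s)

theorem g6_act_eq {n : ℕ} (P : MvPolynomial (Fin n) ℂ) (B : (Fin n → ℕ) → ℂ) (b : Fin n → ℕ)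
    (U : Finset (Fin n →₀ ℕ)) (hU : P.support ⊆ U) :
    act P B b = ∑ s ∈ U, P.coeff s * B (b + ⇑s) := by
  unfold act
  refine Finset.sum_subset hU fun s _ hs => ?_
  rw [MvPolynomial.notMem_support_iff.1 hs, zero_mul]

/-- PROOF. `Finset.sum_subset` to the union of the supports (the coefficients vanish outside the supports), `MvPolynomial.coeff_add`. -/
theorem act_add {n : ℕ} (P Q : MvPolynomial (Fin n) ℂ) (B : (Fin n → ℕ) → ℂ) (b : Fin n → ℕ) : act (P + Q) B b = act P B b + act Q B b := by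
  classical
  have hP : P.support ⊆ P.support ∪ Q.support := Finset.subset_union_left
  have hQ : Q.support ⊆ P.support ∪ Q.support := Finset.subset_union_right
  rw [g6_act_eq (P + Q) B b _ MvPolynomial.support_add, g6_act_eq P B b _ hP,
    g6_act_eq Q B b _ hQ, ← Finset.sum_add_distrib]
  refine Finset.sum_congr rfl fun s _ => ?_
  rw [MvPolynomial.coeff_add, add_mul]

/-- PROOF. `MvPolynomial.support_monomial`, `coeff_monomial`. -/
theorem act_mon {n : ℕ} (s : Fin n →₀ ℕ) (c : ℂ) (B : (Fin n → ℕ) → ℂ) (b : Fin n → ℕ) :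
    act (MvPolynomial.monomial s c) B b = c * B (b + ⇑s) := by
  classical
  rw [g6_act_eq _ B b {s} MvPolynomial.support_monomial_subset, Finset.sum_singleton,
    MvPolynomial.coeff_monomial, if_pos rfl]

/-- PROOF. Both sides are additive in `P` and in `Q` (`act_add`; note `act P (F + G) = act P F + act P G`): reduce to monomials (`MvPolynomial.induction_on'` or `induction_on'''`), `act_mon`, `MvPolynomial.monomial_mul`. -/
theorem act_mul {n : ℕ} (P Q : MvPolynomial (Fin n) ℂ) (B : (Fin n → ℕ) → ℂ) (b : Fin n → ℕ) : act (P * Q) B b = act P (act Q B) b := by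
  induction P using MvPolynomial.induction_on' with
  | monomial u a =>
    induction Q using MvPolynomial.induction_on' with
    | monomial v c =>
      rw [MvPolynomial.monomial_mul, act_mon, act_mon, act_mon, Finsupp.coe_add, add_assoc, mul_assoc]
    | add p q hp hq =>
      rw [mul_add, act_add, hp, hq, act_mon, act_mon, act_mon, act_add, mul_add]
  | add p q hp hq =>
    rw [add_mul, act_add, hp, hq, act_add]

theorem g6_act_zero {n : ℕ} (B : (Fin n → ℕ) → ℂ) (b : Fin n → ℕ) :
    act (0 : MvPolynomial (Fin n) ℂ) B b = 0 := by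
  unfold act
  rw [MvPolynomial.support_zero, Finset.sum_empty]

theorem g6_act_sum {n : ℕ} {ι : Type} (S : Finset ι) (P : ι → MvPolynomial (Fin n) ℂ)
    (B : (Fin n → ℕ) → ℂ) (b : Fin n → ℕ) : act (∑ i ∈ S, P i) B b = ∑ i ∈ S, act (P i) B b := by
  classical
  induction S using Finset.induction_on with
  | empty => rw [Finset.sum_empty, Finset.sum_empty, g6_act_zero]
  | insert a S ha ih => rw [Finset.sum_insert ha, Finset.sum_insert ha, act_add, ih]

theorem g6_mon {n : ℕ} (e : Fin n → ℕ) : ∏ i, (MvPolynomial.X i : MvPolynomial (Fin n) ℂ) ^ e i =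
    MvPolynomial.monomial (Finsupp.equivFunOnFinite.symm e) 1 := by
  rw [MvPolynomial.monomial_eq, MvPolynomial.C_1, one_mul, Finsupp.prod_fintype _ _ (fun _ => pow_zero _)]
  rfl

theorem g6_act_mon {n : ℕ} (e : Fin n → ℕ) (c : ℂ) (B : (Fin n → ℕ) → ℂ) (b : Fin n → ℕ) :
    act (MvPolynomial.C c * ∏ i, (MvPolynomial.X i : MvPolynomial (Fin n) ℂ) ^ e i) B b =
      c * B (b + e) := by
  rw [g6_mon, MvPolynomial.C_mul_monomial, mul_one, act_mon]
  rfl

theorem g6_ind {n : ℕ} {R : Type} [CommRing R] (y : Fin n → R) (T : Finset (Fin n)) :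
    ∏ i ∈ T, y i = ∏ i, y i ^ ind T i := by
  simp only [ind, pow_ite, pow_one, pow_zero]
  rw [Finset.prod_ite_mem, Finset.univ_inter]

theorem g6_sT {n : ℕ} {R : Type} [CommRing R] (y : Fin n → R) (T : Finset (Fin n × Fin n)) :
    ∏ p ∈ T, y p.1 = ∏ j, y j ^ sT T j := by
  rw [← Finset.prod_fiberwise T (fun p => p.1)]
  refine Finset.prod_congr rfl fun j _ => ?_
  unfold sT
  rw [← Finset.prod_const]
  refine Finset.prod_congr rfl fun p hp => ?_
  rw [(Finset.mem_filter.1 hp).2]

/-- The ideal of the polynomials which annihilate `B`. -/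
def g6_ann {n : ℕ} (B : (Fin n → ℕ) → ℂ) : Ideal (MvPolynomial (Fin n) ℂ) where
  carrier := {P | ∀ b, act P B b = 0}
  add_mem' := by
    intro P Q hP hQ b
    rw [act_add, hP b, hQ b, add_zero]
  zero_mem' := fun b => g6_act_zero B b
  smul_mem' := by
    intro c P hP b
    rw [smul_eq_mul, act_mul]
    have h : act P B = 0 := funext hP
    rw [h]
    unfold act
    refine Finset.sum_eq_zero fun s _ => ?_
    rw [Pi.zero_apply, mul_zero]

theorem g6_es {n : ℕ} {R S : Type} [CommRing R] [CommRing S] (f : R →+* S) (y : Fin n → R) (m : ℕ) :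
    es (fun i => f (y i)) m = f (es y m) := by
  unfold es
  rw [map_sum]
  refine Finset.sum_congr rfl fun T _ => ?_
  rw [map_prod]

/-- PROOF. The polynomials `P` with `act P B = 0` form an ideal `I` (`act_add`, `act_mul`, and `act P 0 = 0`; `act (Q * P) B = act Q (act P B)`). In `A = MvPolynomial (Fin n) ℂ ⧸ I` let `X_i` be the classes of the variables and `x_i` those of the constants: `es X m = es x m` by `hB` (`es (X) m - C (es x m)` acts as `eo m B b - es x m * B b`, `act_mon`),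
so the hypothesis of `ring_pow` holds by `es_poly`. Hence `(∏ X_i ^ (b i) - ∏ x_i ^ (b i)) F ∈ I` with `F = ∏_{prs n} (X_p.1 - x_p.2) = ∑_{T ⊆ prs n} ∏_{p ∈ prs n \ T} (- x_p.2) ∏_{p ∈ T} X_p.1` (`Finset.prod_add` or `Finset.prod_sub`), `∏_{p ∈ T} X_p.1 = ∏ X_j ^ (sT T j)`. Evaluate the action at `0` (`act_mon`, `act_add`). -/
theorem g_shift {n : ℕ} {B : (Fin n → ℕ) → ℂ} {x : Fin n → ℂ} (hB : ∀ m b, eo m B b = es x m * B b) (b : Fin n → ℕ) :
    ∑ T ∈ (prs n).powerset, (∏ p ∈ prs n \ T, -x p.2) * B (b + sT T) =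
      (∏ i, x i ^ b i) * ∑ T ∈ (prs n).powerset, (∏ p ∈ prs n \ T, -x p.2) * B (sT T) := by
  classical
  set I := g6_ann B with hI
  let q : MvPolynomial (Fin n) ℂ →+* (MvPolynomial (Fin n) ℂ ⧸ I) := Ideal.Quotient.mk I
  have hes : ∀ m, es (fun i => q (MvPolynomial.X i)) m = es (fun i => q (MvPolynomial.C (x i))) m := by
    intro m
    rw [g6_es q (fun i => MvPolynomial.X i) m, g6_es q (fun i => MvPolynomial.C (x i)) m,
      g6_es (MvPolynomial.C : ℂ →+* MvPolynomial (Fin n) ℂ) x m]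
    refine (Ideal.Quotient.eq).2 ?_
    intro b
    rw [sub_eq_add_neg, act_add]
    have h1 : act (es (fun i => (MvPolynomial.X i : MvPolynomial (Fin n) ℂ)) m) B b = eo m B b := by
      unfold es eo
      rw [g6_act_sum]
      refine Finset.sum_congr rfl fun T _ => ?_
      have h2 := g6_act_mon (ind T) 1 B b
      rw [MvPolynomial.C_1, one_mul, one_mul] at h2
      rw [g6_ind (fun i => (MvPolynomial.X i : MvPolynomial (Fin n) ℂ)) T, h2]
    have h3 : act (-MvPolynomial.C (es x m) : MvPolynomial (Fin n) ℂ) B b = -(es x m * B b) := by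
      have h4 := act_mon (n := n) 0 (-(es x m)) B b
      rw [← MvPolynomial.C_apply, map_neg] at h4
      rw [h4]
      simp
    rw [h1, h3, hB m b]
    ring
  have hpoly : ∏ i, (Polynomial.X - Polynomial.C (q (MvPolynomial.X i))) =
      ∏ i, (Polynomial.X - Polynomial.C (q (MvPolynomial.C (x i)))) := by
    rw [es_poly (fun i => q (MvPolynomial.X i)), es_poly (fun i => q (MvPolynomial.C (x i)))]
    refine Finset.sum_congr rfl fun m _ => ?_
    rw [hes m]
  have h := ring_pow (fun i => q (MvPolynomial.X i)) (fun i => q (MvPolynomial.C (x i))) hpoly b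
  have h1 : ((∏ i, (MvPolynomial.X i : MvPolynomial (Fin n) ℂ) ^ b i) *
      ∏ p ∈ prs n, (MvPolynomial.X p.1 - MvPolynomial.C (x p.2))) -
      ((∏ i, (MvPolynomial.C (x i) : MvPolynomial (Fin n) ℂ) ^ b i) *
      ∏ p ∈ prs n, (MvPolynomial.X p.1 - MvPolynomial.C (x p.2))) ∈ I := by
    refine (Ideal.Quotient.eq).1 ?_
    show q _ = q _
    simp only [map_mul, map_prod, map_pow, map_sub]
    exact h
  have hF : ∏ p ∈ prs n, (MvPolynomial.X p.1 - MvPolynomial.C (x p.2) : MvPolynomial (Fin n) ℂ) =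
      ∑ T ∈ (prs n).powerset, MvPolynomial.C (∏ p ∈ prs n \ T, -x p.2) *
        ∏ j, (MvPolynomial.X j : MvPolynomial (Fin n) ℂ) ^ sT T j := by
    simp only [sub_eq_add_neg]
    rw [Finset.prod_add]
    refine Finset.sum_congr rfl fun T _ => ?_
    rw [g6_sT (fun i => (MvPolynomial.X i : MvPolynomial (Fin n) ℂ)) T, map_prod, mul_comm]
    congr 1
    refine Finset.prod_congr rfl fun p _ => ?_
    rw [map_neg]
  have hA : act ((∏ i, (MvPolynomial.X i : MvPolynomial (Fin n) ℂ) ^ b i) *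
      ∏ p ∈ prs n, (MvPolynomial.X p.1 - MvPolynomial.C (x p.2))) B 0 =
      ∑ T ∈ (prs n).powerset, (∏ p ∈ prs n \ T, -x p.2) * B (b + sT T) := by
    rw [hF, Finset.mul_sum, g6_act_sum]
    refine Finset.sum_congr rfl fun T _ => ?_
    have h2 := g6_act_mon (b + sT T) (∏ p ∈ prs n \ T, -x p.2) B 0
    rw [zero_add] at h2
    rw [← h2]
    congr 1
    rw [mul_left_comm, ← Finset.prod_mul_distrib]
    congr 1
    refine Finset.prod_congr rfl fun i _ => ?_
    rw [← pow_add]
    rfl
  have hC : act ((∏ i, (MvPolynomial.C (x i) : MvPolynomial (Fin n) ℂ) ^ b i) *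
      ∏ p ∈ prs n, (MvPolynomial.X p.1 - MvPolynomial.C (x p.2))) B 0 =
      (∏ i, x i ^ b i) * ∑ T ∈ (prs n).powerset, (∏ p ∈ prs n \ T, -x p.2) * B (sT T) := by
    have h2 : (∏ i, (MvPolynomial.C (x i) : MvPolynomial (Fin n) ℂ) ^ b i) =
        MvPolynomial.C (∏ i, x i ^ b i) := by
      rw [map_prod]
      refine Finset.prod_congr rfl fun i _ => ?_
      rw [map_pow]
    rw [h2, hF, Finset.mul_sum, g6_act_sum, Finset.mul_sum]
    refine Finset.sum_congr rfl fun T _ => ?_
    have h3 := g6_act_mon (sT T) ((∏ i, x i ^ b i) * ∏ p ∈ prs n \ T, -x p.2) B 0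
    rw [zero_add] at h3
    rw [← mul_assoc (∏ i, x i ^ b i), ← h3, map_mul, mul_assoc]
  have h5 := h1 0
  rw [sub_eq_add_neg, act_add] at h5
  have h6 : ∀ P : MvPolynomial (Fin n) ℂ, act (-P) B 0 = -act P B 0 := by
    intro P
    have h7 := act_add P (-P) B 0
    rw [add_neg_cancel, g6_act_zero] at h7
    linear_combination -h7
  rw [h6, hA, hC] at h5
  linear_combination h5

end

end Pool.Agent.Lib.H85P
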