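import Pool.Agent.Lib.H85P.GD

/-!
# H85P, G7: the leading term
-/

namespace Pool.Agent.Lib.H85P

open Pool.Agent.Lib.H89N Pool.Agent.Lib.H33N

noncomputable section

theorem g7_sub {n : ℕ} {T : Finset (Fin n × Fin n)} (hT : T ∈ (prs n).powerset) (j : Fin n) :
    (T.filter fun p => p.1 = j) ⊆ (Finset.Iio j).image fun l => (j, l) := by
  intro p hp
  rw [Finset.mem_filter] at hp
  have h1 := Finset.mem_powerset.1 hT hp.1
  unfold prs at h1
  rw [Finset.mem_filter] at h1
  rw [Finset.mem_image]
  refine ⟨p.2, ?_, ?_⟩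
  · rw [Finset.mem_Iio, ← hp.2]
    exact h1.2
  · rw [← hp.2]

theorem g7_card {n : ℕ} (j : Fin n) : ((Finset.Iio j).image fun l => (j, l)).card = (j : ℕ) := by
  rw [Finset.card_image_of_injective _ (fun a b h => (Prod.mk.inj h).2), Fin.card_Iio]

theorem g7_all {n : ℕ} {T : Finset (Fin n × Fin n)} (hT : T ∈ (prs n).powerset)
    (h : ∀ j, sT T j = j) : T = prs n := by
  refine Finset.Subset.antisymm (Finset.mem_powerset.1 hT) fun p hp => ?_
  have h1 : (T.filter fun q => q.1 = p.1) = (Finset.Iio p.1).image fun l => (p.1, l) := by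
    refine Finset.eq_of_subset_of_card_le (g7_sub hT p.1) ?_
    rw [g7_card]
    exact (h p.1).ge
  have h2 : p ∈ (Finset.Iio p.1).image fun l => (p.1, l) := by
    rw [Finset.mem_image]
    unfold prs at hp
    rw [Finset.mem_filter] at hp
    exact ⟨p.2, Finset.mem_Iio.2 hp.2, rfl⟩
  rw [← h1, Finset.mem_filter] at h2
  exact h2.1

theorem g7_top {n : ℕ} (j : Fin n) : sT (prs n) j = j := by
  unfold sT
  rw [← g7_card j]
  congr 1
  refine Finset.Subset.antisymm (g7_sub (Finset.mem_powerset_self _) j) fun p hp => ?_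
  rw [Finset.mem_image] at hp
  obtain ⟨l, hl, rfl⟩ := hp
  rw [Finset.mem_filter]
  unfold prs
  rw [Finset.mem_filter]
  exact ⟨⟨Finset.mem_univ _, Finset.mem_Iio.1 hl⟩, rfl⟩

/-- PROOF. `T.filter (p.1 = j) ⊆ {(j, l) : l < j}`, a set with `j` elements. -/
theorem sT_le {n : ℕ} {T : Finset (Fin n × Fin n)} (hT : T ∈ (prs n).powerset) (j : Fin n) : sT T j ≤ j := by
  unfold sT
  rw [← g7_card j]
  exact Finset.card_le_card (g7_sub hT j)

/-- PROOF. If `s = sT T` is injective with `s j ≤ j` for all `j`, then `s j = j` (strong induction: the values `0, .., j - 1` are taken by the smaller indices), and `s j = j` for all `j` forces `T = prs n` (the filtered sets have full cardinality). So all summands with `T ≠ prs n` vanish (`h0`), and for `T = prs n` the product is empty and `sT T = fun i => i`. -/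
theorem g_lead {n : ℕ} {B : (Fin n → ℕ) → ℂ} (h0 : ∀ b, ¬Function.Injective b → B b = 0) (x : Fin n → ℂ) :
    ∑ T ∈ (prs n).powerset, (∏ p ∈ prs n \ T, -x p.2) * B (sT T) = B fun i => (i : ℕ) := by
  rw [Finset.sum_eq_single (prs n)]
  · rw [Finset.sdiff_self, Finset.prod_empty, one_mul]
    congr 1
    funext j
    exact g7_top j
  · intro T hT hne
    rw [h0, mul_zero]
    intro hinj
    refine hne (g7_all hT ?_)
    have key : ∀ m : ℕ, ∀ j : Fin n, (j : ℕ) = m → sT T j = j := by
      intro m
      induction m using Nat.strong_induction_on with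
      | _ m ih =>
        intro j hj
        rcases (sT_le hT j).lt_or_eq with hlt | heq
        · exfalso
          have hlt' : sT T j < n := hlt.trans j.2
          have h1 := ih (sT T j) (hj ▸ hlt) ⟨sT T j, hlt'⟩ rfl
          have h2 := hinj h1
          have h3 : sT T j = j := congrArg Fin.val h2
          omega
        · exact heq
    exact fun j => key _ j rfl
  · intro h
    exact absurd (Finset.mem_powerset_self _) h

/-- PROOF. Let `c = b + sT T`, `c i ≤ b i + i` (`sT_le`). If `c` is not injective, `Vt V c = 0`. If it is injective, `Vt V c = sgn * V (fun i => c (sort c i) - i)` (`a1_pos`, `a1_sgn_norm` in `H33N.A1`). Put `u i = c (sort c i) - i`: `c ∘ sort c` is strictly increasing, so `i ≤ c (sort c i)` and `u` is monotone; `c (sort c i) ≤ b i + i` because the `i + 1`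
elements `c 0, .., c i` are all at most `b i + i` (`b` monotone) and `c (sort c i)` is the `(i+1)`-st smallest. `Λ` is the image of `(prs n).powerset` (restricted to the injective `c`) under `T ↦ u`; `(prs n).card ≤ n * n`. -/
theorem g_lam {n : ℕ} {b : Fin n → ℕ} (hb : Monotone b) : ∃ Λ : Finset (Fin n → ℕ), Λ.card ≤ 2 ^ (n * n) ∧
    (∀ u ∈ Λ, Monotone u ∧ ∀ i, u i ≤ b i) ∧
    ∀ (V : (Fin n → ℕ) → ℂ), ∀ T ∈ (prs n).powerset, ‖Vt V (b + sT T)‖ ^ 2 ≤ ∑ u ∈ Λ, ‖V u‖ ^ 2 := by
  classical
  refine ⟨((prs n).powerset.filter fun T => Function.Injective (b + sT T)).image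
    (fun T i => (b + sT T) (Tuple.sort (b + sT T) i) - i), ?_, ?_, ?_⟩
  · refine Finset.card_image_le.trans ((Finset.card_filter_le _ _).trans ?_)
    rw [Finset.card_powerset]
    refine Nat.pow_le_pow_right (by norm_num) ?_
    unfold prs
    refine (Finset.card_filter_le _ _).trans ?_
    rw [Finset.card_univ, Fintype.card_prod, Fintype.card_fin]
  · intro u hu
    rw [Finset.mem_image] at hu
    obtain ⟨T, hT, rfl⟩ := hu
    rw [Finset.mem_filter] at hT
    obtain ⟨hT, hinj⟩ := hT
    set c : Fin n → ℕ := b + sT T with hc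
    have hmono : StrictMono (c ∘ Tuple.sort c) :=
      (Tuple.monotone_sort c).strictMono_of_injective (hinj.comp (Equiv.injective _))
    have hstep : ∀ (d : ℕ) (i j : Fin n), (j : ℕ) = i + d → c (Tuple.sort c i) + d ≤ c (Tuple.sort c j) := by
      intro d
      induction d with
      | zero =>
        intro i j hij
        have : i = j := Fin.ext (by omega)
        rw [this]
        simp
      | succ d ih =>
        intro i j hij
        have hk : (i : ℕ) + d < n := by have := j.2; omega
        have h1 := ih i ⟨(i : ℕ) + d, hk⟩ rfl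
        have h2 : c (Tuple.sort c ⟨(i : ℕ) + d, hk⟩) < c (Tuple.sort c j) :=
          hmono (show (⟨(i : ℕ) + d, hk⟩ : Fin n) < j from Fin.lt_def.2 (by simp only; omega))
        omega
    have hlow : ∀ i : Fin n, (i : ℕ) ≤ c (Tuple.sort c i) := by
      intro i
      have h1 := hstep i ⟨0, by have := i.2; omega⟩ i (by simp)
      omega
    refine ⟨fun i j hij => ?_, fun i => ?_⟩
    · have hij' : (i : ℕ) ≤ j := hij
      have h1 := hstep ((j : ℕ) - i) i j (by omega)
      show c (Tuple.sort c i) - i ≤ c (Tuple.sort c j) - j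
      omega
    · show c (Tuple.sort c i) - i ≤ b i
      by_contra hcon
      rw [not_le] at hcon
      have h1 : ∀ j ∈ Finset.Iic i, (Tuple.sort c).symm j ∈ Finset.Iio i := by
        intro j hj
        rw [Finset.mem_Iic] at hj
        rw [Finset.mem_Iio]
        by_contra hge
        rw [not_lt] at hge
        have h2 := (Tuple.monotone_sort c) hge
        simp only [Function.comp_apply, Equiv.apply_symm_apply] at h2
        have h3 : c j ≤ b i + i := by
          have h4 := sT_le hT j
          have h5 : b j ≤ b i := hb hj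
          have h6 : (j : ℕ) ≤ i := hj
          show b j + sT T j ≤ _
          omega
        omega
      have h2 := Finset.card_le_card_of_injOn _ h1 (Equiv.injective _).injOn
      rw [Fin.card_Iic, Fin.card_Iio] at h2
      omega
  · intro V T hT
    by_cases hinj : Function.Injective (b + sT T)
    · have h1 : ‖Vt V (b + sT T)‖ =
          ‖V (fun i => (b + sT T) (Tuple.sort (b + sT T) i) - i)‖ := by
        unfold Vt
        rw [if_pos hinj, norm_mul, a1_sgn_norm, one_mul]
      rw [h1]
      exact Finset.single_le_sum (f := fun u => ‖V u‖ ^ 2) (fun _ _ => by positivity)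
        (Finset.mem_image_of_mem _ (Finset.mem_filter.2 ⟨hT, hinj⟩))
    · have h1 : Vt V (b + sT T) = 0 := by
        unfold Vt
        rw [if_neg hinj]
      rw [h1, norm_zero]
      have h2 : (0 : ℝ) ^ 2 = 0 := by norm_num
      rw [h2]
      exact Finset.sum_nonneg fun _ _ => by positivity

end

end Pool.Agent.Lib.H85P
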