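import Pool.Agent.Lib.H85P.GD
import Pool.Agent.Lib.H89N.FN2

/-!
# H85P, G8: bounds for the roots
-/

namespace Pool.Agent.Lib.H85P

open Pool.Agent.Lib.H89N Pool.Agent.Lib.H33N

noncomputable section

/-- PROOF. Suppose `‖x i‖ = Y > M ≥ 1`. `hs_low` (`H89N.FN2`) with `ρ = Y`: for every `j` there is `s < n` with `Y ^ (j+s) ≤ 2 ^ (n-1) ‖hs x (j+s)‖ ≤ 2 ^ (n-1) C (j+s+1)^a M ^ (j+s)`, so `(Y/M) ^ t ≤ C' (t+1)^a` for arbitrarily large `t`, which is false (`Y/M > 1`; exponentials beat polynomials: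
`tendsto_pow_const_div_const_pow_of_one_lt`). -/
theorem root_le {n : ℕ} {x : Fin n → ℂ} {M C : ℝ} {a : ℕ} (hM : 1 ≤ M) (h : ∀ k, ‖hs x k‖ ≤ C * ((k : ℝ) + 1) ^ a * M ^ k) (i : Fin n) :
    ‖x i‖ ≤ M := by
  by_contra hlt
  rw [not_le] at hlt
  have hM0 : 0 < M := by linarith
  have hY : 1 ≤ ‖x i‖ := hM.trans hlt.le
  have hr : 1 < ‖x i‖ / M := (one_lt_div hM0).2 hlt
  have ht := (tendsto_pow_const_div_const_pow_of_one_lt a hr).comp (Filter.tendsto_add_atTop_nat 1)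
  have ht2 := ht.const_mul (2 ^ (n - 1) * C * (‖x i‖ / M))
  rw [mul_zero] at ht2
  have hev := ht2.eventually (gt_mem_nhds (show (0 : ℝ) < 1 by norm_num))
  obtain ⟨N, hN⟩ := Filter.eventually_atTop.1 hev
  obtain ⟨s, -, hs'⟩ := hs_low hY le_rfl N
  have h1 := hN (N + s) (Nat.le_add_right _ _)
  have h2 : ‖x i‖ ^ (N + s) ≤ 2 ^ (n - 1) * (C * (((N + s : ℕ) : ℝ) + 1) ^ a * M ^ (N + s)) :=
    hs'.trans (mul_le_mul_of_nonneg_left (h (N + s)) (by positivity))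
  have hMp : 0 < M ^ (N + s) := pow_pos hM0 _
  have hrp : 0 < (‖x i‖ / M) ^ (N + s) := pow_pos (by linarith) _
  have h3 : (‖x i‖ / M) ^ (N + s) ≤ 2 ^ (n - 1) * C * (((N + s : ℕ) : ℝ) + 1) ^ a := by
    rw [div_pow, div_le_iff₀ hMp]
    calc ‖x i‖ ^ (N + s) ≤ 2 ^ (n - 1) * (C * (((N + s : ℕ) : ℝ) + 1) ^ a * M ^ (N + s)) := h2
      _ = _ := by ring
  have h4 : 2 ^ (n - 1) * C * (‖x i‖ / M) *
      ((((N + s + 1 : ℕ) : ℝ)) ^ a / (‖x i‖ / M) ^ (N + s + 1)) < 1 := h1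
  have h5 : 2 ^ (n - 1) * C * (‖x i‖ / M) *
      ((((N + s + 1 : ℕ) : ℝ)) ^ a / (‖x i‖ / M) ^ (N + s + 1)) =
      2 ^ (n - 1) * C * (((N + s : ℕ) : ℝ) + 1) ^ a / (‖x i‖ / M) ^ (N + s) := by
    have hr0 : (‖x i‖ / M) ≠ 0 := by linarith
    rw [pow_succ (‖x i‖ / M) (N + s), Nat.cast_succ]
    field_simp
  rw [h5, div_lt_one hrp] at h4
  linarith

end

end Pool.Agent.Lib.H85P
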