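import Pool.Agent.Lib.H85P.G4
import Pool.Agent.Lib.H85P.G6
import Pool.Agent.Lib.H85P.G7
import Pool.Agent.Lib.H85P.G8

/-!
# H85P, G9: the monomials in the roots are bounded by the values of the solution of the Pieri rule
-/

namespace Pool.Agent.Lib.H85P

open Pool.Agent.Lib.H89N Pool.Agent.Lib.H33N

noncomputable section

theorem g9_card (n : ℕ) : 2 * (prs n).card = n * (n - 1) := by
  have h1 : (prs n).card = ∑ j : Fin n, sT (prs n) j := by
    unfold sT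
    exact Finset.card_eq_sum_card_fiberwise (fun p _ => Finset.mem_coe.2 (Finset.mem_univ p.1))
  have h2 : ∑ j : Fin n, sT (prs n) j = ∑ j ∈ Finset.range n, j := by
    rw [← Fin.sum_univ_eq_sum_range (fun j => j) n]
    exact Finset.sum_congr rfl fun j _ => g7_top j
  rw [h1, h2, mul_comm, Finset.sum_range_id_mul_two]

theorem g9_es {n : ℕ} (x : Fin n → ℂ) (σ : Equiv.Perm (Fin n)) (m : ℕ) :
    es (fun i => x (σ i)) m = es x m := by
  have h1 : ∀ y : Fin n → ℂ, es y m = ((Finset.univ : Finset (Fin n)).val.map y).esymm m := by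
    intro y
    rw [Finset.esymm_map_val]
    rfl
  rw [h1, h1]
  congr 1
  have h2 : (Finset.univ : Finset (Fin n)).val.map σ = (Finset.univ : Finset (Fin n)).val := by
    have h3 : (Finset.univ : Finset (Fin n)).map σ.toEmbedding = Finset.univ :=
      Finset.map_univ_equiv σ
    exact congrArg Finset.val h3
  conv_rhs => rw [← h2, Multiset.map_map]
  rfl

theorem g9_pow (M : ℝ) (n : ℕ) : ∑ T ∈ (prs n).powerset, M ^ (prs n \ T).card =
    (1 + M) ^ (prs n).card := by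
  classical
  have h := Finset.prod_add (fun _ : Fin n × Fin n => (1 : ℝ)) (fun _ => M) (prs n)
  simp only [Finset.prod_const, one_pow, one_mul] at h
  exact h.symm

/-- PROOF. `Λ` from `g_lam`. `B = Vt V` satisfies `hB` (`vt_pieri`), vanishes on non-injective tuples (`a1_neg`), and `B (fun i => i) = V 0 = 1` (`vt_mono` with `l = 0`). `x` from `roots_ex` (`b₀ = fun i => i`), `‖x i‖ ≤ M` by `root_le`. Let `y = x ∘ σ`: `es y m = es x m` (symmetric; reindex the subsets), so `g_shift` and `g_lead` for `y`: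
`∏ y_i ^ (b i) = ∑_{T ⊆ prs n} (∏_{prs n \ T} -y_p.2) B (b + sT T)`. Norms: `‖∏_{prs n \ T} y_p.2‖ ≤ M ^ |prs n \ T|`, `‖B (b + sT T)‖ ≤ S^(1/2)`, `S = ∑_{u ∈ Λ} ‖V u‖²` (`g_lam`), and `∑_T M ^ |prs n \ T| = (1 + M) ^ |prs n| ≤ (2 M) ^ (n (n-1)/2)` (`Finset.prod_add`/`Finset.sum_pow_mul_eq_add_pow`, `|prs n| = n (n-1)/2`). Take squares. -/
theorem g_top {n : ℕ} {b : Fin n → ℕ} (hb : Monotone b) : ∃ Λ : Finset (Fin n → ℕ), Λ.card ≤ 2 ^ (n * n) ∧
    (∀ u ∈ Λ, Monotone u ∧ ∀ i, u i ≤ b i) ∧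
    ∀ (h : ℕ → ℂ) (V : (Fin n → ℕ) → ℂ), PIa n h V → V 0 = 1 → ∀ (M C : ℝ) (a : ℕ), 1 ≤ M → (∀ k, ‖h k‖ ≤ C * ((k : ℝ) + 1) ^ a * M ^ k) →
      ∃ x : Fin n → ℂ, (∀ k, h k = hs x k) ∧ (∀ i, ‖x i‖ ≤ M) ∧
        ∀ σ : Equiv.Perm (Fin n), ∏ i, ‖x (σ i)‖ ^ (2 * b i) ≤ (2 * M) ^ (n * (n - 1)) * ∑ u ∈ Λ, ‖V u‖ ^ 2 := by
  obtain ⟨Λ, hc, hΛ, hV⟩ := g_lam hb
  refine ⟨Λ, hc, hΛ, fun h V hPI hV0 M C a hM hgr => ?_⟩
  have hB : ∀ k c, h k * Vt V c = ∑ g ∈ comps n k, Vt V (c + g) := fun k c => vt_pieri hPI k c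
  have hB0 : Vt V (fun i : Fin n => (i : ℕ)) = 1 := by
    have h1 := vt_mono V (l := (0 : Fin n → ℕ)) (fun _ _ _ => le_rfl)
    rw [hV0] at h1
    rw [← h1]
    congr 1
    funext i
    simp
  obtain ⟨x, hx1, hx2⟩ := roots_ex hB (b₀ := fun i : Fin n => (i : ℕ)) (by rw [hB0]; exact one_ne_zero)
  have hxM : ∀ i, ‖x i‖ ≤ M := fun i => root_le hM (fun k => by rw [← hx1 k]; exact hgr k) i
  refine ⟨x, hx1, hxM, fun σ => ?_⟩
  have hy2 : ∀ m c, eo m (Vt V) c = es (fun i => x (σ i)) m * Vt V c := by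
    intro m c
    rw [g9_es]
    exact hx2 m c
  have h1 := g_shift hy2 b
  rw [g_lead (fun c hcn => a1_neg V hcn) (fun i => x (σ i)), hB0, mul_one] at h1
  set S : ℝ := ∑ u ∈ Λ, ‖V u‖ ^ 2 with hS
  have hS0 : 0 ≤ S := Finset.sum_nonneg fun _ _ => by positivity
  have h2 : ‖∏ i, x (σ i) ^ b i‖ ≤ (2 * M) ^ (prs n).card * Real.sqrt S := by
    rw [← h1]
    refine (norm_sum_le _ _).trans ?_
    have h3 : ∀ T ∈ (prs n).powerset,
        ‖(∏ p ∈ prs n \ T, -x (σ p.2)) * Vt V (b + sT T)‖ ≤ M ^ (prs n \ T).card * Real.sqrt S := by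
      intro T hT
      rw [norm_mul]
      refine mul_le_mul ?_ ?_ (norm_nonneg _) (by positivity)
      · rw [norm_prod, ← Finset.prod_const]
        refine Finset.prod_le_prod (fun _ _ => norm_nonneg _) fun p _ => ?_
        rw [norm_neg]
        exact hxM _
      · exact Real.le_sqrt_of_sq_le (hV V T hT)
    refine (Finset.sum_le_sum h3).trans ?_
    rw [← Finset.sum_mul, g9_pow]
    refine mul_le_mul_of_nonneg_right ?_ (Real.sqrt_nonneg _)
    exact pow_le_pow_left₀ (by linarith) (by linarith) _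
  have h4 : ∏ i, ‖x (σ i)‖ ^ (2 * b i) = ‖∏ i, x (σ i) ^ b i‖ ^ 2 := by
    rw [norm_prod, ← Finset.prod_pow]
    refine Finset.prod_congr rfl fun i _ => ?_
    rw [norm_pow, ← pow_mul, mul_comm]
  rw [h4, ← g9_card n]
  calc ‖∏ i, x (σ i) ^ b i‖ ^ 2 ≤ ((2 * M) ^ (prs n).card * Real.sqrt S) ^ 2 :=
        pow_le_pow_left₀ (norm_nonneg _) h2 2
    _ = (2 * M) ^ (2 * (prs n).card) * S := by
        rw [mul_pow, Real.sq_sqrt hS0, ← pow_mul, mul_comm (prs n).card 2]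

end

end Pool.Agent.Lib.H85P
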