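import Mathlib

/-!
# H85P, P3: tuples with the same power sums
-/

namespace Pool.Agent.Lib.H85P

noncomputable section

theorem p_eval {n : ℕ} {u v : Fin n → ℂ} (h : ∀ m : ℕ, 1 ≤ m → ∑ i, u i ^ m = ∑ i, v i ^ m) (P : Polynomial ℂ) :
    ∑ i, P.eval (u i) = ∑ i, P.eval (v i) := by
  have h0 : ∀ m : ℕ, ∑ i, u i ^ m = ∑ i, v i ^ m := by
    intro m
    rcases m with _ | m
    · simp
    · exact h _ (by omega)
  simp only [Polynomial.eval_eq_sum_range]
  rw [Finset.sum_comm, Finset.sum_comm (s := Finset.univ)]
  refine Finset.sum_congr rfl fun k _ => ?_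
  rw [← Finset.mul_sum, ← Finset.mul_sum, h0]

/-- PROOF. Newton's identities (`MvPolynomial.mul_esymm_eq_sum`, evaluated at `u` and `v`; characteristic zero) show by strong induction that the elementary symmetric polynomials agree, so `∏ (t - u_i) = ∏ (t - v_i)` (`MvPolynomial.esymm`, `Multiset.prod_X_sub_X_eq_sum_esymm`), the multisets of roots agree (`Polynomial.roots_multiset_prod_X_sub_C`), and equal multisets
`Multiset.map u univ = Multiset.map v univ` give a permutation. Or: for distinct values `w` let `a_w = #{i : u_i = w} - #{i : v_i = w}`; `∑_w a_w w^m = 0` for all `m ≥ 1`; apply to polynomials without constant term (Lagrange interpolation): `a_w = 0` for `w ≠ 0`, and for `w = 0` since both tuples have length `n`. -/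
theorem p_mset {n : ℕ} {u v : Fin n → ℂ} (h : ∀ m : ℕ, 1 ≤ m → ∑ i, u i ^ m = ∑ i, v i ^ m) : ∃ σ : Equiv.Perm (Fin n), ∀ i, u (σ i) = v i := by
  classical
  have hcard : ∀ c : ℂ, Fintype.card {i // v i = c} = Fintype.card {i // u i = c} := by
    intro c
    set S : Finset ℂ := (Finset.univ.image u ∪ Finset.univ.image v).erase c with hS
    set P : Polynomial ℂ := ∏ z ∈ S, (Polynomial.X - Polynomial.C z) with hP
    have hPc : P.eval c ≠ 0 := by
      rw [hP, Polynomial.eval_prod]
      refine Finset.prod_ne_zero_iff.2 fun z hz => ?_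
      rw [Polynomial.eval_sub, Polynomial.eval_X, Polynomial.eval_C, sub_ne_zero]
      exact (Finset.ne_of_mem_erase hz).symm
    have hPz : ∀ z ∈ S, P.eval z = 0 := by
      intro z hz
      rw [hP, Polynomial.eval_prod]
      refine Finset.prod_eq_zero hz ?_
      simp
    have hev : ∀ w : Fin n → ℂ, (∀ i, w i ∈ Finset.univ.image u ∪ Finset.univ.image v) →
        ∑ i, P.eval (w i) = (Fintype.card {i // w i = c} : ℂ) * P.eval c := by
      intro w hw
      have h1 : ∀ i ∈ (Finset.univ : Finset (Fin n)), P.eval (w i) = if w i = c then P.eval c else 0 := by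
        intro i _
        split_ifs with hi
        · rw [hi]
        · exact hPz _ (Finset.mem_erase.2 ⟨hi, hw i⟩)
      rw [Finset.sum_congr rfl h1, ← Finset.sum_filter, Finset.sum_const, nsmul_eq_mul, Fintype.card_subtype]
    have h2 := p_eval h P
    rw [hev u (fun i => Finset.mem_union_left _ (Finset.mem_image_of_mem u (Finset.mem_univ i))),
      hev v (fun i => Finset.mem_union_right _ (Finset.mem_image_of_mem v (Finset.mem_univ i)))] at h2
    have h3 := mul_right_cancel₀ hPc h2
    exact_mod_cast h3.symm
  have e : ∀ c : ℂ, {i // v i = c} ≃ {i // u i = c} := fun c => Fintype.equivOfCardEq (hcard c)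
  exact ⟨Equiv.ofFiberEquiv e, fun i => Equiv.ofFiberEquiv_map e i⟩

end

end Pool.Agent.Lib.H85P
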