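import Pool.Agent.Lib.H85P.P2
import Pool.Agent.Lib.H85P.P3

/-!
# H85P, P4: comparison of absolute values
-/

namespace Pool.Agent.Lib.H85P

open Pool.Agent.Lib.H89N

noncomputable section

/-- PROOF. `p_list` and `p_mset` for `u_i = β_i ^ n`, `v_i = ζ α_i ^ n` (`(β_i ^ n) ^ m = β_i ^ (n m)`): `β_(σ i) ^ n = ζ α_i ^ n`, so `‖β_(σ i)‖ ^ n = ‖α_i‖ ^ n`, `n ≥ 1`. -/
theorem p_top {n : ℕ} (hn : 1 ≤ n) {α β : Fin n → ℂ} {ζ : ℂ} (hζ : ‖ζ‖ = 1) (h : ∀ (m : ℕ) (r : List ℕ), r.sum = n * m →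
      (r.map (hs β)).prod = ζ ^ m * (r.map (hs α)).prod) : ∃ σ : Equiv.Perm (Fin n), ∀ i, ‖β (σ i)‖ = ‖α i‖ := by
  have h1 : ∀ m : ℕ, 1 ≤ m → ∑ i, (β i ^ n) ^ m = ∑ i, (ζ * α i ^ n) ^ m := by
    intro m hm
    have h2 := p_list h m (Nat.one_le_iff_ne_zero.2 (Nat.mul_ne_zero (by omega) (by omega)))
    simp only [← pow_mul, mul_pow]
    rw [h2, Finset.mul_sum]
  obtain ⟨σ, hσ⟩ := p_mset h1
  refine ⟨σ, fun i => ?_⟩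
  have h3 : ‖β (σ i)‖ ^ n = ‖α i‖ ^ n := by
    rw [← norm_pow, hσ i, norm_mul, hζ, one_mul, norm_pow]
  exact (pow_left_inj₀ (norm_nonneg _) (norm_nonneg _) (by omega)).1 h3

end

end Pool.Agent.Lib.H85P
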