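import Pool.Agent.Lib.H85P.S8
import Pool.Agent.Lib.H85P.P4
import Pool.Agent.Lib.H33N.S2

/-!
# H85P, S9: the absolute values of the roots are those of the Satake parameters
-/

namespace Pool.Agent.Lib.H85P

open MeasureTheory Matrix NumberField IsDedekindDomain
open Pool.Agent.Lib.H89N Pool.Agent.Lib.H33W Pool.Agent.Lib.H33N

noncomputable section

variable {n N : ℕ}

theorem s9_cq (hn : 0 < n) {q : ℕ} (hq : q.Prime) : (q : ℂ) ^ tri n * cq n q ^ n = 1 := by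
  have hq0 : (0 : ℝ) < q := by exact_mod_cast hq.pos
  unfold cq
  have h1 : ((q : ℝ) ^ tri n) * (((q : ℝ) ^ (-((n : ℝ) - 1) / 2)) ^ n) = 1 := by
    rw [← Real.rpow_natCast (q : ℝ) (tri n), ← Real.rpow_natCast ((q : ℝ) ^ (-((n : ℝ) - 1) / 2)) n,
      ← Real.rpow_mul hq0.le, ← Real.rpow_add hq0]
    have h2 := s2_tri (n := n) hn
    push_cast at h2
    have h3 : (tri n : ℝ) + -((n : ℝ) - 1) / 2 * n = 0 := by linarith
    rw [h3, Real.rpow_zero]
  exact_mod_cast h1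

/-- PROOF. `p_top` with `ζ = (a ZS)⁻¹` (`‖a ZS‖ = 1`: `zs_norm`). Multiply `star_eq` by `cq ^ (∑ r) = cq ^ (n m)`: `∏ (a (SR (q^j)) cq^j) (a ZS)^m = ∏ hs α j * (q^(tri n) cq^n)^m`, and `q^(tri n) cq^n = 1` (`tri n = n (n-1)/2`: `s2_tri` in `H33N.S2`, `Real.rpow`). -/
theorem abs_eq (hn : 0 < n) (hN : 0 < N) {v : HeightOneSpectrum (𝓞 ℚ)} (hv : ¬nI N ≤ v.asIdeal) {q : ℕ} (hqv : Ideal.absNorm v.asIdeal = q) (hq : q.Prime)
    (hqN : q.Coprime N) {F : XX n N → ℂ} (hF : InvF (GH n N) F) (h0 : F ≠ 0) {a : Set (HH n N) → ℂ}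
    (ha : ∀ S, BS (GH n N) S → TS (GH n N) S F = fun x => a S * F x) {α : Fin n → ℂ} (hα : ∏ i, α i = 1)
    (hD : ∀ g ∈ HG (nI N) v, BS (GH n N) (SDg n N g) ∧ a (SDg n N g) = lamO q α (SDg n N g)) {β : Fin n → ℂ}
    (hβ : ∀ k, a (SR n N (q ^ k)) * cq n q ^ k = hs β k) : ∃ σ : Equiv.Perm (Fin n), ∀ i, ‖β (σ i)‖ = ‖α i‖ := by
  have hq0 : 0 < q := hq.pos
  have hz := zs_bs (N := N) hn hq0 hqN
  have hnorm : ‖a (ZS n N q)‖ = 1 :=
    zs_norm hn hN hq hqN hF (fun x => congrFun (ha _ hz.1) x) h0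
  have haz : a (ZS n N q) ≠ 0 := by
    intro h
    rw [h, norm_zero] at hnorm
    exact zero_ne_one hnorm
  refine p_top (ζ := (a (ZS n N q))⁻¹) hn (by rw [norm_inv, hnorm, inv_one]) (fun m r hr => ?_)
  have hst := star_eq hn hN hv hqv hq hqN hF h0 ha hα hD m r hr
  have hprod : ∀ r : List ℕ, (r.map (hs β)).prod = (r.map fun j => a (SR n N (q ^ j))).prod * cq n q ^ r.sum := by
    intro r
    induction r with
    | nil => simp
    | cons k r ih =>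
      rw [List.map_cons, List.prod_cons, List.map_cons, List.prod_cons, List.sum_cons, ih, ← hβ k, pow_add]
      ring
  rw [hprod r, hr]
  have h1 : (r.map fun j => a (SR n N (q ^ j))).prod = (a (ZS n N q))⁻¹ ^ m * ((r.map (hs α)).prod * ((q : ℂ) ^ tri n) ^ m) := by
    rw [← hst, inv_pow]
    field_simp
  rw [h1, pow_mul]
  calc (a (ZS n N q))⁻¹ ^ m * ((r.map (hs α)).prod * ((q : ℂ) ^ tri n) ^ m) * (cq n q ^ n) ^ m =
      (a (ZS n N q))⁻¹ ^ m * (r.map (hs α)).prod * ((q : ℂ) ^ tri n * cq n q ^ n) ^ m := by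
        rw [mul_pow]; ring
    _ = _ := by rw [s9_cq hn hq, one_pow, mul_one]

end

end Pool.Agent.Lib.H85P
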