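import Pool.Agent.Lib.H85P.F2
import Pool.Agent.Lib.H85P.B6
import Pool.Agent.Lib.H85P.G9
import Pool.Agent.Lib.H85P.S9

/-!
# H85P, F3: the moments of the Satake parameters for integral exponents
-/

namespace Pool.Agent.Lib.H85P

open MeasureTheory Matrix NumberField IsDedekindDomain
open Pool.Agent.Lib.H89N Pool.Agent.Lib.H33W Pool.Agent.Lib.H85S Pool.Agent.Lib.H85N Pool.Agent.Lib.H33N
open scoped nonZeroDivisors ENNReal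

noncomputable section

theorem f3_cop {N : ℕ} {v : HeightOneSpectrum (𝓞 ℚ)} (hv : ¬nI N ≤ v.asIdeal) {q : ℕ} (hqv : Ideal.absNorm v.asIdeal = q) : q.Coprime N := by
  obtain ⟨q', _, h1, h2, _⟩ := den_iff v
  have e : q' = q := by rw [← h1, hqv]
  subst e
  exact (h2 N).1 hv

theorem f3_cq {k q : ℕ} (hq : 0 < q) : ‖cq (k + 1) q‖ = (q : ℝ) ^ (-((k : ℝ) / 2)) := by
  unfold cq
  rw [Complex.norm_real, Real.norm_of_nonneg (Real.rpow_nonneg (Nat.cast_nonneg q) _)]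
  congr 1
  push_cast
  ring

theorem f3_gr {k q : ℕ} (hq : 0 < q) (r : ℕ) : (q : ℝ) ^ (k * r) * ((q : ℝ) ^ (-((k : ℝ) / 2))) ^ r = ((q : ℝ) ^ ((k : ℝ) / 2)) ^ r := by
  have hQ : (0 : ℝ) < q := by exact_mod_cast hq
  rw [← Real.rpow_natCast (q : ℝ) (k * r), ← Real.rpow_natCast ((q : ℝ) ^ (-((k : ℝ) / 2))), ← Real.rpow_mul hQ.le,
    ← Real.rpow_add hQ, ← Real.rpow_natCast ((q : ℝ) ^ ((k : ℝ) / 2)), ← Real.rpow_mul hQ.le]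
  congr 1
  push_cast
  ring

theorem f3_M {k q : ℕ} (hq : 0 < q) : ((q : ℝ) ^ ((k : ℝ) / 2)) ^ ((k + 1) * k) = (q : ℝ) ^ ((((k : ℝ) + 1) * k * k) / 2) := by
  have hQ : (0 : ℝ) < q := by exact_mod_cast hq
  rw [← Real.rpow_natCast, ← Real.rpow_mul hQ.le]
  congr 1
  push_cast
  ring

/-- PROOF. `p_family` gives the orthonormal family `e j`, `a j`, `j < m` (`D` from `sf_xx`). `f2_top` (`s = m`, `ll = lam`) gives the coefficients `A j`. `g_top` for `b`: the finite set `Λ` (at most `2^(n*n)` tuples `u ≤ b`, monotone, `u 0 = 0`), applied to `h = a j (SR (q^k)) cq^k`, `V = Vq q (A j)` (`vq_pia`), `M = q^((n-1)/2)`, `C = 1`, exponent `n` (`sr_norm`, `‖cq‖ = q^(-(n-1)/2)`):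
roots `x_j` with `‖x_j i‖ ≤ M`, and `‖x_j (σ' i)‖ = ‖α j i‖` for a permutation `σ'` (`abs_eq`; `e j ≠ 0` since its norm is one). So `‖α j i‖ ≤ M` and `∏ ‖α j (σ j i)‖^(2 b i) = ∏ ‖x_j (σ' (σ j i))‖^(2 b i) ≤ (2M)^(n(n-1)) ∑_{u ∈ Λ} ‖V_j u‖²`. Sum over `j`, `vq_wA`, `f2_top` for the chains `q^u`: `Ch1` (`q` prime to `N`, monotone, `u 0 = 0`),
`Bnd`: `q^(u i) ≤ q^(b i)`. Convert `ENNReal.ofReal` sums to real numbers. The final constant: `K 2^(n*n) 2^(n(n-1))`, and `M^(n(n-1)) = q^(n(n-1)²/2)`. -/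
theorem f3_top {k : ℕ} (hk : 1 ≤ k) (μ : Measure (GG (k + 1) ℚ)) [μ.IsHaarMeasure] (C : Submodule ℂ (KO (k + 1) → ℂ)) [FiniteDimensional ℂ C]
    (hC : ∀ c ∈ C, Continuous c) (ε : ℝ) (hε : 0 < ε) :
    ∃ K : ℝ, 0 ≤ K ∧ ∀ (N : ℕ) [NeZero N] (v : HeightOneSpectrum (𝓞 ℚ)), ¬nI N ≤ v.asIdeal → ∀ (q : ℕ), Ideal.absNorm v.asIdeal = q → q.Prime →
    ∀ T : ℝ, 1 ≤ T → ∀ b : Fin (k + 1) → ℕ, Monotone b → b 0 = 0 →
    (∀ i : Fin (k + 1), (i : ℕ) < k → (q : ℝ) ^ b i ≤ N * ((N : ℝ) * T) ^ (i : ℕ)) →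
    ((q : ℝ) ^ b (Fin.last k) * (q : ℝ) ^ b ⟨k - 1, by omega⟩ ≤ (N : ℝ) ^ 2 * ((N : ℝ) * T) ^ (2 * k - 1)) →
    ∀ (m : ℕ) (f : Fin m → GG (k + 1) ℚ → ℂ) (lam : Fin m → ℝ) (α : Fin m → Fin (k + 1) → ℂ), LinearIndependent ℂ f →
    (∀ i, MaassK C (nI N) μ (lam i) (f i)) → (∀ i, lam i ≤ T ^ 2) → (∀ i, SatakeF (nI N) v (f i) (α i)) →
    (∀ j i, ‖α j i‖ ≤ (q : ℝ) ^ ((k : ℝ) / 2)) ∧
      ∀ σ : Fin m → Equiv.Perm (Fin (k + 1)), ∑ j, ∏ i, ‖α j (σ j i)‖ ^ (2 * b i) ≤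
        K * (q : ℝ) ^ ((((k : ℝ) + 1) * k * k) / 2) * ((N : ℝ) ^ (k * (k + 2)) * T ^ (k * (k + 3) / 2) * ((N : ℝ) * T) ^ ε) := by
  obtain ⟨K0, hK0, hf2⟩ := f2_top hk μ C hC ε hε
  refine ⟨K0 * (2 ^ ((k + 1) * (k + 1)) * 2 ^ ((k + 1) * k)), by positivity, ?_⟩
  intro N _ v hv q hqv hq T hT b hb hb0 hbd1 hbd2 m f lam α hLI hM hlam hα
  have hN0 : 0 < N := Nat.pos_of_ne_zero (NeZero.ne N)
  have hqN : q.Coprime N := f3_cop hv hqv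
  have hq0 : 0 < q := hq.pos
  have hQ1 : (1 : ℝ) ≤ q := by exact_mod_cast hq.one_lt.le
  obtain ⟨D, hD⟩ := sf_xx (k + 1) N
  obtain ⟨e, a, he, hon, ha, haD⟩ := p_family hC (by omega : 1 ≤ k + 1) hv hqv hq hD hLI hM hα
  obtain ⟨A, hA, hsum⟩ := hf2 N T hT D hD m e lam a he hlam hon ha
  have hne : ∀ j, e j ≠ 0 := by
    intro j h0
    have h1 := hon j j
    rw [if_pos rfl, h0] at h1
    simp at h1
  obtain ⟨Λ, hΛc, hΛ, hg⟩ := g_top hb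
  obtain ⟨M, hMd⟩ : ∃ M : ℝ, M = (q : ℝ) ^ ((k : ℝ) / 2) := ⟨_, rfl⟩
  have hM1 : 1 ≤ M := by
    rw [hMd]
    exact Real.one_le_rpow hQ1 (by positivity)
  have hx : ∀ j, ∃ x : Fin (k + 1) → ℂ, (∀ r, a j (SR (k + 1) N (q ^ r)) * cq (k + 1) q ^ r = hs x r) ∧ (∀ i, ‖x i‖ ≤ M) ∧
      ∀ σ : Equiv.Perm (Fin (k + 1)), ∏ i, ‖x (σ i)‖ ^ (2 * b i) ≤ (2 * M) ^ ((k + 1) * (k + 1 - 1)) * ∑ u ∈ Λ, ‖Vq q (A j) u‖ ^ 2 := by
    intro j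
    obtain ⟨p1, p2⟩ := vq_pia hq hqN (hA j)
    refine hg (fun r => a j (SR (k + 1) N (q ^ r)) * cq (k + 1) q ^ r) (Vq q (A j)) p1 p2 M 1 (k + 1) hM1 fun r => ?_
    have h1 := sr_norm (Nat.succ_pos k) μ (he j).1.toFInv (he j).2.1 (hne j) hq hqN (ha j) r
    have h2 : k + 1 - 1 = k := rfl
    rw [h2] at h1
    rw [norm_mul, norm_pow, f3_cq hq0, one_mul]
    calc ‖a j (SR (k + 1) N (q ^ r))‖ * ((q : ℝ) ^ (-((k : ℝ) / 2))) ^ r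
        ≤ (((r : ℝ) + 1) ^ (k + 1) * (q : ℝ) ^ (k * r)) * ((q : ℝ) ^ (-((k : ℝ) / 2))) ^ r :=
          mul_le_mul_of_nonneg_right h1 (by positivity)
      _ = ((r : ℝ) + 1) ^ (k + 1) * M ^ r := by rw [mul_assoc, f3_gr hq0, hMd]
  choose x hx1 hx2 hx3 using hx
  have hτ : ∀ j, ∃ τ : Equiv.Perm (Fin (k + 1)), ∀ i, ‖x j (τ i)‖ = ‖α j i‖ := fun j =>
    abs_eq (Nat.succ_pos k) hN0 hv hqv hq hqN (inv_gh.1 (he j).1.toFInv.inv) (hne j) (ha j) (hα j).prod (haD j) (hx1 j)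
  choose τ hτ using hτ
  refine ⟨fun j i => ?_, fun σ => ?_⟩
  · rw [← hτ j i, ← hMd]
    exact hx2 j _
  obtain ⟨B, hB⟩ : ∃ B : ℝ, B = K0 * ((N : ℝ) ^ (k * (k + 2)) * T ^ (k * (k + 3) / 2) * ((N : ℝ) * T) ^ ε) := ⟨_, rfl⟩
  have hB0 : 0 ≤ B := by
    rw [hB]
    positivity
  have hu : ∀ u ∈ Λ, ∑ j, ‖Vq q (A j) u‖ ^ 2 ≤ B := by
    intro u hu
    obtain ⟨hum, hub⟩ := hΛ u hu
    have hpw : ∀ i, (q : ℝ) ^ u i ≤ (q : ℝ) ^ b i := fun i => pow_le_pow_right₀ hQ1 (hub i)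
    have hch : Ch1 k N fun i => q ^ u i := by
      refine ⟨⟨fun i => pow_pos hq0 _, fun i => Nat.Coprime.pow_left _ hqN, fun i j hij => pow_dvd_pow q (hum hij)⟩, fun i hi => ?_⟩
      have e0 : i = 0 := Fin.ext hi
      have h1 : u i = 0 := by
        have h2 := hub i
        rw [e0, hb0] at h2
        rw [e0]
        omega
      show q ^ u i = 1
      rw [h1, pow_zero]
    have hbn : Bnd k N ((N : ℝ) * T) fun i => q ^ u i := by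
      refine ⟨fun i hi => ?_, ?_⟩
      · rw [Nat.cast_pow]
        exact (hpw i).trans (hbd1 i hi)
      · rw [Nat.cast_pow, Nat.cast_pow]
        exact (mul_le_mul (hpw _) (hpw _) (by positivity) (by positivity)).trans hbd2
    have h1 := hsum _ hch hbn
    have h2 : ∀ j, wA (k + 1) (A j) 0 (fun i => q ^ u i) = ENNReal.ofReal (‖Vq q (A j) u‖ ^ 2) := fun j => vq_wA hq (A j) u
    rw [Finset.sum_congr rfl fun j _ => h2 j, ← ENNReal.ofReal_sum_of_nonneg fun j _ => by positivity, ← hB] at h1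
    exact (ENNReal.ofReal_le_ofReal_iff hB0).1 h1
  have hj : ∀ j, ∏ i, ‖α j (σ j i)‖ ^ (2 * b i) ≤ (2 * M) ^ ((k + 1) * k) * ∑ u ∈ Λ, ‖Vq q (A j) u‖ ^ 2 := by
    intro j
    have h1 := hx3 j (τ j * σ j)
    have h2 : ∀ i, ‖x j ((τ j * σ j) i)‖ = ‖α j (σ j i)‖ := fun i => hτ j (σ j i)
    rw [Finset.prod_congr rfl fun i _ => by rw [h2 i]] at h1
    exact h1
  have hM0 : 0 ≤ (2 * M) ^ ((k + 1) * k) := by positivity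
  calc ∑ j, ∏ i, ‖α j (σ j i)‖ ^ (2 * b i) ≤ ∑ j, (2 * M) ^ ((k + 1) * k) * ∑ u ∈ Λ, ‖Vq q (A j) u‖ ^ 2 :=
        Finset.sum_le_sum fun j _ => hj j
    _ = (2 * M) ^ ((k + 1) * k) * ∑ u ∈ Λ, ∑ j, ‖Vq q (A j) u‖ ^ 2 := by rw [← Finset.mul_sum, Finset.sum_comm]
    _ ≤ (2 * M) ^ ((k + 1) * k) * ∑ _u ∈ Λ, B := mul_le_mul_of_nonneg_left (Finset.sum_le_sum fun u h => hu u h) hM0
    _ = (2 * M) ^ ((k + 1) * k) * (Λ.card * B) := by rw [Finset.sum_const, nsmul_eq_mul]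
    _ ≤ (2 * M) ^ ((k + 1) * k) * (2 ^ ((k + 1) * (k + 1)) * B) := by
        refine mul_le_mul_of_nonneg_left (mul_le_mul_of_nonneg_right ?_ hB0) hM0
        exact_mod_cast hΛc
    _ = _ := by
        rw [mul_pow, hMd, f3_M hq0, hB]
        ring

end

end Pool.Agent.Lib.H85P
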