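import Pool.Agent.Lib.H85P.F3

/-!
# H85P, F4: the theorem
-/

namespace Pool.Agent.Lib.H85P

open MeasureTheory Matrix NumberField IsDedekindDomain
open Pool.Agent.Lib.H89N Pool.Agent.Lib.H33W Pool.Agent.Lib.H85S Pool.Agent.Lib.H85N Pool.Agent.Lib.H33N

noncomputable section

theorem f4_term {M r x : ℝ} {b : ℕ} (hM : 1 ≤ M) (hr : 0 ≤ r) (hrM : r ≤ M) (hb : (b : ℝ) ≤ x) (hb1 : x < b + 1) :
    r ^ (2 * x) ≤ M ^ 2 * r ^ (2 * b) := by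
  have hM2 : (1 : ℝ) ≤ M ^ 2 := by nlinarith
  rcases hr.eq_or_lt with h | h
  · rw [← h]
    by_cases hx : x = 0
    · have hb0 : b = 0 := by
        have h1 : (b : ℝ) ≤ 0 := by rw [← hx]; exact hb
        have h2 : (b : ℝ) = 0 := le_antisymm h1 (Nat.cast_nonneg b)
        exact_mod_cast h2
      rw [hx, hb0]
      simp only [mul_zero, Real.rpow_zero, pow_zero, mul_one]
      exact hM2
    · rw [Real.zero_rpow (by intro h3; apply hx; linarith)]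
      positivity
  · have e : r ^ (2 * x) = r ^ (2 * (x - b)) * r ^ (2 * b) := by
      rw [← Real.rpow_natCast r (2 * b), ← Real.rpow_add h]
      congr 1
      push_cast
      ring
    rw [e]
    refine mul_le_mul_of_nonneg_right ?_ (by positivity)
    by_cases h1 : r ≤ 1
    · exact (Real.rpow_le_one hr h1 (by linarith)).trans hM2
    · have h2 : r ^ (2 * (x - b)) ≤ r ^ (2 : ℝ) := Real.rpow_le_rpow_of_exponent_le (by linarith) (by linarith)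
      have h3 : r ^ (2 : ℝ) = r ^ 2 := by
        rw [← Real.rpow_natCast]
        norm_num
      rw [h3] at h2
      exact h2.trans (pow_le_pow_left₀ hr hrM 2)

/-- PROOF. `b i = ⌊x i⌋₊` (`x i ≥ 0` by monotonicity and `x 0 = 0`): monotone, `b i ≤ x i < b i + 1`. `‖α‖^(2 x) = ‖α‖^(2 b) ‖α‖^(2 (x - b)) ≤ ‖α‖^(2b) M^2` if `‖α‖ ≤ M`, `M ≥ 1`, `0 ≤ x - b ≤ 1` (also for `α = 0`: if `x = 0` then `b = 0` and both powers are `1`; otherwise `0 ^ (2 x) = 0`). -/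
theorem f4_floor {k : ℕ} {x : Fin (k + 1) → ℝ} (hx : Monotone x) (h0 : x 0 = 0) : ∃ b : Fin (k + 1) → ℕ, Monotone b ∧ b 0 = 0 ∧ (∀ i, (b i : ℝ) ≤ x i) ∧
    ∀ (M : ℝ) (α : Fin (k + 1) → ℂ), 1 ≤ M → (∀ i, ‖α i‖ ≤ M) → ∏ i, ‖α i‖ ^ (2 * x i) ≤ M ^ (2 * (k + 1)) * ∏ i, ‖α i‖ ^ (2 * b i) := by
  have hx0 : ∀ i, 0 ≤ x i := fun i => by
    rw [← h0]
    exact hx (Fin.zero_le i)
  refine ⟨fun i => ⌊x i⌋₊, fun i j hij => Nat.floor_mono (hx hij), by simp [h0], fun i => Nat.floor_le (hx0 i), ?_⟩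
  intro M α hM hα
  have e : M ^ (2 * (k + 1)) * ∏ i, ‖α i‖ ^ (2 * ⌊x i⌋₊) = ∏ i, (M ^ 2 * ‖α i‖ ^ (2 * ⌊x i⌋₊)) := by
    rw [Finset.prod_mul_distrib, Finset.prod_const, Finset.card_univ, Fintype.card_fin, ← pow_mul]
  rw [e]
  refine Finset.prod_le_prod (fun i _ => by positivity) fun i _ => ?_
  exact f4_term hM (norm_nonneg _) (hα i) (Nat.floor_le (hx0 i)) (Nat.lt_floor_add_one _)

/-- PROOF. `n = k + 1`, `𝔫 = nI N` (`nI_absNorm`), `p` prime (`den_iff`). `b` from `f4_floor`; the conditions of `f3_top` on `b` follow from those on `x` (`p^(b i) ≤ p^(x i)`, `N (N T)^i = N^(i+1) T^i`, `N² (N T)^(2k-1) = N^(2n-1) T^(2n-3)`). `f3_top` and `f4_floor` for the functions `α j ∘ σ j`, `M = p^((n-1)/2)`: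
`∏ ‖..‖^(2 x i) ≤ M^(2n) ∏ ‖..‖^(2 b i)`, `M^(2n) = p^(n(n-1))`, and `n(n-1) + n(n-1)²/2 ≤ n³`. `(N T)^ε = N^ε T^ε`, `k(k+3)/2 = (n-1)(n+2)/2` (natural number division is exact: `k(k+3)` is even), `k(k+2) = n² - 1`. -/
theorem shape_top (n : ℕ) (hn : 2 ≤ n) (μ : Measure (GG n ℚ)) [μ.IsHaarMeasure] (V : Submodule ℂ (KO n → ℂ)) [FiniteDimensional ℂ V]
    (hV : ∀ g ∈ V, Continuous g) (ε : ℝ) (hε : 0 < ε) :
    ∃ C : ℝ, ∀ (v : HeightOneSpectrum (𝓞 ℚ)) (𝔫 : Ideal (𝓞 ℚ)), 𝔫 ≠ ⊥ → ¬𝔫 ≤ v.asIdeal → ∀ T : ℝ, 1 ≤ T →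
    ∀ (x : Fin n → ℝ), Monotone x → (∀ i : Fin n, (i : ℕ) = 0 → x i = 0) →
    (∀ i : Fin n, 1 ≤ (i : ℕ) → (i : ℕ) + 1 < n →
      (Ideal.absNorm v.asIdeal : ℝ) ^ x i ≤ (Ideal.absNorm 𝔫 : ℝ) ^ ((i : ℕ) + 1) * T ^ (i : ℕ)) →
    (∀ i j : Fin n, (i : ℕ) + 2 = n → (j : ℕ) + 1 = n →
      (Ideal.absNorm v.asIdeal : ℝ) ^ (x i + x j) ≤ (Ideal.absNorm 𝔫 : ℝ) ^ (2 * n - 1) * T ^ (2 * n - 3)) →
    ∀ (m : ℕ) (f : Fin m → GG n ℚ → ℂ) (lam : Fin m → ℝ) (α : Fin m → Fin n → ℂ) (σ : Fin m → Equiv.Perm (Fin n)), LinearIndependent ℂ f →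
    (∀ i, MaassK V 𝔫 μ (lam i) (f i)) → (∀ i, lam i ≤ T ^ 2) → (∀ i, SatakeF 𝔫 v (f i) (α i)) →
    ∑ i, ∏ j, ‖α i (σ i j)‖ ^ (2 * x j) ≤ C * (Ideal.absNorm v.asIdeal : ℝ) ^ (n ^ 3) * (Ideal.absNorm 𝔫 : ℝ) ^ ((n : ℝ) ^ 2 - 1 + ε) *
      T ^ (((n : ℝ) - 1) * (n + 2) / 2 + ε) := by
  obtain ⟨k, rfl⟩ : ∃ k, n = k + 1 := ⟨n - 1, by omega⟩
  have hk : 1 ≤ k := by omega
  obtain ⟨K, hK0, hK⟩ := f3_top hk μ V hV ε hε
  refine ⟨K, ?_⟩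
  intro v 𝔫 h0 hv T hT x hx hx0 hc1 hc2 m f lam α σ hLI hM hlam hS
  obtain ⟨N, hN, rfl, hNn⟩ := nI_absNorm h0
  haveI : NeZero N := ⟨by omega⟩
  obtain ⟨q, hqp, hq, -, -⟩ := den_iff v
  rw [hq, hNn] at hc2 ⊢
  simp only [hq, hNn] at hc1
  have hq1 : (1 : ℝ) ≤ q := by exact_mod_cast hqp.one_lt.le
  have hq0 : (0 : ℝ) < q := by linarith
  have hN1 : (1 : ℝ) ≤ N := by exact_mod_cast hN
  have hN0 : (0 : ℝ) < N := by linarith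
  have hT0 : (0 : ℝ) < T := by linarith
  obtain ⟨b, hb1, hb2, hb3, hb4⟩ := f4_floor hx (hx0 0 (by simp))
  have hbx : ∀ i, (q : ℝ) ^ b i ≤ (q : ℝ) ^ x i := fun i => by
    rw [← Real.rpow_natCast]
    exact Real.rpow_le_rpow_of_exponent_le hq1 (hb3 i)
  have hcb1 : ∀ i : Fin (k + 1), (i : ℕ) < k → (q : ℝ) ^ b i ≤ N * ((N : ℝ) * T) ^ (i : ℕ) := by
    intro i hi
    rcases Nat.eq_zero_or_pos (i : ℕ) with h | h
    · have : i = 0 := Fin.ext (by simpa using h)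
      rw [this, hb2]
      simpa using hN1
    · refine (hbx i).trans ((hc1 i h (by omega)).trans (le_of_eq ?_))
      rw [mul_pow, pow_succ]
      ring
  have hcb2 : (q : ℝ) ^ b (Fin.last k) * (q : ℝ) ^ b ⟨k - 1, by omega⟩ ≤ (N : ℝ) ^ 2 * ((N : ℝ) * T) ^ (2 * k - 1) := by
    have h1 := hc2 ⟨k - 1, by omega⟩ (Fin.last k) (by simp only; omega) (by simp)
    rw [Real.rpow_add hq0] at h1
    have h2 := mul_le_mul (hbx (Fin.last k)) (hbx ⟨k - 1, by omega⟩) (by positivity) (by positivity)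
    refine h2.trans ?_
    rw [mul_comm]
    refine h1.trans (le_of_eq ?_)
    rw [mul_pow, ← mul_assoc, ← pow_add]
    congr 2
    omega
  obtain ⟨hA, hB⟩ := hK N v hv q hq hqp T hT b hb1 hb2 hcb1 hcb2 m f lam α hLI hM hlam hS
  have hB' := hB σ
  have hMq : (1 : ℝ) ≤ (q : ℝ) ^ ((k : ℝ) / 2) := Real.one_le_rpow hq1 (by positivity)
  have hsum : ∑ i, ∏ j, ‖α i (σ i j)‖ ^ (2 * x j) ≤ ((q : ℝ) ^ ((k : ℝ) / 2)) ^ (2 * (k + 1)) * ∑ i, ∏ j, ‖α i (σ i j)‖ ^ (2 * b j) := by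
    rw [Finset.mul_sum]
    refine Finset.sum_le_sum fun i _ => ?_
    exact hb4 _ (fun j => α i (σ i j)) hMq fun j => hA i (σ i j)
  refine hsum.trans ((mul_le_mul_of_nonneg_left hB' (by positivity)).trans ?_)
  obtain ⟨d, hd⟩ : ∃ d, k * (k + 3) = 2 * d := by
    rcases Nat.even_or_odd k with h | h
    · obtain ⟨r, hr⟩ := h
      exact ⟨r * (k + 3), by rw [hr]; ring⟩
    · obtain ⟨r, hr⟩ := h
      exact ⟨k * (r + 2), by rw [hr]; ring⟩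
  have hd2 : k * (k + 3) / 2 = d := by rw [hd]; omega
  have hdR : (d : ℝ) = (((k + 1 : ℕ) : ℝ) - 1) * ((k + 1 : ℕ) + 2) / 2 := by
    have h1 : ((k * (k + 3) : ℕ) : ℝ) = ((2 * d : ℕ) : ℝ) := by rw [hd]
    push_cast at h1 ⊢
    linarith
  have hT' : T ^ ((((k + 1 : ℕ) : ℝ) - 1) * ((k + 1 : ℕ) + 2) / 2 + ε) = T ^ d * T ^ ε := by
    rw [← hdR, Real.rpow_add hT0, Real.rpow_natCast]
  have hN' : (N : ℝ) ^ (((k + 1 : ℕ) : ℝ) ^ 2 - 1 + ε) = (N : ℝ) ^ (k * (k + 2)) * (N : ℝ) ^ ε := by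
    rw [← Real.rpow_natCast (N : ℝ) (k * (k + 2)), ← Real.rpow_add hN0]
    congr 1
    push_cast
    ring
  have hNT : ((N : ℝ) * T) ^ ε = (N : ℝ) ^ ε * T ^ ε := Real.mul_rpow hN0.le hT0.le
  have hqq : ((q : ℝ) ^ ((k : ℝ) / 2)) ^ (2 * (k + 1)) * (q : ℝ) ^ ((((k : ℝ) + 1) * k * k) / 2) ≤ (q : ℝ) ^ ((k + 1) ^ 3) := by
    rw [← Real.rpow_natCast ((q : ℝ) ^ ((k : ℝ) / 2)), ← Real.rpow_mul hq0.le, ← Real.rpow_add hq0, ← Real.rpow_natCast (q : ℝ) ((k + 1) ^ 3)]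
    apply Real.rpow_le_rpow_of_exponent_le hq1
    push_cast
    have hk0 : (0 : ℝ) ≤ k := Nat.cast_nonneg k
    nlinarith [mul_nonneg hk0 hk0, mul_nonneg (mul_nonneg hk0 hk0) hk0]
  rw [hT', hN', hNT, hd2]
  have hrest : 0 ≤ K * ((N : ℝ) ^ (k * (k + 2)) * T ^ d * ((N : ℝ) ^ ε * T ^ ε)) := by positivity
  calc ((q : ℝ) ^ ((k : ℝ) / 2)) ^ (2 * (k + 1)) * (K * (q : ℝ) ^ ((((k : ℝ) + 1) * k * k) / 2) * ((N : ℝ) ^ (k * (k + 2)) * T ^ d * ((N : ℝ) ^ ε * T ^ ε)))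
      = (((q : ℝ) ^ ((k : ℝ) / 2)) ^ (2 * (k + 1)) * (q : ℝ) ^ ((((k : ℝ) + 1) * k * k) / 2)) *
          (K * ((N : ℝ) ^ (k * (k + 2)) * T ^ d * ((N : ℝ) ^ ε * T ^ ε))) := by ring
    _ ≤ (q : ℝ) ^ ((k + 1) ^ 3) * (K * ((N : ℝ) ^ (k * (k + 2)) * T ^ d * ((N : ℝ) ^ ε * T ^ ε))) :=
        mul_le_mul_of_nonneg_right hqq hrest
    _ = K * (q : ℝ) ^ ((k + 1) ^ 3) * ((N : ℝ) ^ (k * (k + 2)) * (N : ℝ) ^ ε) * (T ^ d * T ^ ε) := by ring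

end

end Pool.Agent.Lib.H85P
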