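import Pool.Agent.Lib.H85P.GD

/-!
# H85P, G1: complete homogeneous polynomials as sums over `comps`
-/

namespace Pool.Agent.Lib.H85P

open Pool.Agent.Lib.H89N Pool.Agent.Lib.H33N

noncomputable section

theorem g1_mem {n k : ℕ} {g : Fin n → ℕ} : g ∈ comps n k ↔ ∑ i, g i = k := by
  unfold comps
  rw [Finset.mem_filter, Fintype.mem_piFinset]
  refine ⟨fun h => h.2, fun h => ⟨fun i => ?_, h⟩⟩
  rw [Finset.mem_range, Nat.lt_succ_iff, ← h]
  exact Finset.single_le_sum (f := g) (fun _ _ => Nat.zero_le _) (Finset.mem_univ i)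

/-- PROOF. `hs x k` is the sum over `Sym (Fin n) k` of the products. Either the bijection of `Sym (Fin n) k` with the functions `g : Fin n → ℕ` with sum `k` (multiplicities; `Finset.sum_bij'`), or induction on `n` with `hs_sum` (`H89N.HS`): the sum over `g ∈ comps (n+1) k` is the sum over `g 0 = j ≤ k` and `g' ∈ comps n (k - j)`
(`Fin.cons`), `hs_nil` for `n = 0` (`comps 0 k` is `{0}` if `k = 0` and empty otherwise). -/
theorem hs_comps {n : ℕ} (x : Fin n → ℂ) (k : ℕ) : hs x k = ∑ g ∈ comps n k, ∏ i, x i ^ g i := by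
  induction n generalizing k with
  | zero =>
    rw [hs_nil]
    by_cases hk : k = 0
    · subst hk
      rw [if_pos rfl]
      have h : comps 0 0 = {(fun i => 0)} := by
        ext g
        rw [g1_mem, Finset.mem_singleton]
        refine ⟨fun _ => funext fun i => i.elim0, fun h => by simp⟩
      rw [h, Finset.sum_singleton]
      simp
    · rw [if_neg hk]
      symm
      refine Finset.sum_eq_zero fun g hg => ?_
      rw [g1_mem] at hg
      exact absurd (by simpa using hg.symm) hk
  | succ n ih =>
    rw [hs_sum]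
    have h1 : ∀ m ∈ Finset.range (k + 1), x 0 ^ (k - m) * hs (fun i => x i.succ) m =
        ∑ g ∈ comps n m, x 0 ^ (k - m) * ∏ i, x (Fin.succ i) ^ g i := by
      intro m _
      rw [ih (fun i => x i.succ) m, Finset.mul_sum]
    rw [Finset.sum_congr rfl h1, Finset.sum_sigma']
    refine Finset.sum_bij' (fun p _ => (Fin.cons (k - p.1) p.2 : Fin (n + 1) → ℕ))
      (fun g _ => ⟨k - g 0, Fin.tail g⟩) ?_ ?_ ?_ ?_ ?_
    · intro p hp
      rw [Finset.mem_sigma, Finset.mem_range, g1_mem] at hp
      rw [g1_mem, Fin.sum_univ_succ]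
      simp only [Fin.cons_zero, Fin.cons_succ]
      have := hp.2
      omega
    · intro g hg
      rw [g1_mem, Fin.sum_univ_succ] at hg
      rw [Finset.mem_sigma, Finset.mem_range, g1_mem]
      simp only [Fin.tail]
      omega
    · intro p hp
      rw [Finset.mem_sigma, Finset.mem_range] at hp
      simp only [Fin.cons_zero, Fin.tail_cons]
      have : k - (k - p.1) = p.1 := by omega
      rw [this]
    · intro g hg
      rw [g1_mem, Fin.sum_univ_succ] at hg
      simp only
      have : k - (k - g 0) = g 0 := by omega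
      rw [this]
      exact Fin.cons_self_tail g
    · intro p hp
      rw [Fin.prod_univ_succ]
      simp only [Fin.cons_zero, Fin.cons_succ]

end

end Pool.Agent.Lib.H85P
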