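import Pool.Agent.Lib.H85P.GD
import Pool.Agent.Lib.H33N.A7

/-!
# H85P, G10: normalised coefficients
-/

namespace Pool.Agent.Lib.H85P

open Pool.Agent.Lib.H89N Pool.Agent.Lib.H33N

noncomputable section

/-- `q ^ (-(n-1)/2)`. -/
def cq (n q : ℕ) : ℂ := (((q : ℝ) ^ (-((n : ℝ) - 1) / 2) : ℝ) : ℂ)

/-- The normalised coefficients at the prime `q`. -/
def Vq {n : ℕ} (q : ℕ) (A : (Fin n → ℕ) → ℂ) (l : Fin n → ℕ) : ℂ := A (fun i => q ^ l i) * cq n q ^ ∑ i, l i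

/-- PROOF. `Sys.pi` for `r = q ^ k` and the chain `q ^ l`, `a6_strips` (`H33N.A6`) with `μ = 1`; the elements of `hst n k l` have sum `k`. -/
theorem vq_pia {n N q : ℕ} (hq : q.Prime) (hN : q.Coprime N) {L : ℕ → ℂ} {A : (Fin n → ℕ) → ℂ} (hA : Sys n N L A) :
    PIa n (fun k => L (q ^ k) * cq n q ^ k) (Vq q A) ∧ Vq q A 0 = 1 := by
  refine ⟨fun k l hl => ?_, ?_⟩
  · have hch : IsCh n N (fun i => q ^ l i * (fun _ => 1 : Fin n → ℕ) i) := by
      refine ⟨fun i => by simpa using pow_pos hq.pos (l i), fun i => ?_, fun i j hij => ?_⟩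
      · simpa using Nat.Coprime.pow_left (l i) hN
      · simpa using pow_dvd_pow q (hl hij)
    have h := hA.pi (q ^ k) (pow_pos hq.pos k) (Nat.Coprime.pow_left k hN) _ hch
    rw [a6_strips hq (μ := fun _ => 1) (fun _ => Nat.one_pos)
      (fun _ => fun h => hq.one_lt.ne' (Nat.dvd_one.1 h)) (fun _ _ _ => dvd_rfl)] at h
    simp only [mul_one] at h
    unfold Vq
    have h2 : ∀ g ∈ hst n k l, A (fun i => q ^ (g + l) i) * cq n q ^ ∑ i, (g + l) i =
        A (fun i => q ^ (g + l) i) * (cq n q ^ k * cq n q ^ ∑ i, l i) := by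
      intro g hg
      rw [a6_mem_hst] at hg
      rw [← pow_add, ← hg.2.1, ← Finset.sum_add_distrib]
      rfl
    rw [Finset.sum_congr rfl h2, ← Finset.sum_mul, ← h]
    ring
  · unfold Vq
    have h1 : (fun i : Fin n => q ^ (0 : Fin n → ℕ) i) = 1 := by
      funext i
      simp
    rw [h1, hA.one]
    simp

/-- PROOF. `‖cq‖² = q ^ (-(n-1))`, `∏ q ^ (l i) = q ^ (∑ l i)`. -/
theorem vq_wA {n q : ℕ} (hq : q.Prime) (A : (Fin n → ℕ) → ℂ) (l : Fin n → ℕ) :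
    wA n A 0 (fun i => q ^ l i) = ENNReal.ofReal (‖Vq q A l‖ ^ 2) := by
  unfold wA Vq
  congr 1
  have hQ : (0 : ℝ) ≤ (q : ℝ) := Nat.cast_nonneg q
  have h1 : ‖cq n q‖ = (q : ℝ) ^ (-((n : ℝ) - 1) / 2) := by
    unfold cq
    rw [Complex.norm_real, Real.norm_of_nonneg (Real.rpow_nonneg hQ _)]
  rw [norm_mul, norm_pow, h1, mul_pow]
  congr 1
  rw [Finset.prod_pow_eq_pow_sum, Nat.cast_pow, ← Real.rpow_natCast, ← Real.rpow_mul hQ,
    ← Real.rpow_natCast, ← Real.rpow_natCast, ← Real.rpow_mul hQ, ← Real.rpow_mul hQ]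
  congr 1
  push_cast
  ring

end

end Pool.Agent.Lib.H85P
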