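import Pool.Agent.Lib.H85P.GD
import Pool.Agent.Lib.H33N.A3

/-!
# H85P, G2: elementary symmetric operators
-/

namespace Pool.Agent.Lib.H85P

open Pool.Agent.Lib.H89N Pool.Agent.Lib.H33N

noncomputable section

/-- PROOF. By `hB` for `k - m` at `b + ind T`: `h (k - m) * eo m B b = ∑_{|T| = m} ∑_{g ∈ comps n (k - m)} B (b + ind T + g)`. The pairs `(T, g)`, `|T| = m ≤ k`, `g ∈ comps n (k - m)`, correspond to the pairs `(T, g')`, `g' = ind T + g ∈ comps n k`, `T ⊆ {j : 1 ≤ g' j}`. So the sum over `m ≤ k` is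
`∑_{g' ∈ comps n k} B (b + g') ∑_{T ⊆ {j : 1 ≤ g' j}} (-1)^|T|`, and the inner sum is `1` if `g' = 0` (only if `k = 0`) and `0` otherwise (`Finset.sum_powerset_neg_one_pow_card`). Compare `pieri_inv` in `H33N.A3` (`a3_T` there is the same step for one `T`). -/
theorem eo_rec {n : ℕ} {h : ℕ → ℂ} {B : (Fin n → ℕ) → ℂ} (hB : ∀ k b, h k * B b = ∑ g ∈ comps n k, B (b + g)) (k : ℕ) (b : Fin n → ℕ) :
    ∑ m ∈ Finset.range (k + 1), (-1) ^ m * h (k - m) * eo m B b = if k = 0 then B b else 0 := by
  classical
  have h1 : ∑ m ∈ Finset.range (k + 1), (-1) ^ m * h (k - m) * eo m B b =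
      ∑ T ∈ (Finset.univ : Finset (Fin n)).powerset,
        (-1 : ℂ) ^ T.card * ((if T.card ≤ k then h (k - T.card) else 0) * B (b + a3_ind T)) := by
    have h2 : ∑ T ∈ (Finset.univ : Finset (Fin n)).powerset,
        (-1 : ℂ) ^ T.card * ((if T.card ≤ k then h (k - T.card) else 0) * B (b + a3_ind T)) =
        ∑ T ∈ ((Finset.univ : Finset (Fin n)).powerset).filter (fun T => T.card ∈ Finset.range (k + 1)),
        (-1 : ℂ) ^ T.card * (h (k - T.card) * B (b + a3_ind T)) := by
      rw [Finset.sum_filter]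
      refine Finset.sum_congr rfl fun T _ => ?_
      by_cases hT : T.card ≤ k
      · rw [if_pos hT, if_pos (Finset.mem_range.2 (by omega))]
      · rw [if_neg hT, if_neg (fun h' => hT (by have := Finset.mem_range.1 h'; omega))]
        ring
    rw [h2, ← Finset.sum_fiberwise_of_maps_to (s := ((Finset.univ : Finset (Fin n)).powerset).filter
      (fun T => T.card ∈ Finset.range (k + 1))) (t := Finset.range (k + 1)) (g := fun T => T.card)
      (fun T hT => (Finset.mem_filter.1 hT).2)]
    refine Finset.sum_congr rfl fun m hm => ?_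
    unfold eo
    rw [Finset.mul_sum]
    refine Finset.sum_congr ?_ fun T hT => ?_
    · ext T
      simp only [Finset.mem_powersetCard, Finset.mem_filter, Finset.mem_powerset]
      constructor
      · rintro ⟨h3, h4⟩
        exact ⟨⟨h3, by rw [h4]; exact hm⟩, h4⟩
      · rintro ⟨⟨h3, _⟩, h4⟩
        exact ⟨h3, h4⟩
    · have h5 : T.card = m := (Finset.mem_filter.1 hT).2
      have h6 : (ind T : Fin n → ℕ) = a3_ind T := rfl
      rw [h5, h6]
      ring
  rw [h1]
  have h2 : ∀ T ∈ (Finset.univ : Finset (Fin n)).powerset,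
      (-1 : ℂ) ^ T.card * ((if T.card ≤ k then h (k - T.card) else 0) * B (b + a3_ind T)) =
      ∑ g ∈ comps n k, if (∀ j ∈ T, 1 ≤ g j) then (-1 : ℂ) ^ T.card * B (b + g) else 0 := by
    intro T _
    rw [a3_T hB k b T, Finset.mul_sum, Finset.sum_filter]
  rw [Finset.sum_congr rfl h2, Finset.sum_comm]
  have h3 : ∀ g ∈ comps n k, (∑ T ∈ (Finset.univ : Finset (Fin n)).powerset,
      if (∀ j ∈ T, 1 ≤ g j) then (-1 : ℂ) ^ T.card * B (b + g) else 0) =
      if k = 0 then B b else 0 := by
    intro g hg
    rw [a3_mem] at hg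
    have h4 : (∑ T ∈ (Finset.univ : Finset (Fin n)).powerset,
        if (∀ j ∈ T, 1 ≤ g j) then (-1 : ℂ) ^ T.card * B (b + g) else 0) =
        (∑ T ∈ ((Finset.univ : Finset (Fin n)).filter fun j => 1 ≤ g j).powerset, (-1 : ℂ) ^ T.card) *
          B (b + g) := by
      rw [← Finset.sum_filter, Finset.sum_mul]
      refine Finset.sum_congr ?_ fun _ _ => rfl
      ext T
      simp only [Finset.mem_filter, Finset.mem_powerset]
      constructor
      · intro hT x hx
        rw [Finset.mem_filter]
        exact ⟨hT.1 hx, hT.2 x hx⟩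
      · intro hT
        exact ⟨fun x hx => (Finset.mem_filter.1 (hT hx)).1, fun x hx => (Finset.mem_filter.1 (hT hx)).2⟩
    have h5 : (∑ T ∈ ((Finset.univ : Finset (Fin n)).filter fun j => 1 ≤ g j).powerset, (-1 : ℂ) ^ T.card) =
        if (Finset.univ : Finset (Fin n)).filter (fun j => 1 ≤ g j) = ∅ then 1 else 0 := by
      have h6 := Finset.sum_powerset_neg_one_pow_card (x := (Finset.univ : Finset (Fin n)).filter fun j => 1 ≤ g j)
      have h7 := congrArg (fun z : ℤ => (z : ℂ)) h6
      push_cast at h7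
      exact h7
    rw [h4, h5]
    by_cases hk : k = 0
    · have hg0 : g = 0 := by
        funext j
        have h8 : g j ≤ ∑ i, g i := Finset.single_le_sum (fun _ _ => Nat.zero_le _) (Finset.mem_univ j)
        have h9 : g j = 0 := by omega
        exact h9
      rw [if_pos hk, if_pos, one_mul, hg0, add_zero]
      rw [Finset.filter_eq_empty_iff]
      intro j _
      rw [hg0]
      simp
    · rw [if_neg hk, if_neg, zero_mul]
      intro h7
      rw [Finset.filter_eq_empty_iff] at h7
      apply hk
      rw [← hg]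
      refine Finset.sum_eq_zero fun j hj => ?_
      have := h7 hj
      omega
  rw [Finset.sum_congr rfl h3]
  by_cases hk : k = 0
  · rw [if_pos hk, Finset.sum_const, nsmul_eq_mul]
    have h8 : comps n k = {0} := by
      ext g
      rw [a3_mem, Finset.mem_singleton]
      constructor
      · intro hg
        funext j
        have h8 : g j ≤ ∑ i, g i := Finset.single_le_sum (fun _ _ => Nat.zero_le _) (Finset.mem_univ j)
        have h9 : g j = 0 := by omega
        exact h9
      · intro hg
        rw [hg, hk]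
        simp
    rw [h8]
    simp
  · rw [if_neg hk]
    simp

end

end Pool.Agent.Lib.H85P
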