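import Pool.Agent.Lib.H85P.G1
import Pool.Agent.Lib.H85P.G2

/-!
# H85P, G3: the relation between elementary and complete symmetric polynomials
-/

namespace Pool.Agent.Lib.H85P

open Pool.Agent.Lib.H89N Pool.Agent.Lib.H33N

noncomputable section

/-- PROOF. `eo_rec` for `B b = ∏ x_i ^ (b i)`, `h k = hs x k = ∑_{g ∈ comps n k} ∏ x_i ^ (g i)` (`hs_comps`, `pow_add`), at `b = 0`: `eo m B 0 = es x m`, `B 0 = 1`. -/
theorem es_rec {n : ℕ} (x : Fin n → ℂ) (k : ℕ) :
    ∑ m ∈ Finset.range (k + 1), (-1) ^ m * hs x (k - m) * es x m = if k = 0 then 1 else 0 := by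
  have hB : ∀ (k : ℕ) (b : Fin n → ℕ), hs x k * (∏ i, x i ^ b i) =
      ∑ g ∈ comps n k, (fun b : Fin n → ℕ => ∏ i, x i ^ b i) (b + g) := by
    intro k b
    rw [hs_comps, Finset.sum_mul]
    refine Finset.sum_congr rfl fun g _ => ?_
    rw [← Finset.prod_mul_distrib]
    refine Finset.prod_congr rfl fun i _ => ?_
    rw [Pi.add_apply, pow_add, mul_comm]
  have h := eo_rec (h := hs x) (B := fun b : Fin n → ℕ => ∏ i, x i ^ b i) hB k 0
  have h1 : ∀ m, eo m (fun b : Fin n → ℕ => ∏ i, x i ^ b i) 0 = es x m := by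
    intro m
    unfold eo es
    refine Finset.sum_congr rfl fun T _ => ?_
    simp only [Pi.add_apply, Pi.zero_apply, zero_add, ind, pow_ite, pow_one, pow_zero]
    rw [Finset.prod_ite_mem, Finset.univ_inter]
  simp only [h1] at h
  rw [h]
  simp

/-- PROOF. `es x m` is the elementary symmetric polynomial; `Multiset.prod_X_sub_X_eq_sum_esymm`, `Finset.prod_X_sub...` or `Finset.prod_add` (expansion of the product over the subsets). -/
theorem es_poly {n : ℕ} {R : Type} [CommRing R] (x : Fin n → R) :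
    ∏ i, (Polynomial.X - Polynomial.C (x i)) =
      ∑ m ∈ Finset.range (n + 1), Polynomial.C ((-1) ^ m * es x m) * Polynomial.X ^ (n - m) := by
  have h := Multiset.prod_X_sub_X_eq_sum_esymm ((Finset.univ : Finset (Fin n)).val.map x)
  rw [Multiset.map_map, Multiset.card_map] at h
  have hc : Multiset.card (Finset.univ : Finset (Fin n)).val = n := by
    rw [Finset.card_val, Finset.card_univ, Fintype.card_fin]
  rw [hc] at h
  have h2 : (Multiset.map ((fun t => Polynomial.X - Polynomial.C t) ∘ x)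
      (Finset.univ : Finset (Fin n)).val).prod =
      ∏ i, (Polynomial.X - Polynomial.C (x i)) := rfl
  rw [h2] at h
  rw [h]
  refine Finset.sum_congr rfl fun m _ => ?_
  rw [Finset.esymm_map_val]
  unfold es
  rw [map_mul, map_pow, map_neg, map_one, mul_assoc]

end

end Pool.Agent.Lib.H85P
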