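import Pool.Agent.Lib.H85P.G3

/-!
# H85P, G4: the roots of a solution of the Pieri rule
-/

namespace Pool.Agent.Lib.H85P

open Pool.Agent.Lib.H89N Pool.Agent.Lib.H33N

noncomputable section

theorem g4_eo_zero {n : ℕ} (B : (Fin n → ℕ) → ℂ) (b : Fin n → ℕ) : eo 0 B b = B b := by
  unfold eo
  rw [Finset.powersetCard_zero, Finset.sum_singleton]
  have h : b + ind ∅ = b := by
    funext i
    simp [ind]
  rw [h]

theorem g4_es_zero {n : ℕ} {R : Type} [CommRing R] (x : Fin n → R) : es x 0 = 1 := by
  unfold es
  rw [Finset.powersetCard_zero, Finset.sum_singleton, Finset.prod_empty]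

theorem g4_eo_big {n m : ℕ} (hm : n < m) (B : (Fin n → ℕ) → ℂ) (b : Fin n → ℕ) :
    eo m B b = 0 := by
  unfold eo
  rw [Finset.powersetCard_eq_empty.mpr, Finset.sum_empty]
  rw [Finset.card_univ, Fintype.card_fin]
  exact hm

theorem g4_es_big {n m : ℕ} {R : Type} [CommRing R] (hm : n < m) (x : Fin n → R) :
    es x m = 0 := by
  unfold es
  rw [Finset.powersetCard_eq_empty.mpr, Finset.sum_empty]
  rw [Finset.card_univ, Fintype.card_fin]
  exact hm

theorem g4_coeff {n : ℕ} (a : ℕ → ℂ) {m : ℕ} (hm : m ≤ n) :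
    (∑ j ∈ Finset.range (n + 1), Polynomial.C (a j) * Polynomial.X ^ (n - j)).coeff (n - m) =
      a m := by
  rw [Polynomial.finsetSum_coeff, Finset.sum_eq_single m]
  · rw [Polynomial.coeff_C_mul_X_pow, if_pos rfl]
  · intro j hj hjm
    rw [Finset.mem_range] at hj
    rw [Polynomial.coeff_C_mul_X_pow, if_neg (by omega)]
  · intro hm'
    exact absurd (Finset.mem_range.mpr (by omega)) hm'

theorem g4_roots {n : ℕ} (a : ℕ → ℂ) (ha : a 0 = 1) : ∃ x : Fin n → ℂ,
    ∑ j ∈ Finset.range (n + 1), Polynomial.C (a j) * Polynomial.X ^ (n - j) =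
      ∏ i, (Polynomial.X - Polynomial.C (x i)) := by
  set p : Polynomial ℂ :=
    ∑ j ∈ Finset.range (n + 1), Polynomial.C (a j) * Polynomial.X ^ (n - j) with hp
  have hdeg : p.natDegree ≤ n := by
    rw [hp]
    refine Polynomial.natDegree_sum_le_of_forall_le _ _ fun j hj => ?_
    refine (Polynomial.natDegree_C_mul_X_pow_le _ _).trans (Nat.sub_le _ _)
  have hcoef : p.coeff n = 1 := by
    have := g4_coeff (n := n) a (Nat.zero_le n)
    rw [Nat.sub_zero, ha] at this
    exact this
  have hmon : p.Monic := Polynomial.monic_of_natDegree_le_of_coeff_eq_one n hdeg hcoef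
  have hnd : p.natDegree = n := by
    apply le_antisymm hdeg
    apply Polynomial.le_natDegree_of_ne_zero
    rw [hcoef]
    exact one_ne_zero
  have hspl : p.Splits := IsAlgClosed.splits p
  have hcard : p.roots.card = n := by
    rw [← hnd]
    exact hspl.natDegree_eq_card_roots.symm
  have hprod : (p.roots.map fun t => Polynomial.X - Polynomial.C t).prod = p := by
    have := hspl.eq_prod_roots
    rw [hmon.leadingCoeff, Polynomial.C_1, one_mul] at this
    exact this.symm
  have hlen : p.roots.toList.length = n := by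
    rw [Multiset.length_toList, hcard]
  refine ⟨fun i => p.roots.toList.get (i.cast hlen.symm), ?_⟩
  refine hprod.symm.trans ?_
  have h1 : (p.roots.map fun t => Polynomial.X - Polynomial.C t).prod =
      (p.roots.toList.map fun t => Polynomial.X - Polynomial.C t).prod := by
    conv_lhs => rw [← Multiset.coe_toList p.roots]
    rw [Multiset.map_coe, Multiset.prod_coe]
  rw [h1]
  have h2 : ∀ (l : List ℂ) (hl : l.length = n),
      (l.map fun t => (Polynomial.X - Polynomial.C t : Polynomial ℂ)).prod =
        ∏ i : Fin n, (Polynomial.X - Polynomial.C (l.get (i.cast hl.symm))) := by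
    intro l hl
    subst hl
    rw [← List.prod_ofFn]
    congr 1
    rw [← List.ofFn_get (l.map fun t => (Polynomial.X - Polynomial.C t : Polynomial ℂ))]
    apply List.ext_getElem
    · simp
    · intro i h3 h4
      simp
  exact h2 _ hlen

/-- PROOF. `h 0 = 1` (`hB` for `k = 0`, `b = b₀`: `comps n 0 = {0}`). Define `e : ℕ → ℂ` by `∑_{m ≤ k} (-1)^m h (k - m) e m = (k = 0)` (recursion; or `e m = eo m B b₀ / B b₀`). By `eo_rec` and strong induction `eo m B b = e m * B b` for all `m`, `b` (the coefficient of `eo k B b` in `eo_rec` is `± h 0 = ± 1`).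
For `m > n` `eo m B b₀ = 0` (no subsets), so `e m = 0`. The monic polynomial `∑_{m ≤ n} (-1)^m e m t^(n-m)` splits over `ℂ`: it is `∏ (t - x_i)`, `x : Fin n → ℂ` (`IsAlgClosed.splits`, `Multiset` of roots of cardinality `n`, written as a function on `Fin n`), so `e m = es x m` for `m ≤ n` (`es_poly`, compare coefficients), and for `m > n` both are `0`.
`h` and `hs x` satisfy the same recursion (`eo_rec` at `b₀` divided by `B b₀`, `es_rec`), so `h k = hs x k` by strong induction. -/
theorem roots_ex {n : ℕ} {h : ℕ → ℂ} {B : (Fin n → ℕ) → ℂ} (hB : ∀ k b, h k * B b = ∑ g ∈ comps n k, B (b + g)) {b₀ : Fin n → ℕ}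
    (h0 : B b₀ ≠ 0) : ∃ x : Fin n → ℂ, (∀ k, h k = hs x k) ∧ ∀ m b, eo m B b = es x m * B b := by
  have hh0 : h 0 = 1 := by
    have h1 := eo_rec hB 0 b₀
    rw [zero_add, Finset.sum_range_one, pow_zero, one_mul, Nat.sub_zero, g4_eo_zero,
      if_pos rfl] at h1
    exact mul_right_cancel₀ h0 (by rw [h1, one_mul])
  set e : ℕ → ℂ := fun m => eo m B b₀ / B b₀ with he
  have heB : ∀ m, eo m B b₀ = e m * B b₀ := fun m => by
    rw [he]
    field_simp
  have hrec : ∀ k, k ≠ 0 → ∀ b, (∀ m < k, eo m B b = e m * B b) →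
      (∑ m ∈ Finset.range k, (-1) ^ m * h (k - m) * e m) * B b + (-1) ^ k * eo k B b = 0 := by
    intro k hk b hb
    have h1 := eo_rec hB k b
    rw [if_neg hk, Finset.sum_range_succ, Nat.sub_self, hh0, mul_one] at h1
    rw [← h1, Finset.sum_mul]
    congr 1
    refine Finset.sum_congr rfl fun m hm => ?_
    rw [hb m (Finset.mem_range.mp hm), mul_assoc]
  have hall : ∀ m b, eo m B b = e m * B b := by
    intro m
    induction m using Nat.strong_induction_on with
    | _ m ih =>
      intro b
      by_cases hm : m = 0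
      · subst hm
        rw [g4_eo_zero, he]
        simp only
        rw [g4_eo_zero, div_self h0, one_mul]
      · have h1 := hrec m hm b fun j hj => ih j hj b
        have h2 := hrec m hm b₀ fun j _ => heB j
        rw [heB m] at h2
        have h3 : (∑ j ∈ Finset.range m, (-1) ^ j * h (m - j) * e j) + (-1) ^ m * e m = 0 := by
          apply mul_right_cancel₀ h0
          rw [zero_mul, add_mul, mul_assoc, h2]
        have h4 : (∑ j ∈ Finset.range m, (-1) ^ j * h (m - j) * e j) = -((-1) ^ m * e m) :=
          eq_neg_of_add_eq_zero_left h3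
        rw [h4] at h1
        have h5 : (-1 : ℂ) ^ m ≠ 0 := pow_ne_zero _ (by norm_num)
        apply mul_left_cancel₀ h5
        have h6 : (-1 : ℂ) ^ m * eo m B b = (-1) ^ m * e m * B b := by
          linear_combination h1
        rw [h6, mul_assoc]
  have he0 : e 0 = 1 := by
    rw [he]
    simp only
    rw [g4_eo_zero, div_self h0]
  obtain ⟨x, hx⟩ := g4_roots (n := n) (fun m => (-1) ^ m * e m) (by
    rw [he0]
    norm_num)
  have hes : ∀ m, e m = es x m := by
    intro m
    by_cases hm : m ≤ n
    · have h1 : (∑ j ∈ Finset.range (n + 1),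
          Polynomial.C ((fun m => (-1) ^ m * e m) j) * Polynomial.X ^ (n - j)).coeff (n - m) =
          (∑ j ∈ Finset.range (n + 1),
            Polynomial.C ((fun m => (-1) ^ m * es x m) j) * Polynomial.X ^ (n - j)).coeff (n - m) :=
        congrArg (fun p => Polynomial.coeff p (n - m)) (hx.trans (es_poly x))
      rw [g4_coeff (fun m => (-1) ^ m * e m) hm, g4_coeff (fun m => (-1) ^ m * es x m) hm] at h1
      exact mul_left_cancel₀ (pow_ne_zero _ (by norm_num)) h1
    · rw [g4_es_big (not_le.mp hm), he]
      simp only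
      rw [g4_eo_big (not_le.mp hm), zero_div]
  have hfin : ∀ m b, eo m B b = es x m * B b := fun m b => by rw [hall m b, hes m]
  refine ⟨x, ?_, hfin⟩
  intro k
  induction k using Nat.strong_induction_on with
  | _ k ih =>
    have h1 : ∑ m ∈ Finset.range (k + 1), (-1) ^ m * h (k - m) * es x m =
        if k = 0 then 1 else 0 := by
      have h2 := eo_rec hB k b₀
      have h3 : ∑ m ∈ Finset.range (k + 1), (-1) ^ m * h (k - m) * eo m B b₀ =
          (∑ m ∈ Finset.range (k + 1), (-1) ^ m * h (k - m) * es x m) * B b₀ := by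
        rw [Finset.sum_mul]
        refine Finset.sum_congr rfl fun m _ => ?_
        rw [hfin m b₀]
        ring
      rw [h3] at h2
      apply mul_right_cancel₀ h0
      rw [h2]
      split_ifs
      · rw [one_mul]
      · rw [zero_mul]
    have h4 := es_rec x k
    rw [← h1, Finset.sum_range_succ', Finset.sum_range_succ'] at h4
    rw [pow_zero, one_mul, one_mul, g4_es_zero, mul_one, mul_one, Nat.sub_zero] at h4
    have h5 : ∑ m ∈ Finset.range k, (-1 : ℂ) ^ (m + 1) * hs x (k - (m + 1)) * es x (m + 1) =
        ∑ m ∈ Finset.range k, (-1) ^ (m + 1) * h (k - (m + 1)) * es x (m + 1) := by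
      refine Finset.sum_congr rfl fun m hm => ?_
      rw [Finset.mem_range] at hm
      rw [ih (k - (m + 1)) (by omega)]
    rw [h5] at h4
    exact (add_left_cancel h4).symm

end

end Pool.Agent.Lib.H85P
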