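import Pool.Agent.Lib.H33N.A2
import Pool.Agent.Lib.H33N.A6
import Pool.Agent.Lib.H33N.SD
import Pool.Agent.Lib.H89N.HS

/-!
# H85P, module G (algebra of the Pieri rule): definitions
-/

namespace Pool.Agent.Lib.H85P

open Pool.Agent.Lib.H89N Pool.Agent.Lib.H33N

noncomputable section

/-- The elementary symmetric polynomial of degree `m`. -/
def es {n : ℕ} {R : Type} [CommRing R] (x : Fin n → R) (m : ℕ) : R :=
  ∑ T ∈ Finset.powersetCard m (Finset.univ : Finset (Fin n)), ∏ i ∈ T, x i

/-- The indicator function of `T`. -/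
def ind {n : ℕ} (T : Finset (Fin n)) (i : Fin n) : ℕ := if i ∈ T then 1 else 0

/-- `∑_{|T| = m} B (b + 1_T)`. -/
def eo {n : ℕ} (m : ℕ) (B : (Fin n → ℕ) → ℂ) (b : Fin n → ℕ) : ℂ :=
  ∑ T ∈ Finset.powersetCard m (Finset.univ : Finset (Fin n)), B (b + ind T)

/-- The pairs `(j, l)` with `l < j`. -/
def prs (n : ℕ) : Finset (Fin n × Fin n) := Finset.univ.filter fun p => p.2 < p.1

/-- The number of pairs in `T` with first component `j`. -/
def sT {n : ℕ} (T : Finset (Fin n × Fin n)) (j : Fin n) : ℕ := (T.filter fun p => p.1 = j).card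

end

end Pool.Agent.Lib.H85P
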