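import Pool.Agent.Lib.H85P.M1
import Pool.Agent.Lib.H33N.D5
import Pool.Agent.Lib.H85A.L3

/-!
# H85P, M2: the pointwise bound for all characters
-/

namespace Pool.Agent.Lib.H85P

open MeasureTheory Matrix NumberField IsDedekindDomain
open Pool.Agent.Lib.H89N Pool.Agent.Lib.H85S Pool.Agent.Lib.H85N Pool.Agent.Lib.H33W Pool.Agent.Lib.H33N Pool.Agent.Lib.H85A
open scoped ENNReal

noncomputable section

/-- PROOF. The proof of `d5_pt` (`H33N.D5`) with weights `1` (`c i = 1` in `d4_dec`) and `star_d` in the place of `star_q`; the place `v` from `l3_nz` (`H85A.L3`) for `m` (no condition at `N` is needed: `chr_thz`). -/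
theorem d5_pt0 {k : ℕ} (hk : 1 ≤ k) (μ : Measure (GG (k + 1) ℚ)) [μ.IsHaarMeasure] {Ω Q : Set (GG (k + 1) ℚ)} (hΩ : IsCompact Ω)
    (hQ : IsCompact Q) {C0 : ℝ} (hC0 : 0 ≤ C0) (Cm : ℝ) (c : ℕ) : ∃ C : ℝ, 1 ≤ C ∧
    ∀ (N : ℕ), N ≠ 0 → ∀ (δ : ℝ), 0 < δ → δ ≤ 1 →
    ∀ (φ : GG (k + 1) ℚ → ℂ), Continuous φ → HasCompactSupport φ → (∀ z, φ z ≠ 0 → z ∈ Om (k + 1) (C0 * δ)) →
    ∀ (ρ : GG (k + 1) ℚ → ℝ), Mol μ Cm Q δ ρ →
    ∀ (F : Set (GG (k + 1) ℚ)), IsFundamentalDomain (Gamma (k + 1) (nI N)) F μ →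
    ∀ (s : ℕ) (f : Fin s → GG (k + 1) ℚ → ℂ), (∀ i, AutN (nI N) μ F (f i)) →
    (∀ i j, ∫ x in F, star (f i x) * f j x ∂μ = if i = j then 1 else 0) →
    ∀ (m : Fin (k + 1) → ℤ), Nz m →
    ∀ (a : Fin (k + 1) → ℝ), (∀ i, 0 < a i) → (∏ i, a i = 1) → ∀ x, InRange Ω a x →
    ∑ i, ‖Mn (fun _ => nI N) (thz (k + 1) N m) (itc μ ρ (fun g => ∫ z, f i (g * z) * φ z ∂μ) (k * c)) x‖ ^ 2 ≤
      C * (∏ l : Fin k, min 1 ((N / δ) / ((a l.castSucc / a l.succ) * |(m l.castSucc : ℝ)|))) ^ (2 * c) *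
        ((∫ z, ‖φ z‖ ^ 2 ∂μ) * (δ ^ Fintype.card (UI (k + 1)) *
          (Mc (n := k + 1) (by omega) (nI N) a 1 * ∏ p : UI (k + 1), (a p.1.1 / a p.1.2) / (N : ℝ)))) := by
  obtain ⟨C₁, hC₁, h1⟩ := star_d (n := k + 1) (by omega) μ (oq_compact hΩ hQ (k * c)) hC0
  obtain ⟨C₂, hC₂, h2⟩ := d4_dec μ hΩ hQ Cm (k * c)
  refine ⟨C₂ ^ (2 * (k * c)) * (C₁ + 1), ?_, ?_⟩
  · have h3 : 1 ≤ C₂ ^ (2 * (k * c)) := one_le_pow₀ hC₂
    nlinarith
  intro N hN δ hδ0 hδ1 φ hφ hφc hsupp ρ hρ F hF s f hA on m hnz a ha hprod x hx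
  obtain ⟨v, hm⟩ := l3_nz hnz
  have hθ : Chr (nI N) v (thz (k + 1) N m) := chr_thz hN hm
  have hρc : HasCompactSupport ρ := HasCompactSupport.intro hQ fun z hz => by
    by_contra h
    exact hz (hρ.supp z h)
  have hci : ∀ i, CI N (f i) := fun i => ⟨(hA i).cont, (hA i).inv⟩
  have hci' : ∀ i, CI N (fun g => ∫ z, f i (g * z) * φ z ∂μ) := fun i => ci_conv μ hφ hφc (hci i)
  set w : Fin s → GG (k + 1) ℚ → ℂ := fun i => Wh N (thz (k + 1) N m) (fun g => ∫ z, f i (g * z) * φ z ∂μ) with hw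
  have hwc : ∀ i, Continuous (w i) := fun i => wh_cont N _ (hci' i).cont
  have hwe : ∀ i y, w i y = ∫ z, Wh N (thz (k + 1) N m) (f i) (y * z) * φ z ∂μ := fun i y =>
    wh_conv μ N _ (hci i).cont hφ hφc y
  have hwu : ∀ i σ y, w i (up σ * y) = ee (sd (thz (k + 1) N m) (upM σ)) * w i y := fun i σ y =>
    d5_up (hci' i) hN (by omega) hθ σ y
  set B : ℝ := C₁ * (∫ z, ‖φ z‖ ^ 2 ∂μ) * (δ ^ Fintype.card (UI (k + 1)) *
      (Mc (n := k + 1) (by omega) (nI N) a 1 *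
      ∏ p : UI (k + 1), (a p.1.1 / a p.1.2 / (N : ℝ)))) with hB
  have hP0 : 0 ≤ ∫ z, ‖φ z‖ ^ 2 ∂μ := integral_nonneg fun z => by positivity
  have hM0 : 0 ≤ Mc (n := k + 1) (by omega) (nI N) a 1 :=
    zero_le_one.trans (one_le_Mc _ _ ha (by positivity))
  have hprod0 : 0 ≤ ∏ p : UI (k + 1), (a p.1.1 / a p.1.2 / (N : ℝ)) :=
    Finset.prod_nonneg fun p _ => div_nonneg (div_nonneg (ha _).le (ha _).le) (Nat.cast_nonneg _)
  have hB0 : 0 ≤ B := by positivity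
  have hBd : ∀ y, InRange (OQ Ω Q (k * c)) a y → ∑ i, (1 : ℝ) * ‖w i y‖ ^ 2 ≤ B := by
    intro y hy
    have h3 := h1 δ hδ0 hδ1 v N hN hφ hφc hsupp (thz (k + 1) N m) hθ a ha hprod y hy F hF s f hA on
    simp only [hwe, one_mul]
    exact h3
  -- the sum
  set X : Fin k → ℝ := fun l => min 1 ((N / δ) / ((a l.castSucc / a l.succ) * |(m l.castSucc : ℝ)|)) with hX
  have hX0 : ∀ l, 0 ≤ X l := by
    intro l
    have h3 := ha l.castSucc
    have h4 := ha l.succ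
    exact le_min zero_le_one (by positivity)
  obtain ⟨l, hl⟩ := d5_star hk hX0
  have hml : m l.castSucc ≠ 0 := by
    intro h
    apply hm l.castSucc (by
      have := l.2
      show (l : ℕ) + 1 < k + 1
      omega)
    rw [h, Int.cast_zero]
    exact zero_mem _
  have h3 := h2 N hN δ hδ0 ρ hρ a ha hprod m l.castSucc (by
      have := l.2
      show (l : ℕ) + 1 < k + 1
      omega) hml s (fun _ => (1 : ℝ)) (fun _ => zero_le_one) w hwc hwu B hB0 hBd x hx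
  simp only [one_mul] at h3
  have e1 : ∀ i, Mn (fun _ => nI N) (thz (k + 1) N m) (itc μ ρ (fun g => ∫ z, f i (g * z) * φ z ∂μ) (k * c)) x =
      itc μ ρ (w i) (k * c) x := by
    intro i
    rw [← d5_wh (ci_itc μ hρ.cont hρc (hci' i) _) hN hθ, d5_itc μ hρ.cont hρc (hci' i).cont]
  simp only [e1]
  refine h3.trans ?_
  have e2 : (C₂ * min 1 ((N / δ) / ((a l.castSucc / a (⟨(l.castSucc : ℕ) + 1, by
      have := l.2
      show (l : ℕ) + 1 < k + 1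
      omega⟩ : Fin (k + 1))) * |(m l.castSucc : ℝ)|))) ^ (2 * (k * c)) = C₂ ^ (2 * (k * c)) * (X l ^ k) ^ (2 * c) := by
    rw [mul_pow, ← pow_mul]
    congr 1
    have e3 : k * (2 * c) = 2 * (k * c) := by ring
    rw [e3]
    rfl
  rw [e2]
  have h4 : (X l ^ k) ^ (2 * c) ≤ (∏ i, X i) ^ (2 * c) := pow_le_pow_left₀ (pow_nonneg (hX0 l) _) hl _
  have e4 : B = C₁ * ((∫ z, ‖φ z‖ ^ 2 ∂μ) * (δ ^ Fintype.card (UI (k + 1)) *
          (Mc (n := k + 1) (by omega) (nI N) a 1 *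
            ∏ p : UI (k + 1), (a p.1.1 / a p.1.2) / (N : ℝ)))) := by
    rw [hB]
    ring
  rw [e4]
  set R : ℝ := (∫ z, ‖φ z‖ ^ 2 ∂μ) * (δ ^ Fintype.card (UI (k + 1)) *
          (Mc (n := k + 1) (by omega) (nI N) a 1 *
            ∏ p : UI (k + 1), (a p.1.1 / a p.1.2) / (N : ℝ))) with hR
  have hR0 : 0 ≤ R := by
    by_contra hcon
    push Not at hcon
    have : C₁ * R < 0 := mul_neg_of_pos_of_neg hC₁ hcon
    rw [← e4] at this
    linarith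
  have h5 : 0 ≤ C₂ ^ (2 * (k * c)) := by positivity
  calc C₂ ^ (2 * (k * c)) * (X l ^ k) ^ (2 * c) * (C₁ * R)
      ≤ C₂ ^ (2 * (k * c)) * (∏ i, X i) ^ (2 * c) * (C₁ * R) :=
        mul_le_mul_of_nonneg_right (mul_le_mul_of_nonneg_left h4 h5) (by positivity)
    _ ≤ C₂ ^ (2 * (k * c)) * (∏ i, X i) ^ (2 * c) * ((C₁ + 1) * R) := by
        have h6 : 0 ≤ (∏ i, X i) ^ (2 * c) := pow_nonneg (Finset.prod_nonneg fun i _ => hX0 i) _
        exact mul_le_mul_of_nonneg_left (mul_le_mul_of_nonneg_right (by linarith) hR0) (by positivity)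
    _ = _ := by ring

end

end Pool.Agent.Lib.H85P
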