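import Pool.Agent.Lib.H85P.M2
import Pool.Agent.Lib.H33N.D6

/-!
# H85P, M3: the bound of the masses for all characters
-/

namespace Pool.Agent.Lib.H85P

open MeasureTheory Matrix NumberField IsDedekindDomain
open Pool.Agent.Lib.H89N Pool.Agent.Lib.H85S Pool.Agent.Lib.H85N Pool.Agent.Lib.H33W Pool.Agent.Lib.H33N Pool.Agent.Lib.H85A
open scoped ENNReal

noncomputable section

/-- PROOF. The proof of `m3_top` (`H33N.D6`) with weights `1` and `d5_pt0` in the place of `d5_pt`, `X = 1`. -/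
theorem m3_all {k : ℕ} (hk : 1 ≤ k) (μ : Measure (GG (k + 1) ℚ)) [μ.IsHaarMeasure] {Ω Q : Set (GG (k + 1) ℚ)} (hΩ : IsCompact Ω)
    (hQ : IsCompact Q) {C0 : ℝ} (hC0 : 0 ≤ C0) (Cm C1 : ℝ) (hC1 : 1 ≤ C1) (c : ℕ) : ∃ C : ℝ, 1 ≤ C ∧
    ∀ (N : ℕ) [NeZero N] (δ : ℝ), 0 < δ → δ ≤ 1 →
    ∀ (φ : GG (k + 1) ℚ → ℂ), Continuous φ → HasCompactSupport φ → (∀ z, φ z ≠ 0 → z ∈ Om (k + 1) (C0 * δ)) →
    (∫ z, ‖φ z‖ ^ 2 ∂μ) ≤ C1 * δ⁻¹ ^ (k * (k + 3) / 2) →
    ∀ (ρ : GG (k + 1) ℚ → ℝ), Mol μ Cm Q δ ρ →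
    ∀ (Δ : Subgroup (SLK (k + 1) ℚ)), Δ ≤ UG (k + 1) ℚ → (∀ γ : SLK (k + 1) ℚ, LUc (fun _ => (⊤ : Ideal (𝓞 ℚ))) γ → γ ∈ Δ) →
    ∀ (D : Set (GG (k + 1) ℚ)), SF Δ D →
    ∀ (F : Set (GG (k + 1) ℚ)), IsFundamentalDomain (Gamma (k + 1) (nI N)) F μ →
    ∀ (s : ℕ) (f : Fin s → XX (k + 1) N → ℂ), (∀ i, FInv (f i)) →
    (∀ i κ, MemLp (fun g => f i (κ, g)) 2 (μ.restrict F)) →
    (∀ κ i j, ∫ x in F, star (f i (κ, x)) * f j (κ, x) ∂μ = if i = j then 1 else 0) →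
    ∀ (m : Fin (k + 1) → ℤ), Nz m →
    ∀ (a : Fin (k + 1) → ℝ), (∀ i, 0 < a i) → (∏ i, a i = 1) → ∀ (t : Fin k → ℤ),
    (∀ l : Fin k, a l.castSucc / a l.succ = (2 : ℝ) ^ t l) →
    ∑ i, massW μ D Ω a m (fun x => itc μ ρ (fun g => ∫ z, f i (x.1, g * z) * φ z ∂μ) (k * c) x.2) ≤
      ENNReal.ofReal (C * (N : ℝ) ^ (k * (k + 3) / 2) * δ⁻¹ ^ k * PX ((N : ℝ) / δ) (fun l => m l.castSucc) t ^ (2 * c) *
        MX N t 1) := by
  obtain ⟨C₁, hC₁, h1⟩ := d5_pt0 hk μ hΩ hQ hC0 Cm c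
  obtain ⟨C₂, hC₂, h2⟩ := d3_vol μ hΩ
  refine ⟨1 + C₁ * C₂ * C1, ?_, ?_⟩
  · have : 0 < C₁ * C₂ * C1 := by positivity
    linarith
  intro N _ δ hδ0 hδ1 φ hφ hφc hsupp hφ2 ρ hρ Δ hΔ hΔ' D hD F hF s f hf hl2 on m hm a ha hprod t hr
  have hN : N ≠ 0 := NeZero.ne N
  have hNr : (0 : ℝ) < N := by exact_mod_cast Nat.pos_of_ne_zero hN
  set PR : ℝ := ∏ p : UI (k + 1), (a p.1.1 / a p.1.2) with hPR
  have hPRp : 0 < PR := Finset.prod_pos fun p _ => div_pos (ha _) (ha _)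
  set cd : ℕ := Fintype.card (UI (k + 1)) with hcd
  set Bd : ℝ := C₁ * (∏ l : Fin k, min 1 ((N / δ) / ((a l.castSucc / a l.succ) * |(m l.castSucc : ℝ)|))) ^ (2 * c) *
        ((∫ z, ‖φ z‖ ^ 2 ∂μ) * (δ ^ Fintype.card (UI (k + 1)) *
          (Mc (n := k + 1) (by omega) (nI N) a 1 *
            ∏ p : UI (k + 1), (a p.1.1 / a p.1.2) / (N : ℝ)))) with hBd
  -- pointwise
  have hpt : ∀ κ z, InRange Ω a z → ∑ i,
      ENNReal.ofReal (‖WX m (fun x : XX (k + 1) N => itc μ ρ (fun g => ∫ z, f i (x.1, g * z) * φ z ∂μ) (k * c) x.2) (κ, z)‖ ^ 2) ≤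
      ENNReal.ofReal Bd := by
    intro κ z hz
    have h3 := h1 N hN δ hδ0 hδ1 φ hφ hφc hsupp ρ hρ F hF s (fun i g => f i (κ, g))
      (fun i => ⟨(hf i).cont κ, finv_gam (hf i) κ, hl2 i κ⟩) (on κ) m hm a ha hprod z hz
    have e : ∀ i,
        ENNReal.ofReal (‖WX m (fun x : XX (k + 1) N => itc μ ρ (fun g => ∫ z, f i (x.1, g * z) * φ z ∂μ) (k * c) x.2) (κ, z)‖ ^ 2) =
        ENNReal.ofReal (
          ‖Mn (fun _ => nI N) (thz (k + 1) N m) (itc μ ρ (fun g => ∫ z, f i (κ, g * z) * φ z ∂μ) (k * c)) z‖ ^ 2) := by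
      intro i
      rfl
    rw [Finset.sum_congr rfl fun i _ => e i, ← ENNReal.ofReal_sum_of_nonneg fun i _ => by positivity]
    exact ENNReal.ofReal_le_ofReal h3
  have hBd0 : 0 ≤ Bd := by
    have h3 : ∀ l : Fin k, 0 ≤ min 1 ((N / δ) / ((a l.castSucc / a l.succ) * |(m l.castSucc : ℝ)|)) := by
      intro l
      have h3 := ha l.castSucc
      have h4 := ha l.succ
      exact le_min zero_le_one (by positivity)
    have hP0 : 0 ≤ ∫ z, ‖φ z‖ ^ 2 ∂μ := integral_nonneg fun z => by positivity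
    have hM0 : 0 ≤ Mc (n := k + 1) (by omega) (nI N) a 1 :=
      zero_le_one.trans (one_le_Mc _ _ ha (by positivity))
    have hprod0 : 0 ≤ ∏ p : UI (k + 1), (a p.1.1 / a p.1.2) / (N : ℝ) :=
      Finset.prod_nonneg fun p _ => div_nonneg (div_nonneg (ha _).le (ha _).le) hNr.le
    have h5 : 0 ≤ (∏ l : Fin k, min 1 ((N / δ) / ((a l.castSucc / a l.succ) * |(m l.castSucc : ℝ)|))) ^ (2 * c) :=
      pow_nonneg (Finset.prod_nonneg fun l _ => h3 l) _
    rw [hBd]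
    positivity
  have hvol := h2 hΔ hΔ' hD a ha hprod
  rw [Module.finrank_self] at hvol
  simp only [pow_one] at hvol
  -- the integrals
  have hmass : ∑ i, massW μ D Ω a m (fun x => itc μ ρ (fun g => ∫ z, f i (x.1, g * z) * φ z ∂μ) (k * c) x.2) ≤
      ∑ _κ : KG (k + 1) N, ENNReal.ofReal Bd * (μ.restrict D) {z | InRange Ω a z} := by
    unfold massW
    rw [Finset.sum_comm]
    refine Finset.sum_le_sum fun κ _ => ?_
    refine le_trans (le_of_eq (Finset.sum_congr rfl fun i _ => (one_mul _).symm)) ?_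
    refine (sum_const_le Finset.univ (μ.restrict D) (fun _ => (1 : ℝ≥0∞)) _).trans ?_
    simp only [one_mul]
    refine le_trans (lintegral_mono (g := {z | InRange Ω a z}.indicator fun _ => ENNReal.ofReal Bd) fun z => ?_)
      (lintegral_indicator_const_le _ _)
    by_cases hz : z ∈ {z | InRange Ω a z}
    · simp only [Set.indicator_of_mem hz]
      exact hpt κ z hz
    · simp only [Set.indicator_of_notMem hz, Finset.sum_const_zero]
      exact zero_le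
  refine hmass.trans ?_
  rw [Finset.sum_const, Finset.card_univ, nsmul_eq_mul]
  set PI' : ℝ := ∏ p : UI (k + 1), (a p.1.2 / a p.1.1) with hPI
  have hPIp : 0 ≤ PI' := Finset.prod_nonneg fun p _ => div_nonneg (ha _).le (ha _).le
  have hcard := kg_card' (N := N) (k := k)
  calc (Fintype.card (KG (k + 1) N) : ENNReal) * (ENNReal.ofReal Bd * (μ.restrict D) {z | InRange Ω a z})
      ≤ ENNReal.ofReal ((N : ℝ) ^ (k * (k + 2))) * (ENNReal.ofReal Bd * ENNReal.ofReal (C₂ * PI')) := by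
        refine mul_le_mul' ?_ (mul_le_mul_right hvol _)
        rw [← ENNReal.ofReal_natCast]
        exact ENNReal.ofReal_le_ofReal hcard
    _ = ENNReal.ofReal ((N : ℝ) ^ (k * (k + 2)) * (Bd * (C₂ * PI'))) := by
        rw [← ENNReal.ofReal_mul hBd0, ← ENNReal.ofReal_mul (by positivity)]
    _ ≤ _ := by
        refine ENNReal.ofReal_le_ofReal ?_
        have hPX : (∏ l : Fin k, min 1 ((N / δ) / ((a l.castSucc / a l.succ) * |(m l.castSucc : ℝ)|))) =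
            PX ((N : ℝ) / δ) (fun l => m l.castSucc) t := by
          unfold PX
          refine Finset.prod_congr rfl fun l _ => ?_
          rw [hr l]
        have hPX0 : 0 ≤ PX ((N : ℝ) / δ) (fun l => m l.castSucc) t := by
          unfold PX
          refine Finset.prod_nonneg fun l _ => le_min zero_le_one (by positivity)
        have hMX := mc_mx hk (N := N) ha hr 1 (by omega)
        have hMX0 : 0 ≤ MX N t 1 := by
          rw [← hMX]
          exact zero_le_one.trans (one_le_Mc _ _ ha (by positivity))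
        have hdiv : ∏ p : UI (k + 1), (a p.1.1 / a p.1.2) / (N : ℝ) = PR / (N : ℝ) ^ (k * (k + 1) / 2) := by
          rw [Finset.prod_div_distrib, Finset.prod_const, Finset.card_univ, card_UI]
        have hPP : PR * PI' = 1 := by
          rw [hPR, hPI, ← Finset.prod_mul_distrib]
          refine Finset.prod_eq_one fun p _ => ?_
          have h3 := ha p.1.1
          have h4 := ha p.1.2
          field_simp
        set P := PX ((N : ℝ) / δ) (fun l => m l.castSucc) t with hP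
        set M := MX N t 1 with hM
        have e1 : (N : ℝ) ^ (k * (k + 2)) * (Bd * (C₂ * PI')) =
            C₁ * C₂ * ((N : ℝ) ^ (k * (k + 3) / 2)) * P ^ (2 * c) * M *
              ((∫ z, ‖φ z‖ ^ 2 ∂μ) * δ ^ (k * (k + 1) / 2)) := by
          rw [hBd, hPX, hMX, hdiv, card_UI, card_four, pow_add]
          have h3 : (N : ℝ) ^ (k * (k + 1) / 2) ≠ 0 := by positivity
          obtain ⟨A, hA⟩ : ∃ A, A = (N : ℝ) ^ (k * (k + 1) / 2) := ⟨_, rfl⟩
          rw [← hA] at h3 ⊢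
          obtain ⟨A', hA'⟩ : ∃ A', A' = (N : ℝ) ^ (k * (k + 3) / 2) := ⟨_, rfl⟩
          rw [← hA']
          obtain ⟨I, hI⟩ : ∃ I, I = ∫ z, ‖φ z‖ ^ 2 ∂μ := ⟨_, rfl⟩
          rw [← hI]
          obtain ⟨d', hd'⟩ : ∃ d', d' = δ ^ (k * (k + 1) / 2) := ⟨_, rfl⟩
          rw [← hd']
          calc A' * A * (C₁ * P ^ (2 * c) * (I * (d' * (M * (PR / A)))) * (C₂ * PI'))
              = (C₁ * C₂ * A' * P ^ (2 * c) * M * (I * d')) * (PR * PI') * (A / A) := by ring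
            _ = C₁ * C₂ * A' * P ^ (2 * c) * M * (I * d') := by rw [hPP, div_self h3, mul_one, mul_one]
        rw [e1]
        have h3 : (∫ z, ‖φ z‖ ^ 2 ∂μ) * δ ^ (k * (k + 1) / 2) ≤ C1 * δ⁻¹ ^ k := by
          calc (∫ z, ‖φ z‖ ^ 2 ∂μ) * δ ^ (k * (k + 1) / 2) ≤ (C1 * δ⁻¹ ^ (k * (k + 3) / 2)) * δ ^ (k * (k + 1) / 2) :=
                mul_le_mul_of_nonneg_right hφ2 (by positivity)
            _ = C1 * δ⁻¹ ^ k := by
                rw [card_three, pow_add, inv_pow, inv_pow]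
                have h4 : δ ^ (k * (k + 1) / 2) ≠ 0 := by positivity
                field_simp
        have h4 : 0 ≤ C₁ * C₂ * ((N : ℝ) ^ (k * (k + 3) / 2)) * P ^ (2 * c) * M := by positivity
        calc C₁ * C₂ * ((N : ℝ) ^ (k * (k + 3) / 2)) * P ^ (2 * c) * M *
              ((∫ z, ‖φ z‖ ^ 2 ∂μ) * δ ^ (k * (k + 1) / 2))
            ≤ C₁ * C₂ * ((N : ℝ) ^ (k * (k + 3) / 2)) * P ^ (2 * c) * M * (C1 * δ⁻¹ ^ k) :=
              mul_le_mul_of_nonneg_left h3 h4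
          _ = (C₁ * C₂ * C1) * ((N : ℝ) ^ (k * (k + 3) / 2) * δ⁻¹ ^ k * P ^ (2 * c) * M) := by ring
          _ ≤ (1 + C₁ * C₂ * C1) * ((N : ℝ) ^ (k * (k + 3) / 2) * δ⁻¹ ^ k * P ^ (2 * c) * M) :=
              mul_le_mul_of_nonneg_right (by linarith) (by positivity)
          _ = _ := by ring

end

end Pool.Agent.Lib.H85P
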