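import Pool.Agent.Lib.H89N.HS

/-!
# H85P, P1: complete homogeneous polynomials and power sums
-/

namespace Pool.Agent.Lib.H85P

open Pool.Agent.Lib.H89N

noncomputable section

/-- PROOF. Induction on `n` (for all `k`) with `hs_sum` (`hs x k = ∑_{j ≤ k} x_0 ^ (k - j) hs x' j`), or: with the generating function `H(t) = ∏ 1/(1 - x_i t)` in `ℂ⟦t⟧`, `t H' = H ∑_j p_j t^j`; or induction on `k + n` with `hs_succ` (`hs x (k+1) = x_0 hs x k + hs x' (k+1)`):
let `P(n,k)` be the claim `k hs x k = ∑_{j<k} p_(j+1)(x) hs x (k-1-j)`. `(k+1) hs x (k+1) = x_0 (k hs x k) + x_0 hs x k + (k+1) hs x' (k+1)`; insert `P(n+1,k)` and `P(n,k+1)`, `p_(j+1)(x) = x_0^(j+1) + p_(j+1)(x')`, and `hs x i - x_0 hs x (i-1) = hs x' i`: the difference to the right side is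
`x_0 hs x k - ∑_{j ≤ k} x_0^(j+1) (hs x (k-j) - x_0 hs x (k-j-1)) = 0` minus terms with `hs x'`; check: telescoping. -/
theorem psum_hs {n : ℕ} (x : Fin n → ℂ) (k : ℕ) :
    (k : ℂ) * hs x k = ∑ j ∈ Finset.range k, (∑ i, x i ^ (j + 1)) * hs x (k - 1 - j) := by
  induction n generalizing k with
  | zero =>
    rcases k with _ | k
    · simp
    · rw [hs_nil]
      simp
  | succ n ihn =>
    induction k with
    | zero => simp
    | succ k ihk =>
      have hn := ihn (fun i => x i.succ) (k + 1)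
      have hsum : x 0 * hs x k = ∑ j ∈ Finset.range (k + 1), x 0 ^ (j + 1) * hs (fun i => x i.succ) (k - j) := by
        rw [hs_sum x k, Finset.mul_sum, ← Finset.sum_range_reflect]
        refine Finset.sum_congr rfl fun j hj => ?_
        have hj' : j ≤ k := Nat.lt_succ_iff.1 (Finset.mem_range.1 hj)
        rw [show k + 1 - 1 - j = k - j by omega, show k - (k - j) = j by omega, ← mul_assoc, ← pow_succ']
      have hp : ∀ j : ℕ, (∑ i, x i ^ (j + 1)) = x 0 ^ (j + 1) + ∑ i : Fin n, x i.succ ^ (j + 1) := fun j =>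
        Fin.sum_univ_succ _
      have h1 : ∑ j ∈ Finset.range (k + 1), (∑ i, x i ^ (j + 1)) * hs x (k + 1 - 1 - j) =
          x 0 * ∑ j ∈ Finset.range k, (∑ i, x i ^ (j + 1)) * hs x (k - 1 - j) +
          ∑ j ∈ Finset.range (k + 1), (∑ i, x i ^ (j + 1)) * hs (fun i => x i.succ) (k - j) := by
        rw [Finset.sum_range_succ, Finset.sum_range_succ _ k, Finset.mul_sum, ← add_assoc, ← Finset.sum_add_distrib]
        congr 1
        · refine Finset.sum_congr rfl fun j hj => ?_
          have hj' : j < k := Finset.mem_range.1 hj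
          obtain ⟨i, hi⟩ : ∃ i, k - j = i + 1 := ⟨k - j - 1, by omega⟩
          rw [show k + 1 - 1 - j = i + 1 by omega, show k - 1 - j = i by omega, hi, hs_succ]
          ring
        · rw [show k + 1 - 1 - k = 0 by omega, Nat.sub_self, hs_zero, hs_zero]
      have h2 : ∑ j ∈ Finset.range (k + 1), (∑ i, x i ^ (j + 1)) * hs (fun i => x i.succ) (k - j) =
          (∑ j ∈ Finset.range (k + 1), x 0 ^ (j + 1) * hs (fun i => x i.succ) (k - j)) +
          ∑ j ∈ Finset.range (k + 1), (∑ i : Fin n, x i.succ ^ (j + 1)) * hs (fun i => x i.succ) (k + 1 - 1 - j) := by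
        rw [← Finset.sum_add_distrib]
        refine Finset.sum_congr rfl fun j hj => ?_
        rw [hp, add_mul, show k + 1 - 1 - j = k - j by omega]
      rw [h1, h2, ← hsum, ← hn, ← ihk, hs_succ x k]
      push_cast
      ring

end

end Pool.Agent.Lib.H85P
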