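import Pool.Agent.Lib.H85P.P1

/-!
# H85P, P2: comparison of power sums
-/

namespace Pool.Agent.Lib.H85P

open Pool.Agent.Lib.H89N

noncomputable section

theorem psum_solve {n : ℕ} (x : Fin n → ℂ) (j : ℕ) :
    ∑ i, x i ^ (j + 1) = ((j + 1 : ℕ) : ℂ) * hs x (j + 1) -
      ∑ i ∈ Finset.range j, (∑ l, x l ^ (i + 1)) * hs x (j - i) := by
  have h := psum_hs x (j + 1)
  rw [Finset.sum_range_succ, show j + 1 - 1 - j = 0 by omega, hs_zero, mul_one] at h
  rw [h, show j + 1 - 1 = j by omega]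
  ring

theorem p_list_aux {n : ℕ} {α β : Fin n → ℂ} {ζ : ℂ} (h : ∀ (m : ℕ) (r : List ℕ), r.sum = n * m →
      (r.map (hs β)).prod = ζ ^ m * (r.map (hs α)).prod) (m : ℕ) (j : ℕ) :
    ∀ r : List ℕ, (j + 1) + r.sum = n * m →
      (∑ i, β i ^ (j + 1)) * (r.map (hs β)).prod = ζ ^ m * ((∑ i, α i ^ (j + 1)) * (r.map (hs α)).prod) := by
  induction j using Nat.strong_induction_on with
  | _ j ih =>
    intro r hr
    have h1 := h m ((j + 1) :: r) (by rw [List.sum_cons]; exact hr)
    rw [List.map_cons, List.map_cons, List.prod_cons, List.prod_cons] at h1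
    have h2 : ∀ i ∈ Finset.range j, (∑ l, β l ^ (i + 1)) * (hs β (j - i) * (r.map (hs β)).prod) =
        ζ ^ m * ((∑ l, α l ^ (i + 1)) * (hs α (j - i) * (r.map (hs α)).prod)) := by
      intro i hi
      have hij : i < j := Finset.mem_range.1 hi
      have h3 := ih i hij ((j - i) :: r) (by rw [List.sum_cons]; omega)
      rw [List.map_cons, List.map_cons, List.prod_cons, List.prod_cons] at h3
      exact h3
    have h4 : ∀ x : Fin n → ℂ, (∑ i, x i ^ (j + 1)) * (r.map (hs x)).prod =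
        ((j + 1 : ℕ) : ℂ) * (hs x (j + 1) * (r.map (hs x)).prod) -
          ∑ i ∈ Finset.range j, (∑ l, x l ^ (i + 1)) * (hs x (j - i) * (r.map (hs x)).prod) := by
      intro x
      rw [psum_solve x j, sub_mul, Finset.sum_mul]
      congr 1
      · ring
      · refine Finset.sum_congr rfl fun i _ => ?_
        ring
    rw [h4 β, h4 α, h1, Finset.sum_congr rfl h2, ← Finset.mul_sum]
    ring

/-- PROOF. Claim: for all `j` and all lists `r` with `(j + 1) + r.sum = n m`: `p_(j+1)(β) (r.map (hs β)).prod = ζ^m p_(j+1)(α) (r.map (hs α)).prod`. Strong induction on `j`: by `psum_hs` for `k = j + 1`, `p_(j+1)(x) = (j+1) hs x (j+1) - ∑_{i < j} p_(i+1)(x) hs x (j - i)` (`hs x 0 = 1`, `hs_zero`); multiply by the product over `r`: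
the first term is `h` for the list `(j+1) :: r`, the others are the claim for `i` and the list `(j - i) :: r`. Take `r = []`, `j + 1 = n m`. -/
theorem p_list {n : ℕ} {α β : Fin n → ℂ} {ζ : ℂ} (h : ∀ (m : ℕ) (r : List ℕ), r.sum = n * m →
      (r.map (hs β)).prod = ζ ^ m * (r.map (hs α)).prod) (m : ℕ) (hm : 1 ≤ n * m) :
    ∑ i, β i ^ (n * m) = ζ ^ m * ∑ i, α i ^ (n * m) := by
  obtain ⟨j, hj⟩ : ∃ j, n * m = j + 1 := ⟨n * m - 1, by omega⟩
  have h1 := p_list_aux h m j [] (by rw [List.sum_nil]; omega)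
  rw [List.map_nil, List.map_nil, List.prod_nil, mul_one, mul_one] at h1
  rw [hj]
  exact h1

end

end Pool.Agent.Lib.H85P
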