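import Pool.Agent.Lib.H85P.S1
import Pool.Agent.Lib.H85P.S2
import Pool.Agent.Lib.H85P.G1

/-!
# H85P, S3: the eigenvalues of `T_(q^r)`
-/

namespace Pool.Agent.Lib.H85P

open MeasureTheory Matrix NumberField IsDedekindDomain
open Pool.Agent.Lib.H89N Pool.Agent.Lib.H33W Pool.Agent.Lib.H33N

noncomputable section

variable {n N : ℕ}

theorem s3_card (e : Fin n → ℕ) : (Cs e).card = ∏ l, e l ^ (l : ℕ) := by
  rw [Cs, Fintype.card_piFinset]
  simp only [Finset.card_range]
  have h3 : ∏ p ∈ (Finset.univ : Finset (Fin n × Fin n)).filter (fun p => p.1 < p.2), e p.2 = ∏ p : UI n, e p.1.2 :=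
    Finset.prod_subtype _ (fun x => by rw [Finset.mem_filter]; exact and_iff_right (Finset.mem_univ x))
      (fun p : Fin n × Fin n => e p.2)
  rw [← h3, Finset.prod_filter, Fintype.prod_prod_type_right]
  refine Finset.prod_congr rfl fun l _ => ?_
  rw [← Finset.prod_filter]
  have h4 : (Finset.univ.filter fun i : Fin n => i < l) = Finset.Iio l := by
    ext i
    simp
  show ∏ i ∈ Finset.univ.filter (fun i : Fin n => i < l), e l = e l ^ (l : ℕ)
  rw [Finset.prod_const, h4, Fin.card_Iio]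

theorem s3_facs {q : ℕ} (hq : q.Prime) (r : ℕ) : facs n (q ^ r) = (comps n r).image fun g i => q ^ g i := by
  ext e
  rw [Finset.mem_image]
  refine ⟨fun h => ?_, ?_⟩
  · unfold facs at h
    rw [Finset.mem_filter, Fintype.mem_piFinset] at h
    have h1 : ∀ i, ∃ k, e i = q ^ k := fun i => by
      obtain ⟨k, -, hk⟩ := (Nat.mem_divisors_prime_pow hq r).1 (h.1 i)
      exact ⟨k, hk⟩
    choose g hg using h1
    refine ⟨g, ?_, funext fun i => (hg i).symm⟩
    rw [g1_mem]
    have h2 := h.2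
    simp only [hg] at h2
    rw [Finset.prod_pow_eq_pow_sum] at h2
    exact Nat.pow_right_injective hq.two_le h2
  · rintro ⟨g, hg, rfl⟩
    rw [g1_mem] at hg
    unfold facs
    rw [Finset.mem_filter, Fintype.mem_piFinset]
    refine ⟨fun i => ?_, ?_⟩
    · rw [Nat.mem_divisors_prime_pow hq]
      refine ⟨g i, ?_, rfl⟩
      rw [← hg]
      exact Finset.single_le_sum (f := g) (fun _ _ => Nat.zero_le _) (Finset.mem_univ i)
    · rw [Finset.prod_pow_eq_pow_sum, hg]

theorem s3_om (hn : 0 < n) {q : ℕ} (hq : q.Prime) (α : Fin n → ℂ) {h : HH n N} {g : Fin n → ℕ} {c : UI n → ℕ}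
    (e : mQ h = (bm N (fun i => q ^ g i) c).map (Int.castRingHom ℚ)) :
    om q α h = ∏ l, (α l / (q : ℂ) ^ (l : ℕ)) ^ g l := by
  have _ : Fact q.Prime := ⟨hq⟩
  have hu : UpH h := by
    intro i l hl
    rw [e, Matrix.map_apply]
    have h4 : bm N (fun i => q ^ g i) c i l = 0 := by
      show (if h : i < l then (N : ℤ) * (c ⟨(i, l), h⟩ : ℤ) else if i = l then ((q ^ g i : ℕ) : ℤ) else 0) = 0
      rw [dif_neg (not_lt.2 hl.le), if_neg hl.ne']
    rw [h4, map_zero]
  have hd : ∀ i, mQ h i i = ((q : ℚ)) ^ g i := by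
    intro i
    rw [e, Matrix.map_apply]
    have h4 : bm N (fun i => q ^ g i) c i i = ((q ^ g i : ℕ) : ℤ) := by
      show (if h : i < i then (N : ℤ) * (c ⟨(i, i), h⟩ : ℤ) else if i = i then ((q ^ g i : ℕ) : ℤ) else 0) = _
      rw [dif_neg (lt_irrefl i), if_pos rfl]
    rw [h4]
    simp
  unfold om
  refine Finset.prod_congr rfl fun i _ => ?_
  have h1 : iwe q h i = g i := by
    rw [iwe_up hn q hu, hd, padicValRat.pow, padicValRat.self hq.one_lt, mul_one]
  rw [h1, zpow_natCast]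

/-- **The eigenvalues of `T_(q^r)`.** -/
theorem lam_sr (hn : 0 < n) (hN : 0 < N) {q : ℕ} (hq : q.Prime) (hqN : q.Coprime N) (α : Fin n → ℂ) (r : ℕ) :
    lamO q α (SR n N (q ^ r)) = hs α r := by
  classical
  have hr : 0 < q ^ r := pow_pos hq.pos r
  have hrN : (q ^ r).Coprime N := Nat.Coprime.pow_left r hqN
  have hq0 : (q : ℂ) ≠ 0 := by exact_mod_cast hq.ne_zero
  obtain ⟨φ, hφ⟩ := hb4_phi n N hr hrN
  have hR := hb4_repL hN hr hrN hφ
  unfold lamO
  rw [ha1_sum (ha1_rep hR) hR (φ := om q α) (fun γ hγ g => om_inv (N := N) hn q α γ hγ g), Finset.sum_image]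
  · unfold hb4_P
    rw [Finset.sum_sigma, s3_facs hq r, Finset.sum_image, hs_comps]
    · refine Finset.sum_congr rfl fun g hg => ?_
      have h1 : ∀ c ∈ Cs (fun i => q ^ g i), om q α (φ ⟨fun i => q ^ g i, c⟩) = ∏ l, (α l / (q : ℂ) ^ (l : ℕ)) ^ g l := by
        intro c hc
        refine s3_om hn hq α (hφ _ ?_)
        unfold hb4_P
        rw [Finset.mem_sigma]
        refine ⟨?_, hc⟩
        rw [s3_facs hq r]
        exact Finset.mem_image_of_mem _ hg
      rw [Finset.sum_congr rfl h1, Finset.sum_const, s3_card, nsmul_eq_mul, Nat.cast_prod, ← Finset.prod_mul_distrib]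
      refine Finset.prod_congr rfl fun l _ => ?_
      rw [Nat.cast_pow, Nat.cast_pow, ← pow_mul, div_pow, ← pow_mul, mul_comm (l : ℕ)]
      have h2 : (q : ℂ) ^ (g l * (l : ℕ)) ≠ 0 := pow_ne_zero _ hq0
      field_simp
    · intro g _ g' _ h
      funext i
      have h1 : q ^ g i = q ^ g' i := congrFun h i
      exact Nat.pow_right_injective hq.two_le h1
  · intro p hp p' hp' h
    refine hb4_sep hN hr hrN hφ hp hp' ?_
    rw [h, mul_inv_cancel]
    exact one_mem _

end

end Pool.Agent.Lib.H85P
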