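import Pool.Agent.Lib.H85P.S2

/-!
# H85P, S4: the scalar operator
-/

namespace Pool.Agent.Lib.H85P

open MeasureTheory Matrix NumberField IsDedekindDomain
open Pool.Agent.Lib.H89N Pool.Agent.Lib.H33W Pool.Agent.Lib.H33N

noncomputable section

variable {n N : ℕ}

theorem s4_int (n : ℕ) {m N : ℕ} (hm : 0 < m) (hmN : m.Coprime N) : ∃ h : HH n N, mQ h = (m : ℚ) • (1 : Matrix (Fin n) (Fin n) ℚ) ∧
    (h.1.2.1 : Matrix (Fin n) (Fin n) (ZMod N)) = (m : ZMod N) • (1 : Matrix (Fin n) (Fin n) (ZMod N)) := by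
  have hd : (Matrix.diagonal fun _ : Fin n => (m : ℤ)).det = (m : ℤ) ^ n := by
    rw [Matrix.det_diagonal, Finset.prod_const, Finset.card_univ, Fintype.card_fin]
  have hm' : (0 : ℤ) < m := by exact_mod_cast hm
  obtain ⟨h, h1, h2⟩ := hh_int (N := N) (Matrix.diagonal fun _ : Fin n => (m : ℤ)) (by rw [hd]; positivity)
    (by
      rw [hd]
      exact IsCoprime.pow_left (Nat.isCoprime_iff_coprime.2 hmN))
  have hmap : ∀ {R : Type} [CommRing R], (Matrix.diagonal fun _ : Fin n => (m : ℤ)).map (Int.castRingHom R) = (m : R) • (1 : Matrix (Fin n) (Fin n) R) := by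
    intro R _
    refine Matrix.ext fun i j => ?_
    rw [Matrix.map_apply, Matrix.smul_apply, Matrix.diagonal_apply, Matrix.one_apply]
    split_ifs <;> simp
  exact ⟨h, by rw [← hmap]; exact h1, by rw [← hmap]; exact h2⟩

theorem s4_el (n : ℕ) {q N : ℕ} (hq : 0 < q) (hqN : q.Coprime N) : ∃ z : HH n N, mQ z = ((q : ℚ))⁻¹ • (1 : Matrix (Fin n) (Fin n) ℚ) := by
  obtain ⟨h, h1, -⟩ := s4_int n hq hqN
  have hq0 : (q : ℚ) ≠ 0 := by exact_mod_cast hq.ne'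
  refine ⟨h⁻¹, ?_⟩
  rw [mq_inv, h1]
  refine Matrix.inv_eq_left_inv ?_
  rw [Matrix.smul_mul, Matrix.mul_smul, Matrix.one_mul, smul_smul, inv_mul_cancel₀ hq0, one_smul]

theorem s4_mem {q : ℕ} (hq : 0 < q) {z : HH n N} (hz : mQ z = ((q : ℚ))⁻¹ • (1 : Matrix (Fin n) (Fin n) ℚ)) (h : HH n N) :
    h ∈ ZS n N q ↔ ∃ γ ∈ GH n N, h = γ * z := by
  have hq0 : (q : ℚ) ≠ 0 := by exact_mod_cast hq.ne'
  constructor
  · rintro ⟨γ, hγ, h1⟩
    refine ⟨γ, hγ, hh_ext ?_⟩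
    show mQ h = mQ (γ * z)
    rw [mq_mul, hz, Matrix.mul_smul, Matrix.mul_one, ← h1, smul_smul, inv_mul_cancel₀ hq0, one_smul]
  · rintro ⟨γ, hγ, rfl⟩
    refine ⟨γ, hγ, ?_⟩
    rw [mq_mul, hz, Matrix.mul_smul, Matrix.mul_one, smul_smul, mul_inv_cancel₀ hq0, one_smul]

theorem s4_comm {c : ℚ} {z : HH n N} (hz : mQ z = c • (1 : Matrix (Fin n) (Fin n) ℚ)) (h : HH n N) : z * h = h * z := by
  refine hh_ext ?_
  show mQ (z * h) = mQ (h * z)
  rw [mq_mul, mq_mul, hz, Matrix.smul_mul, Matrix.mul_smul, Matrix.one_mul, Matrix.mul_one]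

theorem s4_pow (h : HH n N) (m : ℕ) : mQ (h ^ m) = (mQ h) ^ m := by
  induction m with
  | zero => rw [pow_zero, pow_zero, mq_one]
  | succ m ih => rw [pow_succ, mq_mul, ih, pow_succ]

/-- PROOF. The inverse of the element of `hh_int` for the matrix `q`. -/
theorem zs_el (q : ℕ) (hq : 0 < q) (hqN : q.Coprime N) : ∃ z : HH n N, (∀ i l, mQ z i l = if i = l then ((q : ℚ))⁻¹ else 0) ∧ z ∈ ZS n N q := by
  obtain ⟨z, hz⟩ := s4_el n hq hqN
  refine ⟨z, fun i l => ?_, (s4_mem hq hz z).2 ⟨1, one_mem _, (one_mul z).symm⟩⟩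
  rw [hz, Matrix.smul_apply, Matrix.one_apply]
  split_ifs <;> simp

/-- PROOF. `ZS = GH z`, `z` central (`hh_ext`). -/
theorem zs_bs (hn : 0 < n) {q : ℕ} (hq : 0 < q) (hqN : q.Coprime N) : BS (GH n N) (ZS n N q) ∧ ∀ z ∈ ZS n N q, RepL (GH n N) (ZS n N q) {z} := by
  obtain ⟨z0, hz⟩ := s4_el n hq hqN
  have hm := s4_mem (N := N) hq hz
  have hc := s4_comm hz
  refine ⟨⟨fun γ hγ h => ?_, fun γ hγ h => ?_, ⟨{z0}, fun h hh => ?_⟩, ⟨{z0}, fun h hh => ?_⟩⟩, fun z hzz => ⟨?_, fun h hh => ?_, ?_⟩⟩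
  · rw [hm, hm]
    constructor
    · rintro ⟨δ, hδ, e⟩
      exact ⟨γ⁻¹ * δ, mul_mem (inv_mem hγ) hδ, by rw [mul_assoc, ← e, inv_mul_cancel_left]⟩
    · rintro ⟨δ, hδ, e⟩
      exact ⟨γ * δ, mul_mem hγ hδ, by rw [e, mul_assoc]⟩
  · rw [hm, hm]
    constructor
    · rintro ⟨δ, hδ, e⟩
      refine ⟨δ * γ⁻¹, mul_mem hδ (inv_mem hγ), ?_⟩
      rw [mul_assoc, ← hc, ← mul_assoc, ← e, mul_inv_cancel_right]
    · rintro ⟨δ, hδ, e⟩
      refine ⟨δ * γ, mul_mem hδ hγ, ?_⟩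
      rw [e, mul_assoc, hc, ← mul_assoc]
  · obtain ⟨γ, hγ, rfl⟩ := (hm h).1 hh
    exact ⟨z0, Finset.mem_singleton_self _, by rw [mul_inv_cancel_right]; exact hγ⟩
  · obtain ⟨γ, hγ, rfl⟩ := (hm h).1 hh
    exact ⟨z0, Finset.mem_singleton_self _, by rw [← hc, inv_mul_cancel_left]; exact hγ⟩
  · intro r hr
    rw [Finset.mem_singleton.1 hr]
    exact hzz
  · obtain ⟨γ, hγ, rfl⟩ := (hm h).1 hh
    obtain ⟨δ, hδ, rfl⟩ := (hm z).1 hzz
    refine ⟨δ * z0, Finset.mem_singleton_self _, ?_⟩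
    rw [_root_.mul_inv_rev, ← mul_assoc, mul_inv_cancel_right]
    exact mul_mem hγ (inv_mem hδ)
  · intro r hr r' hr' _
    rw [Finset.mem_singleton.1 hr, Finset.mem_singleton.1 hr']

/-- PROOF. With the element `z` of `zs_el` (`zs_bs`, `ha1_sum`, `ha1_rep`, `om_inv`): `iwe q z i = -1` (`padicValRat q q⁻¹ = -1`), so `lamO = ∏ (α_i / q^i)⁻¹ = q ^ (∑ i)`, `tri n = ∑ i`. -/
theorem lam_zs (hn : 0 < n) {q : ℕ} (hq : q.Prime) (hqN : q.Coprime N) {α : Fin n → ℂ} (hα : ∏ i, α i = 1) :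
    lamO q α (ZS n N q) = (q : ℂ) ^ tri n := by
  have _ : Fact q.Prime := ⟨hq⟩
  obtain ⟨z, hz1, hz2⟩ := zs_el (n := n) (N := N) q hq.pos hqN
  have hR := (zs_bs hn hq.pos hqN).2 z hz2
  have hinv := om_inv (N := N) hn q α
  have h1 : lamO q α (ZS n N q) = om q α z := by
    unfold lamO
    rw [ha1_sum (ha1_rep hR) hR (φ := om q α) (fun γ hγ g => hinv γ hγ g), Finset.sum_singleton]
  have hu : UpH z := fun i l hl => by
    rw [hz1, if_neg (ne_of_gt hl)]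
  rw [h1]
  unfold om
  have h2 : ∀ i : Fin n, (α i / (q : ℂ) ^ (i : ℕ)) ^ iwe q z i = (α i)⁻¹ * (q : ℂ) ^ (i : ℕ) := by
    intro i
    rw [iwe_up hn q hu, hz1, if_pos rfl, padicValRat.inv, padicValRat.self hq.one_lt, _root_.zpow_neg_one, inv_div, div_eq_mul_inv, mul_comm]
  rw [Finset.prod_congr rfl fun i _ => h2 i, Finset.prod_mul_distrib, Finset.prod_inv_distrib, hα, inv_one, one_mul, Finset.prod_pow_eq_pow_sum]
  rfl

theorem s4_fix (hn : 0 < n) {m : ℕ} (hm : 0 < m) {h : HH n N} (h1 : mQ h = (m : ℚ) • (1 : Matrix (Fin n) (Fin n) ℚ))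
    (h2 : (h.1.2.1 : Matrix (Fin n) (Fin n) (ZMod N)) = 1) (x : XX n N) : h • x = x := by
  have hm0 : (0 : ℝ) < m := by exact_mod_cast hm
  rw [hh_smul]
  refine Prod.ext ?_ ?_
  · show hK h x.1 = x.1
    apply Subtype.ext
    rw [hb2_k1, h2, Matrix.det_one, hb2_T1, Matrix.one_mul, Matrix.mul_one]
  · show hG h * x.2 = x.2
    have h3 : hG h = 1 := by
      apply Subtype.ext
      rw [hb2_g1]
      refine Matrix.ext fun i l => ?_
      have h4 : (h.1.1.1 : Matrix (Fin n) (Fin n) ℚ) = (m : ℚ) • (1 : Matrix (Fin n) (Fin n) ℚ) := h1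
      rw [Matrix.of_apply, h4, Matrix.det_smul, Matrix.det_one, mul_one, Fintype.card_fin]
      have h5 : (((m : ℚ) ^ n : ℚ) : ℝ) ^ (-(1 / (n : ℝ))) = (m : ℝ)⁻¹ := by
        rw [Rat.cast_pow, Rat.cast_natCast, ← Real.rpow_natCast, ← Real.rpow_mul hm0.le]
        have h6 : (n : ℝ) * -(1 / (n : ℝ)) = -1 := by
          have : (n : ℝ) ≠ 0 := by exact_mod_cast hn.ne'
          field_simp
        rw [h6, Real.rpow_neg_one]
      rw [h5, Matrix.smul_apply]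
      show algebraMap ℝ (EE ℚ) ((m : ℝ)⁻¹ * (((m : ℚ) • (1 : Matrix (Fin n) (Fin n) ℚ) i l : ℚ) : ℝ)) = (1 : Matrix (Fin n) (Fin n) (EE ℚ)) i l
      rw [Matrix.one_apply, Matrix.one_apply]
      split_ifs
      · rw [smul_eq_mul, mul_one, Rat.cast_natCast, inv_mul_cancel₀ hm0.ne', map_one]
      · rw [smul_zero, Rat.cast_zero, mul_zero, map_zero]
    rw [h3, one_mul]

/-- PROOF. Let `z` be as in `zs_el`. `TS ZS F x = F (z • x)` (`ts_rep`, `zs_bs`), so `F (z^M • x) = c^M F x`. `hG z = 1` (`z` is a scalar; `hb2_g1`) and `hK (z^M) κ = κ` if `q^M ≡ 1` modulo `N` (`M ≥ 1`, e.g. `N.totient`: `ZMod.pow_totient`): the second component of `z^M` is the scalar `q^(-M) = 1` (`hb2_k1`, `hb2_T1`). So `z^M • x = x`, `c^M = 1` (`F x ≠ 0` for some `x`) and `‖c‖ = 1`. -/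
theorem zs_norm (hn : 0 < n) (hN : 0 < N) {q : ℕ} (hq : q.Prime) (hqN : q.Coprime N) {F : XX n N → ℂ} (hF : InvF (GH n N) F) {c : ℂ}
    (h : ∀ x, TS (GH n N) (ZS n N q) F x = c * F x) (h0 : F ≠ 0) : ‖c‖ = 1 := by
  obtain ⟨z, hz⟩ := s4_el n hq.pos hqN
  have hzm : z ∈ ZS n N q := (s4_mem hq.pos hz z).2 ⟨1, one_mem _, (one_mul z).symm⟩
  have h1 : ∀ x, F (z • x) = c * F x := by
    intro x
    rw [← h x, ts_rep ((zs_bs hn hq.pos hqN).2 z hzm) hF, Finset.sum_singleton]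
  have h2 : ∀ (m : ℕ) (x : XX n N), F (z ^ m • x) = c ^ m * F x := by
    intro m
    induction m with
    | zero => intro x; rw [pow_zero, one_smul, pow_zero, one_mul]
    | succ m ih =>
      intro x
      rw [pow_succ, mul_smul, ih, h1, pow_succ]
      ring
  have hM : 0 < N.totient := Nat.totient_pos.2 hN
  obtain ⟨H, hH1, hH2⟩ := s4_int n (m := q ^ N.totient) (N := N) (pow_pos hq.pos _) (Nat.Coprime.pow_left _ hqN)
  have hq1 : ((q ^ N.totient : ℕ) : ZMod N) = 1 := by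
    have h3 := ZMod.pow_totient (ZMod.unitOfCoprime q hqN)
    have h4 := congrArg Units.val h3
    rw [Units.val_pow_eq_pow_val, ZMod.coe_unitOfCoprime, Units.val_one] at h4
    rw [Nat.cast_pow]
    exact h4
  rw [hq1, one_smul] at hH2
  have hfix := s4_fix hn (pow_pos hq.pos N.totient) hH1 hH2
  have hq0 : (q : ℚ) ≠ 0 := by exact_mod_cast hq.ne_zero
  have hzH : z ^ N.totient * H = 1 := by
    refine hh_ext ?_
    show mQ (z ^ N.totient * H) = mQ (1 : HH n N)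
    rw [mq_mul, s4_pow, hz, hH1, mq_one, smul_pow, one_pow, Matrix.smul_mul, Matrix.mul_smul, Matrix.one_mul, smul_smul, Nat.cast_pow, ← mul_pow,
      inv_mul_cancel₀ hq0, one_pow, one_smul]
  obtain ⟨x, hx⟩ : ∃ x, F x ≠ 0 := by
    by_contra hcon
    push Not at hcon
    exact h0 (funext hcon)
  have h3 : c ^ N.totient * F x = F x := by
    have h4 := h2 N.totient (H • x)
    rw [← mul_smul, hzH, one_smul, hfix x] at h4
    exact h4.symm
  have h5 : c ^ N.totient = 1 := mul_right_cancel₀ hx (by rw [h3, one_mul])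
  have h6 : ‖c‖ ^ N.totient = 1 := by rw [← norm_pow, h5, norm_one]
  exact (pow_eq_one_iff_of_nonneg (norm_nonneg _) hM.ne').1 h6

end

end Pool.Agent.Lib.H85P
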