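import Pool.Agent.Lib.H85P.SD

/-!
# H85P, S5: compositions of Hecke operators (abstract)
-/

namespace Pool.Agent.Lib.H85P

open MeasureTheory Pool.Agent.Lib.H33W Pool.Agent.Lib.H33N

noncomputable section

variable {H : Type} [Group H] {Γ : Subgroup H}

/-- PROOF. `Q` is a set of representatives of the cosets `Γ r' r`, `r ∈ R = rep Γ S`, `r' ∈ Q'`; `c g = ∑_{r ∈ R} c' (g r⁻¹)`. Left invariance is clear. Right invariance: `c (g γ) = ∑_r c' (g (r γ⁻¹)⁻¹)`; `r ↦ r γ⁻¹` permutes the cosets `Γ \ S` and `c' (g r⁻¹)` only depends on `Γ r` (right invariance of `c'`; `ha1_sum`).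
`TS Γ S G x = ∑_{r ∈ R} G (r x) = ∑_r ∑_{g' ∈ Q'} c' g' F (g' r x)`; for fixed `r` the `g' r` are representatives of the cosets `Γ g` with `c' (g r⁻¹) ≠ 0`-support, so `∑_{g' ∈ Q'} c' g' F (g' r x) = ∑_{g ∈ Q} c' (g r⁻¹) F (g x)` (as in `ha2_comp`, `H33N.HA2`). -/
theorem comp_step {S : Set H} (hS : BS Γ S) {Q' : Finset H} {c' : H → ℂ} (h1 : ∀ γ ∈ Γ, ∀ g, c' (γ * g) = c' g) (h2 : ∀ γ ∈ Γ, ∀ g, c' (g * γ) = c' g)
    (h3 : ∀ g ∈ Q', ∀ g' ∈ Q', g' * g⁻¹ ∈ Γ → g = g') (h4 : ∀ g, c' g ≠ 0 → ∃ g' ∈ Q', g * g'⁻¹ ∈ Γ) :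
    ∃ (Q : Finset H) (c : H → ℂ), (∀ γ ∈ Γ, ∀ g, c (γ * g) = c g) ∧ (∀ γ ∈ Γ, ∀ g, c (g * γ) = c g) ∧
      (∀ g ∈ Q, ∀ g' ∈ Q, g' * g⁻¹ ∈ Γ → g = g') ∧ (∀ g, c g ≠ 0 → ∃ g' ∈ Q, g * g'⁻¹ ∈ Γ) ∧
      (∀ g, c g ≠ 0 → ∃ g' r, c' g' ≠ 0 ∧ r ∈ S ∧ g = g' * r) ∧
      ∀ F G : H → ℂ, InvF (X := H) Γ F → (∀ x, G x = ∑ g ∈ Q', c' g * F (g * x)) → ∀ x, TS Γ S G x = ∑ g ∈ Q, c g * F (g * x) := by
  classical
  obtain ⟨R₀, hR₀⟩ := repL_ex hS
  have hR : RepL Γ S (rep Γ S) := ha1_rep hR₀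
  obtain ⟨ρ, r1, r2⟩ := ha1_rho Γ
  have hleft : ∀ {a b : H}, a * b⁻¹ ∈ Γ → c' a = c' b := by
    intro a b hab
    have := h1 _ hab b
    rwa [inv_mul_cancel_right] at this
  obtain ⟨Q, hQ⟩ : ∃ Q, Q = (rep Γ S ×ˢ Q').image fun p => ρ (p.2 * p.1) := ⟨_, rfl⟩
  have q1 : ∀ g ∈ Q, ∀ g' ∈ Q, g' * g⁻¹ ∈ Γ → g = g' := by
    intro g hg g' hg' he
    rw [hQ] at hg hg'
    obtain ⟨p, hp, rfl⟩ := Finset.mem_image.1 hg
    obtain ⟨q, hq, rfl⟩ := Finset.mem_image.1 hg'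
    exact r2 _ _ (ha1_trans (r1 _) (ha1_trans he (ha1_symm (r1 _))))
  have q2 : ∀ g : H, ∀ r ∈ rep Γ S, c' (g * r⁻¹) ≠ 0 → ∃ g' ∈ Q, g * g'⁻¹ ∈ Γ := by
    intro g r hr hg
    obtain ⟨g', hg', he⟩ := h4 _ hg
    refine ⟨ρ (g' * r), ?_, ?_⟩
    · rw [hQ]
      exact Finset.mem_image.2 ⟨(r, g'), Finset.mem_product.2 ⟨hr, hg'⟩, rfl⟩
    · refine ha1_trans (b := g' * r) ?_ (r1 _)
      rw [_root_.mul_inv_rev, ← mul_assoc]
      exact he
  refine ⟨Q, fun g => ∑ r ∈ rep Γ S, c' (g * r⁻¹), ?_, ?_, q1, ?_, ?_, ?_⟩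
  · intro γ hγ g
    refine Finset.sum_congr rfl fun r _ => ?_
    rw [mul_assoc, h1 γ hγ]
  · intro γ hγ g
    have hR2 : RepL Γ S ((rep Γ S).image fun r => r * γ⁻¹) := by
      refine ⟨?_, ?_, ?_⟩
      · intro r hr
        obtain ⟨a, ha, rfl⟩ := Finset.mem_image.1 hr
        exact (hS.right _ (inv_mem hγ) a).2 (hR.mem a ha)
      · intro h hh
        obtain ⟨r, hr, he⟩ := hR.ex (h * γ) ((hS.right γ hγ h).2 hh)
        refine ⟨r * γ⁻¹, Finset.mem_image.2 ⟨r, hr, rfl⟩, ?_⟩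
        rw [_root_.mul_inv_rev, inv_inv, ← mul_assoc]
        exact he
      · intro r hr r' hr' he
        obtain ⟨a, ha, rfl⟩ := Finset.mem_image.1 hr
        obtain ⟨b, hb, rfl⟩ := Finset.mem_image.1 hr'
        have e : b * γ⁻¹ * (a * γ⁻¹)⁻¹ = b * a⁻¹ := by
          rw [_root_.mul_inv_rev, mul_assoc, mul_inv_cancel_left]
        rw [e] at he
        rw [hR.uniq a ha b hb he]
    have h5 := ha1_sum hR hR2 (φ := fun h => c' (g * h⁻¹)) fun γ' hγ' h => by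
      change c' (g * (γ' * h)⁻¹) = c' (g * h⁻¹)
      rw [_root_.mul_inv_rev, ← mul_assoc, h2 _ (inv_mem hγ')]
    rw [Finset.sum_image fun a _ b _ he => mul_right_cancel he] at h5
    change ∑ r ∈ rep Γ S, c' (g * γ * r⁻¹) = ∑ r ∈ rep Γ S, c' (g * r⁻¹)
    rw [h5]
    refine Finset.sum_congr rfl fun r _ => ?_
    rw [_root_.mul_inv_rev, inv_inv, ← mul_assoc]
  · intro g hg
    obtain ⟨r, hr, hne⟩ := Finset.exists_ne_zero_of_sum_ne_zero hg
    exact q2 g r hr hne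
  · intro g hg
    obtain ⟨r, hr, hne⟩ := Finset.exists_ne_zero_of_sum_ne_zero hg
    exact ⟨g * r⁻¹, r, hne, hR.mem r hr, (inv_mul_cancel_right g r).symm⟩
  · intro F G hF hG x
    have key : ∀ r ∈ rep Γ S, G (r * x) = ∑ g ∈ Q, c' (g * r⁻¹) * F (g * x) := by
      intro r hr
      rw [hG]
      have hA : RepL Γ {h | c' (h * r⁻¹) ≠ 0}
          ((Q'.filter fun g => c' g ≠ 0).image fun g => g * r) := by
        refine ⟨?_, ?_, ?_⟩
        · intro a ha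
          obtain ⟨g, hg, rfl⟩ := Finset.mem_image.1 ha
          change c' (g * r * r⁻¹) ≠ 0
          rw [mul_inv_cancel_right]
          exact (Finset.mem_filter.1 hg).2
        · intro a ha
          obtain ⟨g', hg', he⟩ := h4 _ ha
          have h6 : c' g' ≠ 0 := by
            rw [← hleft he]
            exact ha
          refine ⟨g' * r, Finset.mem_image.2 ⟨g', Finset.mem_filter.2 ⟨hg', h6⟩, rfl⟩, ?_⟩
          rw [_root_.mul_inv_rev, ← mul_assoc]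
          exact he
        · intro a ha b hb he
          obtain ⟨g, hg, rfl⟩ := Finset.mem_image.1 ha
          obtain ⟨g', hg', rfl⟩ := Finset.mem_image.1 hb
          have e : g' * r * (g * r)⁻¹ = g' * g⁻¹ := by
            rw [_root_.mul_inv_rev, mul_assoc, mul_inv_cancel_left]
          rw [e] at he
          rw [h3 g (Finset.mem_filter.1 hg).1 g' (Finset.mem_filter.1 hg').1 he]
      have hB : RepL Γ {h | c' (h * r⁻¹) ≠ 0} (Q.filter fun g => c' (g * r⁻¹) ≠ 0) := by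
        refine ⟨?_, ?_, ?_⟩
        · intro a ha
          exact (Finset.mem_filter.1 ha).2
        · intro a ha
          obtain ⟨g', hg', he⟩ := q2 a r hr ha
          refine ⟨g', Finset.mem_filter.2 ⟨hg', ?_⟩, he⟩
          have h6 : c' (a * r⁻¹) = c' (g' * r⁻¹) := by
            apply hleft
            rw [_root_.mul_inv_rev, inv_inv, mul_assoc, inv_mul_cancel_left]
            exact he
          rw [← h6]
          exact ha
        · intro a ha b hb he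
          exact q1 a (Finset.mem_filter.1 ha).1 b (Finset.mem_filter.1 hb).1 he
      have h7 := ha1_sum hA hB (φ := fun g => c' (g * r⁻¹) * F (g * x)) fun γ hγ g => by
        change c' (γ * g * r⁻¹) * F (γ * g * x) = c' (g * r⁻¹) * F (g * x)
        rw [mul_assoc γ g r⁻¹, h1 γ hγ, mul_assoc γ g x]
        congr 1
        exact hF γ hγ (g * x)
      rw [Finset.sum_image fun a _ b _ he => mul_right_cancel he] at h7
      have h8 : ∑ g ∈ Q', c' g * F (g * (r * x)) =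
          ∑ g ∈ Q'.filter fun g => c' g ≠ 0, c' (g * r * r⁻¹) * F (g * r * x) := by
        rw [Finset.sum_filter]
        refine Finset.sum_congr rfl fun g _ => ?_
        split_ifs with h9
        · rw [mul_inv_cancel_right, mul_assoc]
        · rw [not_not.mp h9, zero_mul]
      have h10 : ∑ g ∈ Q, c' (g * r⁻¹) * F (g * x) =
          ∑ g ∈ Q.filter fun g => c' (g * r⁻¹) ≠ 0, c' (g * r⁻¹) * F (g * x) := by
        rw [Finset.sum_filter]
        refine Finset.sum_congr rfl fun g _ => ?_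
        split_ifs with h9
        · rfl
        · rw [not_not.mp h9, zero_mul]
      rw [h8, h10]
      exact h7
    change ∑ r ∈ rep Γ S, G (r • x) = _
    have h11 : ∑ r ∈ rep Γ S, G (r • x) =
        ∑ r ∈ rep Γ S, ∑ g ∈ Q, c' (g * r⁻¹) * F (g * x) := by
      refine Finset.sum_congr rfl fun r hr => ?_
      rw [smul_eq_mul]
      exact key r hr
    rw [h11, Finset.sum_comm]
    refine Finset.sum_congr rfl fun g _ => ?_
    rw [Finset.sum_mul]

/-- PROOF. Induction on the list with `comp_step`; `[]`: `Q = {1}`, `c = 1` on `Γ`, `0` elsewhere. -/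
theorem comp_list (Ls : List (Set H)) (hL : ∀ S ∈ Ls, BS Γ S) :
    ∃ (Q : Finset H) (c : H → ℂ), (∀ γ ∈ Γ, ∀ g, c (γ * g) = c g) ∧ (∀ γ ∈ Γ, ∀ g, c (g * γ) = c g) ∧
      (∀ g ∈ Q, ∀ g' ∈ Q, g' * g⁻¹ ∈ Γ → g = g') ∧ (∀ g, c g ≠ 0 → ∃ g' ∈ Q, g * g'⁻¹ ∈ Γ) ∧ (∀ g, c g ≠ 0 → g ∈ PL Γ Ls) ∧
      ∀ F : H → ℂ, InvF (X := H) Γ F → ∀ x, (Ls.foldr (fun S G => TS Γ S G) F) x = ∑ g ∈ Q, c g * F (g * x) := by
  classical
  induction Ls with
  | nil =>
    refine ⟨{1}, fun g => if g ∈ Γ then 1 else 0, ?_, ?_, ?_, ?_, ?_, ?_⟩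
    · intro γ hγ g
      change (if γ * g ∈ Γ then (1 : ℂ) else 0) = if g ∈ Γ then 1 else 0
      rw [Subgroup.mul_mem_cancel_left Γ hγ]
    · intro γ hγ g
      change (if g * γ ∈ Γ then (1 : ℂ) else 0) = if g ∈ Γ then 1 else 0
      rw [Subgroup.mul_mem_cancel_right Γ hγ]
    · intro g hg g' hg' _
      rw [Finset.mem_singleton] at hg hg'
      rw [hg, hg']
    · intro g hg
      refine ⟨1, Finset.mem_singleton_self 1, ?_⟩
      rw [inv_one, mul_one]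
      by_contra hcon
      exact hg (if_neg hcon)
    · intro g hg
      by_contra hcon
      exact hg (if_neg hcon)
    · intro F _ x
      change F x = ∑ g ∈ ({1} : Finset H), (if g ∈ Γ then (1 : ℂ) else 0) * F (g * x)
      rw [Finset.sum_singleton, if_pos (one_mem Γ), one_mul, one_mul]
  | cons S Ls ih =>
    obtain ⟨Q', c', a1, a2, a3, a4, a5, a6⟩ := ih fun T hT => hL T (List.mem_cons_of_mem _ hT)
    obtain ⟨Q, c, b1, b2, b3, b4, b5, b6⟩ :=
      comp_step (hL S List.mem_cons_self) a1 a2 a3 a4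
    refine ⟨Q, c, b1, b2, b3, b4, ?_, ?_⟩
    · intro g hg
      obtain ⟨g', r, hg', hr, he⟩ := b5 g hg
      exact ⟨g', a5 g' hg', r, hr, he⟩
    · intro F hF x
      exact b6 F (Ls.foldr (fun S G => TS Γ S G) F) hF (a6 F hF) x

end

end Pool.Agent.Lib.H85P
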