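import Pool.Agent.Lib.H85P.S5

/-!
# H85P, S6: transfer (abstract)
-/

namespace Pool.Agent.Lib.H85P

open MeasureTheory Pool.Agent.Lib.H33W Pool.Agent.Lib.H33N

noncomputable section

variable {H : Type} [Group H] {Γ : Subgroup H}

theorem s6_self {H : Type} [Group H] (Γ : Subgroup H) (g : H) : g ∈ DCo Γ g :=
  ⟨1, one_mem _, 1, one_mem _, by rw [one_mul, mul_one]⟩

theorem s6_eq {H : Type} [Group H] {Γ : Subgroup H} {g g' : H} (h : g' ∈ DCo Γ g) : DCo Γ g' = DCo Γ g := by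
  obtain ⟨a, ha, b, hb, rfl⟩ := h
  ext x
  constructor
  · rintro ⟨c, hc, d, hd, rfl⟩
    exact ⟨c * a, mul_mem hc ha, b * d, mul_mem hb hd, by simp only [mul_assoc]⟩
  · rintro ⟨c, hc, d, hd, rfl⟩
    refine ⟨c * a⁻¹, mul_mem hc (inv_mem ha), b⁻¹ * d, mul_mem (inv_mem hb) hd, ?_⟩
    simp only [mul_assoc, inv_mul_cancel_left, mul_inv_cancel_left]

/-- PROOF. Let `φ = ψ - ω` (left `Γ`-invariant) and `Q`, `c` as in `comp_list`. The difference of the two sides is `∑_{g ∈ Q} c g φ g`. Split `Q` (the `g` with `c g ≠ 0`) into the fibers of `g ↦ DCo Γ g` (`Finset.sum_fiberwise`, or strong induction on the cardinality removing one double coset): on `Q ∩ DCo Γ g₀` `c` is constant, and this set is a set of representatives of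
`Γ \ DCo Γ g₀` (`RepL`: the cosets in `DCo Γ g₀` have `c ≠ 0` by bi-invariance, so they are represented in `Q`). The sum of `φ` over it is `0` by `hD` (`ha1_sum`, `ha1_rep`). -/
theorem transfer {ψ ω : H → ℂ} (hψ : InvF (X := H) Γ ψ) (hω : InvF (X := H) Γ ω) {Ls : List (Set H)} (hL : ∀ S ∈ Ls, BS Γ S)
    (hD : ∀ g ∈ PL Γ Ls, BS Γ (DCo Γ g) ∧ ∑ r ∈ rep Γ (DCo Γ g), ψ r = ∑ r ∈ rep Γ (DCo Γ g), ω r) :
    (Ls.foldr (fun S G => TS Γ S G) ψ) 1 = (Ls.foldr (fun S G => TS Γ S G) ω) 1 := by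
  classical
  obtain ⟨Q, c, c1, c2, u, e, pl, comp⟩ := comp_list Ls hL
  rw [comp ψ hψ 1, comp ω hω 1]
  have hcD : ∀ g g₀, g ∈ DCo Γ g₀ → c g = c g₀ := by
    rintro g g₀ ⟨a, ha, b, hb, rfl⟩
    rw [c2 b hb, c1 a ha]
  have key : ∀ F : H → ℂ, ∑ g ∈ Q, c g * F (g * 1) =
      ∑ D ∈ Q.image (DCo Γ), ∑ g ∈ Q.filter (fun g => DCo Γ g = D), c g * F g := by
    intro F
    rw [Finset.sum_fiberwise_of_maps_to (fun g hg => Finset.mem_image_of_mem _ hg)]
    exact Finset.sum_congr rfl fun g _ => by rw [mul_one]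
  rw [key ψ, key ω]
  refine Finset.sum_congr rfl fun D hD' => ?_
  obtain ⟨g₀, hg₀, rfl⟩ := Finset.mem_image.1 hD'
  have hmem : ∀ g ∈ Q.filter (fun g => DCo Γ g = DCo Γ g₀), g ∈ DCo Γ g₀ := by
    intro g hg
    rw [← (Finset.mem_filter.1 hg).2]
    exact s6_self Γ g
  have hsum : ∀ F : H → ℂ, ∑ g ∈ Q.filter (fun g => DCo Γ g = DCo Γ g₀), c g * F g =
      c g₀ * ∑ g ∈ Q.filter (fun g => DCo Γ g = DCo Γ g₀), F g := by
    intro F
    rw [Finset.mul_sum]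
    exact Finset.sum_congr rfl fun g hg => by rw [hcD g g₀ (hmem g hg)]
  rw [hsum ψ, hsum ω]
  by_cases hc : c g₀ = 0
  · rw [hc, zero_mul, zero_mul]
  · obtain ⟨-, hs⟩ := hD g₀ (pl g₀ hc)
    have hR : RepL Γ (DCo Γ g₀) (Q.filter (fun g => DCo Γ g = DCo Γ g₀)) := by
      refine ⟨hmem, ?_, ?_⟩
      · intro g hg
        have h1 : c g ≠ 0 := by rw [hcD g g₀ hg]; exact hc
        obtain ⟨g', hg', h2⟩ := e g h1
        refine ⟨g', Finset.mem_filter.2 ⟨hg', ?_⟩, h2⟩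
        have h3 : g' ∈ DCo Γ g := by
          refine ⟨g' * g⁻¹, ha1_symm h2, 1, one_mem _, ?_⟩
          rw [inv_mul_cancel_right, mul_one]
        rw [s6_eq h3, s6_eq hg]
      · intro r hr r' hr' he
        exact u r (Finset.mem_filter.1 hr).1 r' (Finset.mem_filter.1 hr').1 he
    have hi : ∀ F : H → ℂ, InvF (X := H) Γ F → ∑ g ∈ Q.filter (fun g => DCo Γ g = DCo Γ g₀), F g =
        ∑ r ∈ rep Γ (DCo Γ g₀), F r := fun F hF =>
      ha1_sum hR (ha1_rep hR) fun γ hγ g => hF γ hγ g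
    rw [hi ψ hψ, hi ω hω, hs]

/-- PROOF. Induction on the list; `TS Γ S (c F) = c TS Γ S F`. -/
theorem fold_eig {ψ : H → ℂ} (a : Set H → ℂ) {Ls : List (Set H)} (h : ∀ S ∈ Ls, ∀ x, TS Γ S ψ x = a S * ψ x) (x : H) :
    (Ls.foldr (fun S G => TS Γ S G) ψ) x = (Ls.map a).prod * ψ x := by
  induction Ls generalizing x with
  | nil => simp
  | cons S Ls ih =>
    have ih' : ∀ x, (Ls.foldr (fun S G => TS Γ S G) ψ) x = (Ls.map a).prod * ψ x :=
      fun x => ih (fun S' hS' x => h S' (List.mem_cons_of_mem _ hS') x) x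
    have e : (Ls.foldr (fun S G => TS Γ S G) ψ) = fun x => (Ls.map a).prod * ψ x := funext ih'
    rw [List.foldr_cons, e, List.map_cons, List.prod_cons, mul_assoc]
    have h1 : TS Γ S (fun x => (Ls.map a).prod * ψ x) x = (Ls.map a).prod * TS Γ S ψ x := by
      unfold TS
      rw [Finset.mul_sum]
    rw [h1, h S List.mem_cons_self x]
    ring

end

end Pool.Agent.Lib.H85P
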