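import Pool.Agent.Lib.H85P.SD

/-!
# H85P, S7: double cosets of elements of determinant one
-/

namespace Pool.Agent.Lib.H85P

open MeasureTheory Matrix NumberField IsDedekindDomain
open Pool.Agent.Lib.H89N Pool.Agent.Lib.H33W Pool.Agent.Lib.H33N

noncomputable section

variable {n N : ℕ}

/-- Elements of `HG` as elements of `HH` with reduction `1`. -/
theorem hg_to {v : HeightOneSpectrum (𝓞 ℚ)} (hv : ¬nI N ≤ v.asIdeal) {s : SLK n ℚ} (hs : s ∈ HG (nI N) v) :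
    ∃ h : HH n N, mQ h = s.1 ∧ (h.1.2.1 : Matrix (Fin n) (Fin n) (ZMod N)) = 1 := by
  obtain ⟨q, hq, -, hcop, hden⟩ := den_iff v
  obtain ⟨j, hj⟩ := hs
  have hZ : ∀ i l, ∃ z : ℤ, (q : ℚ) ^ j * (s.1 - 1) i l = N * z := fun i l => (hden N j _).1 (hj i l).1
  choose Z hZ using hZ
  have hqN : q.Coprime N := (hcop N).1 hv
  have hdet : 0 < s.1.det := by
    rw [s.2]
    exact one_pos
  refine ⟨⟨(SpecialLinearGroup.toGL s, 1), hdet, q ^ j, Matrix.of fun i l => ((q ^ j : ℕ) : ℤ) * (1 : Matrix (Fin n) (Fin n) ℤ) i l + N * Z i l,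
    pow_pos hq.pos j, Nat.Coprime.pow_left j hqN, ?_, ?_⟩, rfl, rfl⟩
  · show ((q ^ j : ℕ) : ℚ) • s.1 = _
    refine Matrix.ext fun i l => ?_
    rw [Matrix.smul_apply, Matrix.map_apply, Matrix.of_apply, smul_eq_mul]
    show ((q ^ j : ℕ) : ℚ) * s.1 i l = (((((q ^ j : ℕ) : ℤ) * (1 : Matrix (Fin n) (Fin n) ℤ) i l + N * Z i l) : ℤ) : ℚ)
    have h1 := hZ i l
    rw [Matrix.sub_apply] at h1
    push_cast
    rw [← h1, Matrix.one_apply, Matrix.one_apply]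
    split_ifs
    · push_cast
      ring
    · push_cast
      ring
  · show ((q ^ j : ℕ) : ZMod N) • (1 : Matrix (Fin n) (Fin n) (ZMod N)) = _
    refine Matrix.ext fun i l => ?_
    rw [Matrix.smul_apply, Matrix.map_apply, Matrix.of_apply, smul_eq_mul]
    show ((q ^ j : ℕ) : ZMod N) * (1 : Matrix (Fin n) (Fin n) (ZMod N)) i l =
      (((((q ^ j : ℕ) : ℤ) * (1 : Matrix (Fin n) (Fin n) ℤ) i l + N * Z i l) : ℤ) : ZMod N)
    push_cast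
    rw [Matrix.one_apply, Matrix.one_apply]
    split_ifs <;> simp

theorem s7_int {q j : ℕ} (k : ℕ) {A : Matrix (Fin n) (Fin n) ℚ} {M : Matrix (Fin n) (Fin n) ℤ} (h : ((q : ℚ) ^ j) • A = M.map (Int.castRingHom ℚ))
    (i l : Fin n) : ∃ z : ℤ, (q : ℚ) ^ (j + k) * (A - 1) i l = z := by
  refine ⟨(q : ℤ) ^ k * (M i l - (q : ℤ) ^ j * (1 : Matrix (Fin n) (Fin n) ℤ) i l), ?_⟩
  have h1 := congrFun (congrFun h i) l
  rw [Matrix.smul_apply, Matrix.map_apply, smul_eq_mul] at h1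
  have h2 : (q : ℚ) ^ j * A i l = ((M i l : ℤ) : ℚ) := h1
  push_cast
  rw [← h2, Matrix.sub_apply, pow_add, Matrix.one_apply, Matrix.one_apply]
  split_ifs
  · push_cast
    ring
  · push_cast
    ring

/-- Elements with reduction `1`, determinant `1` and `q`-power denominators. -/
theorem hg_of {v : HeightOneSpectrum (𝓞 ℚ)} (hv : ¬nI N ≤ v.asIdeal) {h : HH n N} (h1 : (h.1.2.1 : Matrix (Fin n) (Fin n) (ZMod N)) = 1)
    (hd : (mQ h).det = 1) {j : ℕ} {M : Matrix (Fin n) (Fin n) ℤ} (hM : ((Ideal.absNorm v.asIdeal : ℚ) ^ j) • mQ h = M.map (Int.castRingHom ℚ)) :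
    ∃ s ∈ HG (nI N) v, mQ h = s.1 := by
  obtain ⟨q, hq, hqv, hcop, hden⟩ := den_iff v
  rw [hqv] at hM
  obtain ⟨s, e⟩ : ∃ s : SLK n ℚ, mQ h = s.1 := ⟨⟨mQ h, hd⟩, rfl⟩
  have key : ∀ (g : HH n N) (t : SLK n ℚ), (g.1.2.1 : Matrix (Fin n) (Fin n) (ZMod N)) = 1 → (g.1.1.1 : Matrix (Fin n) (Fin n) ℚ) = t.1 →
      ∀ (J : ℕ) (i l : Fin n), (∃ z : ℤ, (q : ℚ) ^ J * (t.1 - 1) i l = z) → Den (nI N) v J ((t.1 - 1) i l) := by
    intro g t g1 ge J i l hz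
    obtain ⟨z, hz⟩ := hz
    obtain ⟨-, c, M, hc, hcN, e1, e2⟩ := g.2
    rw [ge] at e1
    rw [g1] at e2
    exact (hden N J _).2 (hf5_div hcN e1 e2 hz)
  have hinv1 : ((h⁻¹ : HH n N).1.2.1 : Matrix (Fin n) (Fin n) (ZMod N)) = 1 := by
    have h2 : (h.1.2.1 : Matrix (Fin n) (Fin n) (ZMod N)) * ((h⁻¹ : HH n N).1.2.1 : Matrix (Fin n) (Fin n) (ZMod N)) = 1 :=
      congrArg (fun g : HH n N => (g.1.2.1 : Matrix (Fin n) (Fin n) (ZMod N))) (mul_inv_cancel h)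
    rw [h1, Matrix.one_mul] at h2
    exact h2
  have hinv2 : ((h⁻¹ : HH n N).1.1.1 : Matrix (Fin n) (Fin n) ℚ) = (s⁻¹).1 := by
    have h2 : ((h⁻¹ : HH n N).1.1.1 : Matrix (Fin n) (Fin n) ℚ) * (h.1.1.1 : Matrix (Fin n) (Fin n) ℚ) = 1 :=
      congrArg (fun g : HH n N => (g.1.1.1 : Matrix (Fin n) (Fin n) ℚ)) (inv_mul_cancel h)
    have e' : (h.1.1.1 : Matrix (Fin n) (Fin n) ℚ) = s.1 := e
    rw [e'] at h2
    have h3 : s.1 * (s⁻¹).1 = 1 := congrArg Subtype.val (mul_inv_cancel s)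
    calc ((h⁻¹ : HH n N).1.1.1 : Matrix (Fin n) (Fin n) ℚ) = ((h⁻¹ : HH n N).1.1.1 : Matrix (Fin n) (Fin n) ℚ) * (s.1 * (s⁻¹).1) := by
          rw [h3, Matrix.mul_one]
      _ = (s⁻¹).1 := by rw [← Matrix.mul_assoc, h2, Matrix.one_mul]
  have hM' : ((q : ℚ) ^ (j * (n - 1))) • (s⁻¹).1 = (M.adjugate).map (Int.castRingHom ℚ) := by
    have h4 : (M.adjugate).map (Int.castRingHom ℚ) = (M.map (Int.castRingHom ℚ)).adjugate :=
      RingHom.map_adjugate (Int.castRingHom ℚ) M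
    rw [h4, ← hM, Matrix.adjugate_smul, Fintype.card_fin, Matrix.SpecialLinearGroup.coe_inv, ← pow_mul]
    rw [show (mQ h).adjugate = Matrix.adjugate s.1 by rw [e]]
  refine ⟨s, ⟨j + j * (n - 1), fun i l => ⟨key h s h1 e _ i l ?_, key h⁻¹ s⁻¹ hinv1 hinv2 _ i l ?_⟩⟩, e⟩
  · rw [← e]
    exact s7_int _ hM i l
  · rw [add_comm j]
    exact s7_int _ hM' i l

/-- Every coset `GH h`, `det h = 1`, contains an element with reduction `1`. -/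
theorem red_one (hN : 0 < N) {h : HH n N} (hd : (mQ h).det = 1) : ∃ γ ∈ GH n N, ((γ * h).1.2.1 : Matrix (Fin n) (Fin n) (ZMod N)) = 1 := by
  obtain ⟨s, e⟩ : ∃ s : SLK n ℚ, (h.1.1.1 : Matrix (Fin n) (Fin n) ℚ) = s.1 := ⟨⟨mQ h, hd⟩, rfl⟩
  obtain ⟨-, κ, hκ, -⟩ := sl_act hN e
  refine ⟨zh N (lift κ)⁻¹, ⟨_, rfl⟩, ?_⟩
  have h1 : ((zh N (lift κ)⁻¹ * h).1.2.1 : Matrix (Fin n) (Fin n) (ZMod N)) =
      (rd n N (lift κ)⁻¹).1 * (h.1.2.1 : Matrix (Fin n) (Fin n) (ZMod N)) := rfl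
  rw [h1, map_inv, lift_spec hN, ← hκ]
  exact congrArg Subtype.val (inv_mul_cancel κ)

/-- The double cosets in the two models. -/
theorem sdg_dco {g : SLK n ℚ} {g₀ : HH n N} (h : mQ g₀ = g.1) : SDg n N g = DCo (GH n N) g₀ := by
  ext x
  constructor
  · rintro ⟨γ, hγ, γ', hγ', e⟩
    rw [gam_top] at hγ hγ'
    obtain ⟨δ, rfl⟩ := hγ
    obtain ⟨δ', rfl⟩ := hγ'
    refine ⟨zh N δ, ⟨_, rfl⟩, zh N δ', ⟨_, rfl⟩, hh_ext ?_⟩
    have e' : (x.1.1.1 : Matrix (Fin n) (Fin n) ℚ) = (zq δ * g * zq δ').1 := e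
    rw [e', hb3_mul, hb3_mul, hb3_zh, hb3_zh]
    have h' : (g₀.1.1.1 : Matrix (Fin n) (Fin n) ℚ) = g.1 := h
    rw [h']
    rfl
  · rintro ⟨_, ⟨δ, rfl⟩, _, ⟨δ', rfl⟩, rfl⟩
    refine ⟨zq δ, hb3_gamma δ, zq δ', hb3_gamma δ', ?_⟩
    show ((zh N δ * g₀ * zh N δ').1.1.1 : Matrix (Fin n) (Fin n) ℚ) = (zq δ * g * zq δ').1
    rw [hb3_mul, hb3_mul, hb3_zh, hb3_zh]
    have h' : (g₀.1.1.1 : Matrix (Fin n) (Fin n) ℚ) = g.1 := h
    rw [h']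
    rfl

/-- Every double coset of an element of determinant one with `q`-power denominators comes from `HG`. -/
theorem dco_ex (hN : 0 < N) {v : HeightOneSpectrum (𝓞 ℚ)} (hv : ¬nI N ≤ v.asIdeal) {h : HH n N} (hd : (mQ h).det = 1) {j : ℕ}
    {M : Matrix (Fin n) (Fin n) ℤ} (hM : ((Ideal.absNorm v.asIdeal : ℚ) ^ j) • mQ h = M.map (Int.castRingHom ℚ)) :
    ∃ g ∈ HG (nI N) v, DCo (GH n N) h = SDg n N g := by
  obtain ⟨γ, hγ, hr⟩ := red_one hN hd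
  obtain ⟨δ, rfl⟩ := id hγ
  have e1 : mQ (zh N δ * h) = δ.1.map (Int.castRingHom ℚ) * mQ h := rfl
  have hd' : (mQ (zh N δ * h)).det = 1 := by
    rw [e1, Matrix.det_mul, hb1_det, δ.2, hd]
    norm_num
  have hM' : ((Ideal.absNorm v.asIdeal : ℚ) ^ j) • mQ (zh N δ * h) = (δ.1 * M).map (Int.castRingHom ℚ) := by
    rw [e1, Matrix.map_mul, ← hM, Matrix.mul_smul]
  obtain ⟨g, hg, e⟩ := hg_of hv hr hd' hM'
  refine ⟨g, hg, ?_⟩
  rw [sdg_dco e]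
  ext x
  constructor
  · rintro ⟨a, ha, b, hb, rfl⟩
    exact ⟨a * (zh N δ)⁻¹, mul_mem ha (inv_mem hγ), b, hb, by group⟩
  · rintro ⟨a, ha, b, hb, rfl⟩
    exact ⟨a * zh N δ, mul_mem ha hγ, b, hb, by group⟩

end

end Pool.Agent.Lib.H85P
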