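import Pool.Agent.Lib.H85P.S3
import Pool.Agent.Lib.H85P.S4
import Pool.Agent.Lib.H85P.S6
import Pool.Agent.Lib.H85P.S7
import Pool.Agent.Lib.H85P.G10

/-!
# H85P, S8: comparison of the two systems of eigenvalues
-/

namespace Pool.Agent.Lib.H85P

open MeasureTheory Matrix NumberField IsDedekindDomain
open Pool.Agent.Lib.H89N Pool.Agent.Lib.H33W Pool.Agent.Lib.H33N

noncomputable section

variable {n N : ℕ}

theorem s8_zs {q : ℕ} (hq : 0 < q) {r : HH n N} (hr : r ∈ ZS n N q) :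
    (mQ r).det = (q : ℚ) ^ (-(n : ℤ)) ∧ ∃ M : Matrix (Fin n) (Fin n) ℤ, (q : ℚ) • mQ r = M.map (Int.castRingHom ℚ) := by
  obtain ⟨_, ⟨δ, rfl⟩, e⟩ := hr
  have hq0 : (q : ℚ) ≠ 0 := by exact_mod_cast hq.ne'
  have e1 : mQ (zh N δ) = δ.1.map (Int.castRingHom ℚ) := rfl
  rw [e1] at e
  refine ⟨?_, δ.1, e⟩
  have h1 := congrArg Matrix.det e
  rw [Matrix.det_smul, Fintype.card_fin, hb1_det, δ.2, Int.cast_one] at h1
  rw [_root_.zpow_neg, zpow_natCast]
  exact eq_inv_of_mul_eq_one_right h1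

theorem s8_rep {q : ℕ} (hq : 0 < q) (m : ℕ) : ∀ g ∈ PL (GH n N) (List.replicate m (ZS n N q)),
    (mQ g).det = (q : ℚ) ^ (-((n : ℤ) * m)) ∧ ∃ M : Matrix (Fin n) (Fin n) ℤ, ((q : ℚ) ^ m) • mQ g = M.map (Int.castRingHom ℚ) := by
  have hq0 : (q : ℚ) ≠ 0 := by exact_mod_cast hq.ne'
  induction m with
  | zero =>
    intro g hg
    obtain ⟨δ, rfl⟩ : g ∈ GH n N := hg
    have e1 : mQ (zh N δ) = δ.1.map (Int.castRingHom ℚ) := rfl
    refine ⟨?_, δ.1, ?_⟩
    · rw [e1, hb1_det, δ.2]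
      simp
    · rw [e1, pow_zero, one_smul]
  | succ m ih =>
    intro g hg
    obtain ⟨g', hg', r, hr, rfl⟩ : g ∈ PL (GH n N) (ZS n N q :: List.replicate m (ZS n N q)) := hg
    obtain ⟨h1, M, h2⟩ := ih g' hg'
    obtain ⟨h3, M', h4⟩ := s8_zs hq hr
    refine ⟨?_, M * M', ?_⟩
    · rw [mq_mul, Matrix.det_mul, h1, h3, ← zpow_add₀ hq0]
      congr 1
      push_cast
      ring
    · rw [mq_mul, Matrix.map_mul, ← h2, ← h4, Matrix.smul_mul, Matrix.mul_smul, smul_smul, pow_succ]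

/-- The elements of the product of the double cosets. -/
theorem pl_det {q : ℕ} (hq : 0 < q) (r : List ℕ) (m : ℕ) {g : HH n N}
    (hg : g ∈ PL (GH n N) (r.map (fun j => SR n N (q ^ j)) ++ List.replicate m (ZS n N q))) :
    (mQ g).det = (q : ℚ) ^ ((r.sum : ℤ) - n * m) ∧ ∃ M : Matrix (Fin n) (Fin n) ℤ, ((q : ℚ) ^ m) • mQ g = M.map (Int.castRingHom ℚ) := by
  have hq0 : (q : ℚ) ≠ 0 := by exact_mod_cast hq.ne'
  induction r generalizing g with
  | nil =>
    obtain ⟨h1, h2⟩ := s8_rep hq m g hg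
    refine ⟨?_, h2⟩
    rw [h1]
    simp
  | cons j r ih =>
    obtain ⟨g', hg', s, hs, rfl⟩ : g ∈ PL (GH n N) (SR n N (q ^ j) :: (r.map (fun j => SR n N (q ^ j)) ++ List.replicate m (ZS n N q))) := hg
    obtain ⟨h1, M, h2⟩ := ih hg'
    obtain ⟨b, hb, hd⟩ := hs
    have hb' : mQ s = b.map (Int.castRingHom ℚ) := hb
    refine ⟨?_, M * b, ?_⟩
    · have h5 : (((q ^ j : ℕ) : ℤ) : ℚ) = (q : ℚ) ^ (j : ℤ) := by
        rw [zpow_natCast]
        push_cast
        rfl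
      rw [mq_mul, Matrix.det_mul, h1, hb', hb1_det, hd, h5, ← zpow_add₀ hq0, List.sum_cons, Nat.cast_add]
      congr 1
      ring
    · rw [mq_mul, Matrix.map_mul, ← h2, hb', Matrix.smul_mul]

/-- **Comparison of the two systems of eigenvalues.** -/
theorem star_eq (hn : 0 < n) (hN : 0 < N) {v : HeightOneSpectrum (𝓞 ℚ)} (hv : ¬nI N ≤ v.asIdeal) {q : ℕ} (hqv : Ideal.absNorm v.asIdeal = q) (hq : q.Prime)
    (hqN : q.Coprime N) {F : XX n N → ℂ} (hF : InvF (GH n N) F) (h0 : F ≠ 0) {a : Set (HH n N) → ℂ}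
    (ha : ∀ S, BS (GH n N) S → TS (GH n N) S F = fun x => a S * F x) {α : Fin n → ℂ} (hα : ∏ i, α i = 1)
    (hD : ∀ g ∈ HG (nI N) v, BS (GH n N) (SDg n N g) ∧ a (SDg n N g) = lamO q α (SDg n N g)) (m : ℕ) (r : List ℕ) (hr : r.sum = n * m) :
    (r.map fun j => a (SR n N (q ^ j))).prod * a (ZS n N q) ^ m = (r.map (hs α)).prod * ((q : ℂ) ^ tri n) ^ m := by
  obtain ⟨x₀, hx₀⟩ := Function.ne_iff.1 h0
  have hx : F x₀ ≠ 0 := hx₀
  have hα0 : ∀ i, α i ≠ 0 := fun i => by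
    have h1 : ∏ i, α i ≠ 0 := by
      rw [hα]
      exact one_ne_zero
    exact Finset.prod_ne_zero_iff.1 h1 i (Finset.mem_univ i)
  obtain ⟨ψ, hψ⟩ : ∃ ψ : HH n N → ℂ, ∀ h, ψ h = F (h • x₀) / F x₀ := ⟨_, fun _ => rfl⟩
  have hψi : InvF (X := HH n N) (GH n N) ψ := by
    intro γ hγ h
    rw [hψ, hψ, smul_eq_mul, mul_smul, hF γ hγ]
  have hψ1 : ψ 1 = 1 := by
    rw [hψ, one_smul, div_self hx]
  have hψT : ∀ S, BS (GH n N) S → ∀ h, TS (GH n N) S ψ h = a S * ψ h := by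
    intro S hS h
    have h1 := congrFun (ha S hS) (h • x₀)
    have h2 : TS (GH n N) S F (h • x₀) = ∑ s ∈ rep (GH n N) S, F (s • (h • x₀)) := rfl
    rw [h2] at h1
    have h3 : TS (GH n N) S ψ h = ∑ s ∈ rep (GH n N) S, ψ (s • h) := rfl
    rw [h3, hψ, ← mul_div_assoc, ← h1, Finset.sum_div]
    refine Finset.sum_congr rfl fun s _ => ?_
    rw [hψ, smul_eq_mul, mul_smul]
  have hωT : ∀ S, BS (GH n N) S → ∀ h, TS (GH n N) S (om q α) h = lamO q α S * om q α h :=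
    fun S hS h => ts_om hn hq hα0 hS h
  have hSR : ∀ j, BS (GH n N) (SR n N (q ^ j)) := fun j => (sr_bs hn hN (pow_pos hq.pos j) (Nat.Coprime.pow_left j hqN)).1
  have hZS : BS (GH n N) (ZS n N q) := (zs_bs hn hq.pos hqN).1
  have hL : ∀ S ∈ r.map (fun j => SR n N (q ^ j)) ++ List.replicate m (ZS n N q), BS (GH n N) S := by
    intro S hS
    rcases List.mem_append.1 hS with h1 | h1
    · obtain ⟨j, -, rfl⟩ := List.mem_map.1 h1
      exact hSR j
    · rw [List.eq_of_mem_replicate h1]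
      exact hZS
  have ht := transfer hψi (om_inv (N := N) hn q α) hL ?_
  · have e1 := fold_eig (Γ := GH n N) (ψ := ψ) a (Ls := r.map (fun j => SR n N (q ^ j)) ++ List.replicate m (ZS n N q))
      (fun S hS x => hψT S (hL S hS) x) 1
    have e2 := fold_eig (Γ := GH n N) (ψ := om q α) (lamO q α) (Ls := r.map (fun j => SR n N (q ^ j)) ++ List.replicate m (ZS n N q))
      (fun S hS x => hωT S (hL S hS) x) 1
    rw [e1, e2, hψ1, om_one hn, mul_one, mul_one, List.map_append, List.map_append, List.prod_append, List.prod_append, List.map_replicate,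
      List.map_replicate, List.prod_replicate, List.prod_replicate, List.map_map, List.map_map, lam_zs hn hq hqN hα] at ht
    have e3 : (lamO q α ∘ fun j => SR n N (q ^ j)) = hs α := funext fun j => lam_sr hn hN hq hqN α j
    rw [e3] at ht
    exact ht
  · intro g hg
    obtain ⟨h1, M, h2⟩ := pl_det hq.pos r m hg
    rw [hr] at h1
    have h3 : (mQ g).det = 1 := by
      rw [h1]
      push_cast
      rw [sub_self, zpow_zero]
    rw [← hqv] at h2
    obtain ⟨g', hg', e⟩ := dco_ex hN hv h3 h2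
    obtain ⟨h4, h5⟩ := hD g' hg'
    rw [e]
    refine ⟨h4, ?_⟩
    have h6 : ∑ s ∈ rep (GH n N) (SDg n N g'), ψ s = TS (GH n N) (SDg n N g') ψ 1 := by
      unfold TS
      exact Finset.sum_congr rfl fun s _ => by rw [smul_eq_mul, mul_one]
    rw [h6, hψT _ h4, hψ1, mul_one, h5]
    rfl

end

end Pool.Agent.Lib.H85P
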