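import Pool.Agent.Lib.H89N.Stm

/-!
# H85P: definitions for the statement (Hecke algebra at a place, Satake parameters)
-/

namespace Pool.Agent.Lib.H85P

open MeasureTheory Matrix NumberField IsDedekindDomain
open Pool.Agent.Lib.H89N

noncomputable section

variable {n : ℕ}

/-- **Iwasawa exponents** at `v` (`q` its norm): `g = γ⁻¹ b` with `γ ∈ SL_n(ℤ)` and `b` upper triangular with the diagonal
entries `q ^ (e i)`. -/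
def Iw (v : HeightOneSpectrum (𝓞 ℚ)) (g : SLK n ℚ) (e : Fin n → ℤ) : Prop :=
  ∃ γ ∈ Gamma n (⊤ : Ideal (𝓞 ℚ)), (∀ i l : Fin n, l < i → (γ * g).1 i l = 0) ∧
    ∀ i, (γ * g).1 i i = (Ideal.absNorm v.asIdeal : ℚ) ^ e i

/-- The elements of `HG 𝔫 v` in the double coset `SL_n(ℤ) g SL_n(ℤ)`. -/
def DC (𝔫 : Ideal (𝓞 ℚ)) (v : HeightOneSpectrum (𝓞 ℚ)) (g : SLK n ℚ) : Set (SLK n ℚ) :=
  {h | h ∈ HG 𝔫 v ∧ ∃ γ ∈ Gamma n (⊤ : Ideal (𝓞 ℚ)), ∃ γ' ∈ Gamma n (⊤ : Ideal (𝓞 ℚ)), h = γ * g * γ'}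

/-- `f` is an eigenfunction of the Hecke algebra of `SL_n` at `v` with the **Satake parameter** `α` (`q` the norm of `v`):
for every `g ∈ HG 𝔫 v` and representatives `s` of `Γ(𝔫) \ DC g`,
`∑ f (s x) = (∑ ∏ (α_i q ^ (-i)) ^ (e_i(s))) f x`, `e(s)` the Iwasawa exponents of `s`. -/
structure SatakeF (𝔫 : Ideal (𝓞 ℚ)) (v : HeightOneSpectrum (𝓞 ℚ)) (f : GG n ℚ → ℂ) (α : Fin n → ℂ) : Prop where
  prod : ∏ i, α i = 1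
  ev : ∀ g ∈ HG 𝔫 v, ∃ (S : Finset (SLK n ℚ)) (e : SLK n ℚ → Fin n → ℤ), (∀ s ∈ S, s ∈ DC 𝔫 v g ∧ Iw v s (e s)) ∧
    (∀ h ∈ DC 𝔫 v g, ∃! s, s ∈ S ∧ ∃ γ ∈ Gamma n 𝔫, h = γ * s) ∧
    ∀ x, ∑ s ∈ S, f (emb s * x) = (∑ s ∈ S, ∏ i, (α i / (Ideal.absNorm v.asIdeal : ℂ) ^ (i : ℕ)) ^ e s i) * f x

end

end Pool.Agent.Lib.H85P
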