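import Pool.Agent.Lib.H33N.HB4
import Pool.Agent.Lib.H33N.HA2
import Pool.Agent.Lib.H33N.HF5
import Pool.Agent.Lib.H33N.HF6
import Pool.Agent.Lib.H85P.Stm

/-!
# H85P, module S (the spherical function at `q` on `HH`): definitions
-/

namespace Pool.Agent.Lib.H85P

open MeasureTheory Matrix NumberField IsDedekindDomain
open Pool.Agent.Lib.H89N Pool.Agent.Lib.H33W Pool.Agent.Lib.H33N

noncomputable section

variable {n N : ℕ}

/-- The matrix over `ℚ` of an element of `HH`. -/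
abbrev mQ (h : HH n N) : Matrix (Fin n) (Fin n) ℚ := (h.1.1.1 : Matrix (Fin n) (Fin n) ℚ)

/-- Upper triangular. -/
def UpH (h : HH n N) : Prop := ∀ i l : Fin n, l < i → mQ h i l = 0

/-- `h = γ⁻¹ b` with `γ ∈ SL_n(ℤ)`, `b` upper triangular with `v_q (b_ii) = e_i`. -/
def IwR (q : ℕ) (h : HH n N) (e : Fin n → ℤ) : Prop :=
  ∃ γ ∈ GH n N, UpH (γ * h) ∧ ∀ i, padicValRat q (mQ (γ * h) i i) = e i

open scoped Classical in
/-- The exponents. -/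
def iwe (q : ℕ) (h : HH n N) : Fin n → ℤ := if H : ∃ e, IwR q h e then H.choose else 0

/-- **The spherical function** `ω_α(h) = ∏ (α_i q ^ (-i)) ^ (e_i(h))`. -/
def om (q : ℕ) (α : Fin n → ℂ) (h : HH n N) : ℂ := ∏ i, (α i / (q : ℂ) ^ (i : ℕ)) ^ iwe q h i

/-- The eigenvalue of the operator of `S` on `ω_α`. -/
def lamO (q : ℕ) (α : Fin n → ℂ) (S : Set (HH n N)) : ℂ := ∑ r ∈ rep (GH n N) S, om q α r

/-- The elements `q⁻¹ γ`, `γ ∈ SL_n(ℤ)`. -/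
def ZS (n N q : ℕ) : Set (HH n N) := {h | ∃ γ ∈ GH n N, (q : ℚ) • mQ h = mQ γ}

/-- The double coset of `g ∈ SL_n(ℚ)`. -/
def SDg (n N : ℕ) (g : SLK n ℚ) : Set (HH n N) :=
  {h | ∃ γ ∈ Gamma n (⊤ : Ideal (𝓞 ℚ)), ∃ γ' ∈ Gamma n (⊤ : Ideal (𝓞 ℚ)), mQ h = (γ * g * γ').1}

/-- The double coset of `g ∈ H`. -/
def DCo {H : Type} [Group H] (Γ : Subgroup H) (g : H) : Set H := {h | ∃ γ ∈ Γ, ∃ γ' ∈ Γ, h = γ * g * γ'}

/-- The products `r_l ⋯ r_2 r_1 γ`-type sets of a list of sets: `PL [] = Γ`, `PL (S :: Ls) = PL Ls * S`. -/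
def PL {H : Type} [Group H] (Γ : Subgroup H) : List (Set H) → Set H
  | [] => Γ
  | S :: Ls => {h | ∃ g ∈ PL Γ Ls, ∃ r ∈ S, h = g * r}

end

end Pool.Agent.Lib.H85P
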